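import Pool.Agent.Y172.Cov2

/-!
Coefficients of minimal polynomials of functions on finite coverings.
-/

set_option autoImplicit false
set_option linter.overlappingInstances false
set_option linter.unusedSectionVars false

open FF Pool.Agent.W602.GT Pool.Agent.W603.LV Pool.Agent.W619.PQ Pool.Agent.Y172

namespace Run7.h530.FI

variable {k K L : Type} [Field k] [CharZero k] [Field K] [Field L] [Algebra k K]
  [Algebra k L] [Algebra K L] [IsScalarTower k K L] [FiniteDimensional K L]

/-- the regular functions at a place -/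
def regRing (P : Place k K) : Subring K where
  carrier := {f | P.Reg f}
  mul_mem' := fun h1 h2 => P.reg_mul h1 h2
  one_mem' := P.reg_one
  add_mem' := fun h1 h2 => Ge.add (N := 0) h1 h2
  zero_mem' := P.reg_zero
  neg_mem' := fun h => Ge.neg (N := 0) h

/-- the coefficients of the minimal polynomial of a function which is regular at all places over
`P` are regular at `P` (copied from the starting file `R887/ExpA.lean`) -/
theorem coeff_reg {P : Place k K} {z : L} (hz : ∀ (Q : Place k L) (e : ℕ), Over Q P e → Q.Reg z)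
    (i : ℕ) : P.Reg ((minpoly K z).coeff i) := by
  classical
  have hcK : CharZero K := charZero_of_injective_algebraMap (algebraMap k K).injective
  let Ω := IntermediateField.normalClosure K L (AlgebraicClosure L)
  let ik : Algebra k Ω := ((algebraMap K Ω).comp (algebraMap k K)).toAlgebra
  have htow : IsScalarTower k K Ω := IsScalarTower.of_algebraMap_eq fun _ => rfl
  have hfin : FiniteDimensional K Ω := inferInstance
  have hnorm : Normal K Ω := inferInstance
  obtain ⟨i0⟩ : Nonempty (L →ₐ[K] Ω) := ⟨IsScalarTower.toAlgHom K L Ω⟩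
  have hspl : ∀ x : L, ((minpoly K x).map (algebraMap K Ω)).Splits := by
    intro x
    have h1 := hnorm.splits (i0 x)
    rwa [minpoly.algHom_eq i0 i0.injective] at h1
  have hroots := Algebra.IsAlgebraic.range_eval_eq_rootSet_minpoly_of_splits Ω hspl z
  obtain ⟨R, e, hR⟩ := exists_above (L := Ω) P
  have hmon : ((minpoly K z).map (algebraMap K Ω)).Monic :=
    (minpoly.monic (Algebra.IsIntegral.isIntegral z)).map _
  have h1 := (hspl z).mem_lift_of_roots_mem_range hmon (regRing R).subtype (by
    intro r hr
    have h2 : r ∈ (minpoly K z).rootSet Ω := by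
      rw [Polynomial.mem_rootSet']
      refine ⟨hmon.ne_zero, ?_⟩
      have h3 := Polynomial.isRoot_of_mem_roots hr
      rwa [Polynomial.IsRoot, Polynomial.eval_map_algebraMap] at h3
    rw [← hroots] at h2
    obtain ⟨σ, hσ⟩ := h2
    obtain ⟨Q, e0, e1, hQ, he1, -, hord⟩ := below_emb σ hR
    have h4 : R.Reg r := by
      change σ z = r at hσ
      rw [← hσ]
      rcases hz Q e0 hQ with h5 | h5
      · left
        rw [h5, map_zero]
      · right
        rw [hord]
        positivity
    exact ⟨⟨r, h4⟩, rfl⟩)
  obtain ⟨q, hq⟩ := (Polynomial.mem_lifts _).1 h1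
  have h2 : R.Reg (algebraMap K Ω ((minpoly K z).coeff i)) := by
    have h3 := congrArg (fun p => Polynomial.coeff p i) hq
    simp only [Polynomial.coeff_map] at h3
    rw [← h3]
    exact (q.coeff i).2
  exact hR.reg.1 h2

/-- the minimal polynomial of a multiple -/
theorem minpoly_mul {z : L} {c : K} (hc : c ≠ 0) :
    minpoly K (algebraMap K L c * z) = (minpoly K z).scaleRoots c := by
  have hint : ∀ w : L, IsIntegral K w := fun w => Algebra.IsIntegral.isIntegral w
  have key : ∀ (w : L) (d : K), d ≠ 0 →
      (minpoly K (algebraMap K L d * w)).natDegree ≤ (minpoly K w).natDegree := by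
    intro w d _
    rw [← Polynomial.natDegree_scaleRoots (minpoly K w) d]
    refine Polynomial.natDegree_le_of_dvd (minpoly.dvd K _ ?_) ?_
    · exact Polynomial.scaleRoots_aeval_eq_zero (minpoly.aeval K w)
    · exact ((Polynomial.monic_scaleRoots_iff d).2 (minpoly.monic (hint w))).ne_zero
  have hc' : algebraMap K L c⁻¹ * (algebraMap K L c * z) = z := by
    rw [← mul_assoc, ← map_mul, inv_mul_cancel₀ hc, map_one, one_mul]
  have h2 := key (algebraMap K L c * z) c⁻¹ (inv_ne_zero hc)
  rw [hc'] at h2
  symm
  refine Polynomial.eq_of_monic_of_dvd_of_natDegree_le (minpoly.monic (hint _))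
    ((Polynomial.monic_scaleRoots_iff c).2 (minpoly.monic (hint z))) (minpoly.dvd K _ ?_) ?_
  · exact Polynomial.scaleRoots_aeval_eq_zero (minpoly.aeval K z)
  · rwa [Polynomial.natDegree_scaleRoots]

/-- bounds for the coefficients of the minimal polynomial -/
theorem coeff_ge {P : Place k K} {z : L} {s : ℤ}
    (hz : ∀ (Q : Place k L) (e : ℕ), Over Q P e → z = 0 ∨ -((e : ℤ) * s) ≤ Q.ord z) (i : ℕ)
    (hi : i ≤ (minpoly K z).natDegree) :
    (minpoly K z).coeff i = 0 ∨
      -((((minpoly K z).natDegree - i : ℕ) : ℤ) * s) ≤ P.ord ((minpoly K z).coeff i) := by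
  obtain ⟨π, hπ0, hπ⟩ := P.surj
  have hc : π ^ s ≠ 0 := zpow_ne_zero _ hπ0
  have hcord : P.ord (π ^ s) = s := by rw [P.ord_zpow, hπ, mul_one]
  have hinj : algebraMap K L (π ^ s) ≠ 0 := (map_ne_zero _).2 hc
  have h1 := coeff_reg (P := P) (z := algebraMap K L (π ^ s) * z) (fun Q e h => by
    rcases hz Q e h with h0 | h0
    · left
      rw [h0, mul_zero]
    · by_cases hz0 : z = 0
      · left
        rw [hz0, mul_zero]
      right
      rw [Q.ord_mul hinj hz0, h.2, hcord]
      linarith) i
  rw [minpoly_mul hc, Polynomial.coeff_scaleRoots] at h1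
  by_cases h0 : (minpoly K z).coeff i = 0
  · exact Or.inl h0
  right
  rcases h1 with h2 | h2
  · exact absurd h2 (mul_ne_zero h0 (pow_ne_zero _ hc))
  · rw [P.ord_mul h0 (pow_ne_zero _ hc), P.ord_pow, hcord] at h2
    linarith

end Run7.h530.FI
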