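import Pool.Agent.Q57.HK.Dir
import Pool.Agent.Run7.h530.FI.Coef

/-!
Finite generation of the ring of sections descends along finite morphisms.
-/

set_option autoImplicit false
set_option linter.overlappingInstances false
set_option linter.unusedSectionVars false

open FF Pool.Agent.W602.GT Pool.Agent.W603.LV Pool.Agent.W619.PQ Pool.Agent.Y172
open Pool.Agent.Q57.FT Pool.Agent.Q57.CX

namespace Run7.h530.FI

section gz

variable {p : ℕ} {L : Type} [Field L] (g : Fin p → L)

/-- the monomial in the functions `g i` -/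
noncomputable def gz (μ : Fin p → ℤ) : L := ∏ i, g i ^ μ i

variable {g} (hg : ∀ i, g i ≠ 0)

include hg

theorem gz_ne (μ : Fin p → ℤ) : gz g μ ≠ 0 :=
  Finset.prod_ne_zero_iff.2 fun i _ => zpow_ne_zero _ (hg i)

theorem gz_add (μ ν : Fin p → ℤ) : gz g (μ + ν) = gz g μ * gz g ν := by
  unfold gz
  rw [← Finset.prod_mul_distrib]
  exact Finset.prod_congr rfl fun i _ => zpow_add₀ (hg i) _ _

omit hg in
theorem gz_zero : gz g 0 = 1 := by
  unfold gz
  simp

theorem gz_nsmul (n : ℕ) (μ : Fin p → ℤ) : gz g (n • μ) = gz g μ ^ n := by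
  induction n with
  | zero => rw [zero_smul, gz_zero, pow_zero]
  | succ n ih => rw [succ_nsmul, gz_add hg, ih, pow_succ]

theorem ord_gz [Algebra ℂ L] (Q : Place ℂ L) (μ : Fin p → ℤ) :
    Q.ord (gz g μ) = ∑ i, μ i * Q.ord (g i) := by
  classical
  unfold gz
  have key : ∀ s : Finset (Fin p), Q.ord (∏ i ∈ s, g i ^ μ i) = ∑ i ∈ s, μ i * Q.ord (g i) := by
    intro s
    induction s using Finset.induction_on with
    | empty => rw [Finset.prod_empty, Finset.sum_empty, Q.ord_one]
    | insert b s hb ih =>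
      rw [Finset.prod_insert hb, Finset.sum_insert hb, Q.ord_mul (zpow_ne_zero _ (hg b))
        (Finset.prod_ne_zero_iff.2 fun i _ => zpow_ne_zero _ (hg i)), ih, Q.ord_zpow]
  exact key _

end gz

variable {p N : ℕ} {K L : Type} [Field K] [Field L] [Algebra ℂ K] [Algebra ℂ L]
  [Algebra K L] [IsScalarTower ℂ K L]

/-- the homomorphism of the multigraded rings -/
noncomputable def inc (K : Type) [Field K] [Algebra ℂ K] [Algebra K L] {g : Fin p → L}
    (hg : ∀ i, g i ≠ 0) :
    AddMonoidAlgebra K (Fin p → ℤ) →ₐ[K] AddMonoidAlgebra L (Fin p → ℤ) :=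
  AddMonoidAlgebra.lift K (AddMonoidAlgebra L (Fin p → ℤ)) (Fin p → ℤ)
    { toFun := fun μ => AddMonoidAlgebra.single μ.toAdd (gz g μ.toAdd)
      map_one' := by
        rw [toAdd_one, gz_zero]
        rfl
      map_mul' := fun μ ν => by
        rw [toAdd_mul, gz_add hg, AddMonoidAlgebra.single_mul_single] }

theorem inc_single {g : Fin p → L} (hg : ∀ i, g i ≠ 0) (μ : Fin p → ℤ) (f : K) :
    inc K hg (AddMonoidAlgebra.single μ f) =
      AddMonoidAlgebra.single μ (algebraMap K L f * gz g μ) := by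
  unfold inc
  rw [AddMonoidAlgebra.lift_single]
  change f • AddMonoidAlgebra.single μ (gz g μ) = _
  rw [AddMonoidAlgebra.smul_single, Algebra.smul_def]

theorem inc_coeff {g : Fin p → L} (hg : ∀ i, g i ≠ 0) (f : AddMonoidAlgebra K (Fin p → ℤ))
    (μ : Fin p → ℤ) : (inc K hg f).coeff μ = algebraMap K L (f.coeff μ) * gz g μ := by
  classical
  induction f using AddMonoidAlgebra.induction_linear with
  | zero => rw [map_zero]; simp
  | add f f' hf hf' =>
    rw [map_add, AddMonoidAlgebra.coeff_add, AddMonoidAlgebra.coeff_add, Finsupp.add_apply,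
      Finsupp.add_apply, hf, hf', map_add, add_mul]
  | single ν b =>
    rw [inc_single, AddMonoidAlgebra.coeff_single, AddMonoidAlgebra.coeff_single,
      Finsupp.single_apply, Finsupp.single_apply]
    split_ifs with h
    · rw [h]
    · rw [map_zero, zero_mul]

theorem inc_inj {g : Fin p → L} (hg : ∀ i, g i ≠ 0) : Function.Injective (inc K hg) := by
  intro f f' h
  ext μ
  have h1 := congrArg (fun q => AddMonoidAlgebra.coeff q μ) h
  simp only [inc_coeff] at h1
  exact (algebraMap K L).injective (mul_right_cancel₀ (gz_ne hg μ) h1)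

variable [FiniteDimensional K L] {δ0 : Fin p → Place ℂ K → ℚ} {δ : Fin p → Place ℂ L → ℚ}
  {g : Fin p → L}

/-- The pull-backs of the divisors with the coefficients `δ0 i` are the divisors with the coefficients
`δ i` plus the divisors of the functions `g i`. -/
def Pulls (N : ℕ) (δ0 : Fin p → Place ℂ K → ℚ) (δ : Fin p → Place ℂ L → ℚ) (g : Fin p → L) :
    Prop :=
  ∀ (i : Fin p) (Q : Place ℂ L) (P : Place ℂ K) (e : ℕ), Over Q P e → Divisorial N Q →
    (e : ℚ) * δ0 i P = δ i Q + Q.ord (g i)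

theorem Pulls.sum (H : Pulls N δ0 δ g) {Q : Place ℂ L} {P : Place ℂ K} {e : ℕ} (h : Over Q P e)
    (hQ : Divisorial N Q) (μ : Fin p → ℤ) :
    (e : ℚ) * ∑ i, (μ i : ℚ) * δ0 i P =
      ∑ i, (μ i : ℚ) * δ i Q + ∑ i, ((μ i * Q.ord (g i) : ℤ) : ℚ) := by
  rw [Finset.mul_sum, ← Finset.sum_add_distrib]
  refine Finset.sum_congr rfl fun i _ => ?_
  push_cast
  linear_combination (μ i : ℚ) * H i Q P e h hQ

theorem inc_sec (hg : ∀ i, g i ≠ 0) (H : Pulls N δ0 δ g) {μ : Fin p → ℤ} {f : K}
    (hf : ZSec N δ0 μ f) : ZSec N δ μ (algebraMap K L f * gz g μ) := by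
  intro Q hQ
  obtain ⟨P, e, h⟩ := exists_below (K := K) Q
  rcases hf P (divisorial_down h hQ) with h0 | h0
  · left
    rw [h0, map_zero, zero_mul]
  by_cases hf0 : f = 0
  · left
    rw [hf0, map_zero, zero_mul]
  right
  rw [Q.ord_mul ((map_ne_zero _).2 hf0) (gz_ne hg μ), h.2, ord_gz hg]
  have h1 := H.sum h hQ μ
  have he : (0 : ℚ) ≤ e := by positivity
  have h2 := mul_le_mul_of_nonneg_left h0 he
  push_cast at h1 h2 ⊢
  linarith

/-- the homomorphism of the rings of sections -/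
noncomputable def incR (hg : ∀ i, g i ≠ 0) (H : Pulls N δ0 δ g) :
    coxRing N δ0 →ₐ[ℂ] coxRing N δ :=
  (((inc K hg).restrictScalars ℂ).comp (coxRing N δ0).val).codRestrict (coxRing N δ) fun f μ => by
    change ZSec N δ μ ((inc K hg f.1).coeff μ)
    rw [inc_coeff]
    exact inc_sec hg H (f.2 μ)

theorem incR_val (hg : ∀ i, g i ≠ 0) (H : Pulls N δ0 δ g) (f : coxRing N δ0) :
    (incR hg H f : AddMonoidAlgebra L (Fin p → ℤ)) = inc K hg f.1 := rfl

theorem coef_sec (hg : ∀ i, g i ≠ 0) (H : Pulls N δ0 δ g) {m : ℕ}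
    (hm : ∀ i P, Divisorial N P → ∃ a : ℤ, (m : ℚ) * δ0 i P = a) {μ : Fin p → ℤ} {f : L}
    (hf0 : f ≠ 0) (hf : ZSec N δ μ f) (i : ℕ)
    (hi : i ≤ (minpoly K ((f * (gz g μ)⁻¹) ^ m)).natDegree) :
    ZSec N δ0 (((minpoly K ((f * (gz g μ)⁻¹) ^ m)).natDegree - i) • (m • μ))
      ((minpoly K ((f * (gz g μ)⁻¹) ^ m)).coeff i) := by
  intro P hP
  choose a ha using fun i => hm i P hP
  set d := (minpoly K ((f * (gz g μ)⁻¹) ^ m)).natDegree with hd
  have h1 := coeff_ge (P := P) (z := (f * (gz g μ)⁻¹) ^ m) (s := ∑ j, μ j * a j) (by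
    intro Q e h
    right
    have hQ := divisorial_up (n := N) h hP
    have h2 : Q.ord ((f * (gz g μ)⁻¹) ^ m) = m * (Q.ord f - ∑ j, μ j * Q.ord (g j)) := by
      rw [Q.ord_pow, Q.ord_mul hf0 (inv_ne_zero (gz_ne hg μ)), Q.ord_inv, ord_gz hg]
      ring
    have h3 := (hf Q hQ).resolve_left hf0
    have h4 := H.sum h hQ μ
    have h5 : (m : ℚ) * ∑ j, (μ j : ℚ) * δ0 j P = ((∑ j, μ j * a j : ℤ) : ℚ) := by
      rw [Finset.mul_sum]
      push_cast
      refine Finset.sum_congr rfl fun j _ => ?_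
      linear_combination (μ j : ℚ) * ha j
    rw [h2]
    have h6 : (0 : ℚ) ≤ m := by positivity
    have h7 := mul_le_mul_of_nonneg_left h3 h6
    have h8 : -((e : ℚ) * ((∑ j, μ j * a j : ℤ) : ℚ)) ≤
        (m : ℚ) * ((Q.ord f : ℚ) - ((∑ j, μ j * Q.ord (g j) : ℤ) : ℚ)) := by
      rw [← h5]
      push_cast at h4 h7 ⊢
      linear_combination (-(m : ℚ)) * h4 + h7
    exact_mod_cast h8) i hi
  rcases h1 with h2 | h2
  · exact Or.inl h2
  right
  have h3 : -∑ j, (((d - i) • (m • μ)) j : ℚ) * δ0 j P =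
      ((-(((d - i : ℕ) : ℤ) * ∑ j, μ j * a j) : ℤ) : ℚ) := by
    push_cast
    rw [Finset.mul_sum]
    congr 1
    refine Finset.sum_congr rfl fun j _ => ?_
    have h4 : ((((d - i) • (m • μ)) j : ℤ) : ℚ) = ((d - i : ℕ) : ℚ) * ((m : ℚ) * (μ j : ℚ)) := by
      rw [Pi.smul_apply, Pi.smul_apply, nsmul_eq_mul, nsmul_eq_mul, Int.cast_mul, Int.cast_mul,
        Int.cast_natCast, Int.cast_natCast]
    rw [h4]
    linear_combination (((d - i : ℕ) : ℚ) * (μ j : ℚ)) * ha j
  rw [h3]
  exact_mod_cast h2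

theorem single_pow' (μ : Fin p → ℤ) (f : L) (n : ℕ) :
    (AddMonoidAlgebra.single μ f) ^ n = AddMonoidAlgebra.single (n • μ) (f ^ n) :=
  AddMonoidAlgebra.single_pow μ f n

theorem fg_desc (hg : ∀ i, g i ≠ 0) (H : Pulls N δ0 δ g) {m : ℕ} (hm0 : 0 < m)
    (hm : ∀ i P, Divisorial N P → ∃ a : ℤ, (m : ℚ) * δ0 i P = a) (h : (coxRing N δ).FG) :
    (coxRing N δ0).FG := by
  classical
  letI ia : Algebra (coxRing N δ0) (coxRing N δ) := (incR hg H).toRingHom.toAlgebra
  have hmap : ∀ b : coxRing N δ0, algebraMap (coxRing N δ0) (coxRing N δ) b = incR hg H b :=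
    fun _ => rfl
  haveI : IsScalarTower ℂ (coxRing N δ0) (coxRing N δ) :=
    IsScalarTower.of_algebraMap_eq fun c => ((incR hg H).commutes c).symm
  have hinj : Function.Injective (algebraMap (coxRing N δ0) (coxRing N δ)) := by
    intro b b' hb
    apply Subtype.ext
    apply inc_inj hg
    exact congrArg Subtype.val hb
  have hsingle : ∀ (μ : Fin p → ℤ) (f : L) (hf : ZSec N δ μ f),
      IsIntegral (coxRing N δ0) (⟨AddMonoidAlgebra.single μ f, single_mem hf⟩ : coxRing N δ) := by
    intro μ f hf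
    by_cases hf0 : f = 0
    · have h1 : (⟨AddMonoidAlgebra.single μ f, single_mem hf⟩ : coxRing N δ) = 0 :=
        Subtype.ext (by subst hf0; exact AddMonoidAlgebra.single_zero μ)
      rw [h1]
      exact isIntegral_zero
    refine IsIntegral.of_pow hm0 ?_
    set z : L := (f * (gz g μ)⁻¹) ^ m with hz
    set d := (minpoly K z).natDegree with hd
    let b : Fin d → coxRing N δ0 := fun i =>
      ⟨AddMonoidAlgebra.single ((d - (i : ℕ)) • (m • μ)) ((minpoly K z).coeff i),
        single_mem (coef_sec hg H hm hf0 hf i i.2.le)⟩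
    refine ⟨Polynomial.X ^ d + ∑ i : Fin d, Polynomial.C (b i) * Polynomial.X ^ (i : ℕ),
      Polynomial.monic_X_pow_add (Polynomial.degree_sum_fin_lt b), ?_⟩
    rw [Polynomial.eval₂_add, Polynomial.eval₂_X_pow, Polynomial.eval₂_finsetSum]
    apply Subtype.ext
    have hfm : f ^ m = z * gz g μ ^ m := by
      rw [hz, mul_pow, inv_pow, inv_mul_cancel_right₀ (pow_ne_zero _ (gz_ne hg μ))]
    have hterm : ∀ i : Fin d, ((Polynomial.eval₂ (algebraMap (coxRing N δ0) (coxRing N δ))
        ((⟨AddMonoidAlgebra.single μ f, single_mem hf⟩ : coxRing N δ) ^ m)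
        (Polynomial.C (b i) * Polynomial.X ^ (i : ℕ)) : coxRing N δ) :
          AddMonoidAlgebra L (Fin p → ℤ)) =
        AddMonoidAlgebra.single (d • (m • μ))
          (gz g μ ^ (m * d) * (algebraMap K L ((minpoly K z).coeff i) * z ^ (i : ℕ))) := by
      intro i
      rw [Polynomial.eval₂_mul, Polynomial.eval₂_C, Polynomial.eval₂_X_pow, hmap]
      change (inc K hg (b i).1) * ((AddMonoidAlgebra.single μ f) ^ m) ^ (i : ℕ) = _
      rw [show (b i).1 = AddMonoidAlgebra.single ((d - (i : ℕ)) • (m • μ))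
        ((minpoly K z).coeff i) from rfl, inc_single, single_pow', single_pow',
        AddMonoidAlgebra.single_mul_single, ← add_smul, Nat.sub_add_cancel i.2.le,
        gz_nsmul hg, gz_nsmul hg, hfm]
      congr 1
      have h1 : gz g μ ^ (m * d) = (gz g μ ^ m) ^ (d - (i : ℕ)) * (gz g μ ^ m) ^ (i : ℕ) := by
        rw [← pow_add, Nat.sub_add_cancel i.2.le, pow_mul]
      rw [h1, mul_pow]
      ring
    have hsum : ((∑ i : Fin d, Polynomial.eval₂ (algebraMap (coxRing N δ0) (coxRing N δ))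
        ((⟨AddMonoidAlgebra.single μ f, single_mem hf⟩ : coxRing N δ) ^ m)
        (Polynomial.C (b i) * Polynomial.X ^ (i : ℕ)) : coxRing N δ) :
          AddMonoidAlgebra L (Fin p → ℤ)) =
        AddMonoidAlgebra.single (d • (m • μ)) (gz g μ ^ (m * d) *
          ∑ i : Fin d, algebraMap K L ((minpoly K z).coeff i) * z ^ (i : ℕ)) := by
      rw [← Subalgebra.coe_val, map_sum]
      simp only [Subalgebra.coe_val]
      rw [Finset.sum_congr rfl fun i _ => hterm i, Finset.mul_sum]
      ext ν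
      rw [AddMonoidAlgebra.coeff_single, Finsupp.single_apply]
      simp only [AddMonoidAlgebra.coeff_sum, Finsupp.finsetSum_apply,
        AddMonoidAlgebra.coeff_single, Finsupp.single_apply]
      split_ifs with h1
      · rfl
      · rw [Finset.sum_const_zero]
    have hpow : ((((⟨AddMonoidAlgebra.single μ f, single_mem hf⟩ : coxRing N δ) ^ m) ^ d :
        coxRing N δ) : AddMonoidAlgebra L (Fin p → ℤ)) =
        AddMonoidAlgebra.single (d • (m • μ)) (gz g μ ^ (m * d) * z ^ d) := by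
      change ((AddMonoidAlgebra.single μ f) ^ m) ^ d = _
      rw [single_pow', single_pow', hfm, mul_pow, ← pow_mul]
      congr 1
      ring
    change (((((⟨AddMonoidAlgebra.single μ f, single_mem hf⟩ : coxRing N δ) ^ m) ^ d :
        coxRing N δ) : AddMonoidAlgebra L (Fin p → ℤ)) + _) = 0
    rw [hpow, hsum, ← AddMonoidAlgebra.single_add, ← mul_add]
    have hmin : z ^ d + ∑ i : Fin d, algebraMap K L ((minpoly K z).coeff i) * z ^ (i : ℕ) = 0 := by
      have h1 := minpoly.aeval K z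
      rw [Polynomial.aeval_eq_sum_range, Finset.sum_range_succ, ← hd,
        (minpoly.monic (Algebra.IsIntegral.isIntegral z)).coeff_natDegree, one_smul,
        Finset.sum_range] at h1
      rw [add_comm, ← h1]
      congr 1
      exact Finset.sum_congr rfl fun i _ => (Algebra.smul_def _ _).symm
    rw [hmin, mul_zero]
    exact AddMonoidAlgebra.single_zero _
  haveI hint : Algebra.IsIntegral (coxRing N δ0) (coxRing N δ) := by
    refine ⟨fun c => ?_⟩
    have h1 : c = ∑ μ ∈ c.1.coeff.support, (⟨AddMonoidAlgebra.single μ (c.1.coeff μ),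
        single_mem (c.2 μ)⟩ : coxRing N δ) := by
      apply Subtype.ext
      change c.1 = (coxRing N δ).val (∑ μ ∈ c.1.coeff.support,
        (⟨AddMonoidAlgebra.single μ (c.1.coeff μ), single_mem (c.2 μ)⟩ : coxRing N δ))
      rw [map_sum]
      change c.1 = ∑ μ ∈ c.1.coeff.support, AddMonoidAlgebra.single μ (c.1.coeff μ)
      ext ν
      simp only [AddMonoidAlgebra.coeff_sum, Finsupp.finsetSum_apply,
        AddMonoidAlgebra.coeff_single, Finsupp.single_apply, Finset.sum_ite_eq',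
        Finsupp.mem_support_iff]
      split_ifs with h2
      · rfl
      · exact not_not.1 h2
    rw [h1]
    exact IsIntegral.sum _ fun μ _ => hsingle μ _ (c.2 μ)
  haveI hft : Algebra.FiniteType ℂ (coxRing N δ) := ⟨(Subalgebra.fg_top _).2 h⟩
  haveI hft' : Algebra.FiniteType (coxRing N δ0) (coxRing N δ) :=
    Algebra.FiniteType.of_restrictScalars_finiteType ℂ _ _
  haveI hfin : Module.Finite (coxRing N δ0) (coxRing N δ) := Algebra.IsIntegral.finite
  exact (Subalgebra.fg_top _).1 (fg_of_fg_of_fg ℂ (coxRing N δ0) (coxRing N δ)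
    ((Subalgebra.fg_top _).2 h) Module.Finite.fg_top hinj)

end Run7.h530.FI
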