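import Pool.Agent.Run7.h530.FI.Conv
import Pool.Agent.Q57.HK.Dir

/-!
The cones of the divisors without base points along given prime divisors are rational polyhedral if
the multigraded ring of sections is finitely generated.
-/

set_option autoImplicit false
set_option linter.overlappingInstances false
set_option linter.unusedSectionVars false

open FF Pool.Agent.W602.GT Pool.Agent.Q57.FT Pool.Agent.Q57.CX Pool.Agent.Q57.HK
open Pool.Agent.Y167 (cone cone_sum cone_smul cone_add mem_cone_self cone_le cone_ind cone_mono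
  zero_mem_cone)

namespace Run7.h530.FI

section

variable {p N : ℕ} {K : Type} [Field K] [Algebra ℂ K] {δ : Fin p → Place ℂ K → ℚ}

theorem isSection_iff {μ : Fin p → ℤ} {f : K} : IsSection N δ μ f ↔ ZSec N δ μ f := Iff.rfl

theorem rc_add (μ ν : Fin p → ℤ) : rc (μ + ν) = rc μ + rc ν := by
  funext i
  simp [rc]

theorem rc_nsmul (k : ℕ) (μ : Fin p → ℤ) : rc (k • μ) = (k : ℝ) • rc μ := by
  funext i
  simp [rc]

theorem rc_neg (μ : Fin p → ℤ) : rc (-μ) = - rc μ := by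
  funext i
  simp [rc]

theorem IsEff.add {μ ν : Fin p → ℤ} (h : IsEff N δ μ) (h' : IsEff N δ ν) :
    IsEff N δ (μ + ν) := by
  obtain ⟨f, hf0, hf⟩ := h
  obtain ⟨g, hg0, hg⟩ := h'
  exact ⟨f * g, mul_ne_zero hf0 hg0, zsec_mul hf hg⟩

theorem isEff_zero : IsEff N δ 0 := ⟨1, one_ne_zero, zsec_one⟩

theorem IsEff.nsmul {μ : Fin p → ℤ} (h : IsEff N δ μ) (k : ℕ) : IsEff N δ (k • μ) := by
  induction k with
  | zero => rw [zero_smul]; exact isEff_zero
  | succ k ih => rw [succ_nsmul]; exact ih.add h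

theorem IsEff.sum {ι : Type} (s : Finset ι) {μ : ι → Fin p → ℤ} (h : ∀ a ∈ s, IsEff N δ (μ a)) :
    IsEff N δ (∑ a ∈ s, μ a) := by
  classical
  induction s using Finset.induction_on with
  | empty => rw [Finset.sum_empty]; exact isEff_zero
  | insert b s hb ih =>
    rw [Finset.sum_insert hb]
    exact (h b (Finset.mem_insert_self b s)).add
      (ih fun i hi => h i (Finset.mem_insert_of_mem hi))

theorem FreeAt.eff {μ : Fin p → ℤ} {P : Place ℂ K} (h : FreeAt N δ μ P) : IsEff N δ μ := by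
  obtain ⟨f, hf0, hf, -⟩ := h
  exact ⟨f, hf0, hf⟩

theorem FreeAt.add {μ ν : Fin p → ℤ} {P : Place ℂ K} (h : FreeAt N δ μ P) (h' : FreeAt N δ ν P) :
    FreeAt N δ (μ + ν) P := by
  obtain ⟨f, hf0, hf, hf1⟩ := h
  obtain ⟨g, hg0, hg, hg1⟩ := h'
  refine ⟨f * g, mul_ne_zero hf0 hg0, zsec_mul hf hg, ?_⟩
  rw [P.ord_mul hf0 hg0]
  push_cast
  rw [hf1, hg1, ← neg_add, ← Finset.sum_add_distrib]
  congr 1
  refine Finset.sum_congr rfl fun i _ => ?_
  rw [Pi.add_apply]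
  push_cast
  ring

theorem freeAt_zero {P : Place ℂ K} : FreeAt N δ 0 P := by
  refine ⟨1, one_ne_zero, zsec_one, ?_⟩
  rw [P.ord_one]
  simp

theorem FreeAt.nsmul {μ : Fin p → ℤ} {P : Place ℂ K} (h : FreeAt N δ μ P) (k : ℕ) :
    FreeAt N δ (k • μ) P := by
  induction k with
  | zero => rw [zero_smul]; exact freeAt_zero
  | succ k ih => rw [succ_nsmul]; exact ih.add h

theorem FreeAt.sum {ι : Type} (s : Finset ι) {μ : ι → Fin p → ℤ} {P : Place ℂ K}
    (h : ∀ a ∈ s, FreeAt N δ (μ a) P) : FreeAt N δ (∑ a ∈ s, μ a) P := by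
  classical
  induction s using Finset.induction_on with
  | empty => rw [Finset.sum_empty]; exact freeAt_zero
  | insert b s hb ih =>
    rw [Finset.sum_insert hb]
    exact (h b (Finset.mem_insert_self b s)).add
      (ih fun i hi => h i (Finset.mem_insert_of_mem hi))

/-- the cone of the vectors `g b`, `b ∈ B` -/
def gcone {N0 : ℕ} (g : Fin N0 → Fin p → ℤ) (B : Finset (Fin N0)) : Set (Fin p → ℝ) :=
  {x | ∃ t : Fin N0 → ℝ, (∀ b, 0 ≤ t b) ∧ ∀ i, x i = ∑ b ∈ B, t b * g b i}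

/-- **Intersections of rational polyhedral cones.** -/
theorem gcone_inter {N0 : ℕ} (g : Fin N0 → Fin p → ℤ) (F : Finset (Finset (Fin N0)))
    (hF : F.Nonempty) : ∃ U : Finset (Fin p → ℤ),
      (∀ μ ∈ U, ∀ B ∈ F, ∃ e : Fin N0 → ℕ, μ = ∑ b ∈ B, e b • g b) ∧
      ∀ x, (∀ B ∈ F, x ∈ gcone g B) ↔ ∃ t : (Fin p → ℤ) → ℝ, (∀ a, 0 ≤ t a) ∧
        x = ∑ a ∈ U, t a • rc a := by
  classical
  obtain ⟨B0, hB0⟩ := hF
  -- the equations
  let v : F × Fin p → F × Fin N0 → ℤ := fun k i =>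
    (if i.1 = k.1 ∧ i.2 ∈ i.1.1 then g i.2 k.2 else 0) -
      (if i.1 = ⟨B0, hB0⟩ ∧ i.2 ∈ B0 then g i.2 k.2 else 0)
  have hv : ∀ (t : F × Fin N0 → ℝ) (k : F × Fin p), ∑ i, t i * (v k i : ℝ) =
      ∑ b ∈ k.1.1, t (k.1, b) * g b k.2 - ∑ b ∈ B0, t (⟨B0, hB0⟩, b) * g b k.2 := by
    intro t k
    have h1 : ∀ (B : F), ∑ i : F × Fin N0, t i * ((if i.1 = B ∧ i.2 ∈ B.1 then g i.2 k.2 else 0 :
        ℤ) : ℝ) = ∑ b ∈ B.1, t (B, b) * g b k.2 := by
      intro B
      rw [Fintype.sum_prod_type, Finset.sum_eq_single B]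
      · rw [← Finset.sum_filter_add_sum_filter_not Finset.univ (fun b => b ∈ B.1)]
        have h2 : ∑ b ∈ Finset.univ.filter (fun b => ¬ b ∈ B.1),
            t (B, b) * ((if B = B ∧ b ∈ B.1 then g b k.2 else 0 : ℤ) : ℝ) = 0 := by
          refine Finset.sum_eq_zero fun b hb => ?_
          rw [if_neg fun h => (Finset.mem_filter.1 hb).2 h.2]
          simp
        rw [h2, add_zero]
        have h3 : Finset.univ.filter (fun b => b ∈ B.1) = B.1 := by
          ext b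
          simp
        rw [h3]
        refine Finset.sum_congr rfl fun b hb => ?_
        rw [if_pos ⟨rfl, hb⟩]
      · intro B' _ hne
        refine Finset.sum_eq_zero fun b _ => ?_
        rw [if_neg fun h => hne h.1]
        simp
      · intro h
        exact absurd (Finset.mem_univ B) h
    have h4 : ∀ i : F × Fin N0, t i * (v k i : ℝ) =
        t i * ((if i.1 = k.1 ∧ i.2 ∈ k.1.1 then g i.2 k.2 else 0 : ℤ) : ℝ) -
        t i * ((if i.1 = ⟨B0, hB0⟩ ∧ i.2 ∈ (⟨B0, hB0⟩ : F).1 then g i.2 k.2 else 0 : ℤ) : ℝ) := by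
      intro i
      rw [← mul_sub, ← Int.cast_sub]
      congr 2
      change (if i.1 = k.1 ∧ i.2 ∈ i.1.1 then g i.2 k.2 else 0) - _ = _ - _
      congr 1
      by_cases h5 : i.1 = k.1
      · rw [h5]
      · rw [if_neg fun h => h5 h.1, if_neg fun h => h5 h.1]
    rw [Finset.sum_congr rfl fun i _ => h4 i, Finset.sum_sub_distrib, h1, h1]
  obtain ⟨S, hS, hc⟩ := solutions v
  choose! e he hek using hS
  -- the integral vectors
  have hrel : ∀ a ∈ S, ∀ (B : Finset (Fin N0)) (hB : B ∈ F),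
      ∑ b ∈ B, e a (⟨B, hB⟩, b) • g b = ∑ b ∈ B0, e a (⟨B0, hB0⟩, b) • g b := by
    intro a ha B hB
    funext j
    have h1 := hv (fun i => (e a i : ℝ)) (⟨B, hB⟩, j)
    have h2 : ∑ i, (e a i : ℝ) * (v (⟨B, hB⟩, j) i : ℝ) = 0 := by
      have h3 := hek a ha (⟨B, hB⟩, j)
      exact_mod_cast h3
    rw [h2] at h1
    have h4 : ∑ b ∈ B, (e a (⟨B, hB⟩, b) : ℝ) * g b j =
        ∑ b ∈ B0, (e a (⟨B0, hB0⟩, b) : ℝ) * g b j := by
      linarith
    rw [Finset.sum_apply, Finset.sum_apply]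
    simp only [Pi.smul_apply, nsmul_eq_mul]
    exact_mod_cast h4
  refine ⟨S.image fun a => ∑ b ∈ B0, e a (⟨B0, hB0⟩, b) • g b, fun μ hμ B hB => ?_, fun x => ?_⟩
  · obtain ⟨a, ha, rfl⟩ := Finset.mem_image.1 hμ
    exact ⟨fun b => e a (⟨B, hB⟩, b), (hrel a ha B hB).symm⟩
  · constructor
    · intro hx
      choose t ht hxt using hx
      have h1 : (fun i : F × Fin N0 => t i.1.1 i.1.2 i.2) ∈ cone S := by
        refine (hc _).2 ⟨fun i => ht _ _ _, fun k => ?_⟩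
        rw [hv, ← hxt _ k.1.2 k.2, ← hxt _ hB0 k.2, sub_self]
      obtain ⟨c, hc0, hcx⟩ := h1
      refine ⟨fun μ => ∑ a ∈ S.filter (fun a => ∑ b ∈ B0, e a (⟨B0, hB0⟩, b) • g b = μ), c a,
        fun μ => Finset.sum_nonneg fun a _ => hc0 a, ?_⟩
      funext j
      rw [hxt _ hB0 j, Finset.sum_apply]
      have h2 : ∀ b, t B0 hB0 b = ∑ a ∈ S, c a * e a (⟨B0, hB0⟩, b) := by
        intro b
        have h3 := congrFun hcx (⟨B0, hB0⟩, b)
        rw [Finset.sum_apply] at h3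
        refine h3.trans (Finset.sum_congr rfl fun a ha => ?_)
        rw [Pi.smul_apply, smul_eq_mul, he a ha]
      have h3 : ∑ b ∈ B0, t B0 hB0 b * g b j =
          ∑ a ∈ S, c a * ∑ b ∈ B0, (e a (⟨B0, hB0⟩, b) : ℝ) * g b j := by
        simp only [h2, Finset.sum_mul, Finset.mul_sum]
        rw [Finset.sum_comm]
        refine Finset.sum_congr rfl fun a _ => Finset.sum_congr rfl fun b _ => ?_
        ring
      rw [h3]
      rw [← Finset.sum_fiberwise_of_maps_to (t := S.image fun a =>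
        ∑ b ∈ B0, e a (⟨B0, hB0⟩, b) • g b) (g := fun a => ∑ b ∈ B0, e a (⟨B0, hB0⟩, b) • g b)
        (fun a ha => Finset.mem_image_of_mem _ ha)]
      refine Finset.sum_congr rfl fun μ _ => ?_
      rw [Pi.smul_apply, smul_eq_mul, Finset.sum_mul]
      refine Finset.sum_congr rfl fun a ha => ?_
      rw [← (Finset.mem_filter.1 ha).2]
      congr 1
      change _ = (((∑ b ∈ B0, e a (⟨B0, hB0⟩, b) • g b) j : ℤ) : ℝ)
      rw [Finset.sum_apply, Int.cast_sum]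
      refine Finset.sum_congr rfl fun b _ => ?_
      rw [Pi.smul_apply, nsmul_eq_mul, Int.cast_mul, Int.cast_natCast]
    · rintro ⟨t, ht, rfl⟩ B hB
      refine ⟨fun b => ∑ μ ∈ S.image (fun a => ∑ b ∈ B0, e a (⟨B0, hB0⟩, b) • g b), t μ *
        (if h : ∃ a ∈ S, ∑ b ∈ B0, e a (⟨B0, hB0⟩, b) • g b = μ then
          e h.choose (⟨B, hB⟩, b) else 0 : ℕ), fun b => Finset.sum_nonneg fun μ _ =>
            mul_nonneg (ht μ) (Nat.cast_nonneg _), fun i => ?_⟩
      rw [Finset.sum_apply]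
      simp only [Finset.sum_mul]
      rw [Finset.sum_comm]
      refine Finset.sum_congr rfl fun μ hμ => ?_
      have h : ∃ a ∈ S, ∑ b ∈ B0, e a (⟨B0, hB0⟩, b) • g b = μ := by
        obtain ⟨a, ha, hμa⟩ := Finset.mem_image.1 hμ
        exact ⟨a, ha, hμa⟩
      simp only [dif_pos h]
      have h1 := hrel _ h.choose_spec.1 B hB
      rw [h.choose_spec.2] at h1
      have h2 := congrFun h1 i
      rw [Finset.sum_apply] at h2
      simp only [Pi.smul_apply, nsmul_eq_mul] at h2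
      rw [Pi.smul_apply, smul_eq_mul, rc, ← h2]
      push_cast
      rw [Finset.mul_sum]
      exact Finset.sum_congr rfl fun b _ => by ring

/-- the generators whose divisor does not contain the centre of `P` -/
noncomputable def van {N0 : ℕ} (g : Fin N0 → Fin p → ℤ) (f : Fin N0 → K)
    (δ : Fin p → Place ℂ K → ℚ) (P : Place ℂ K) : Finset (Fin N0) := tig g f δ P

theorem mem_van {N0 : ℕ} {g : Fin N0 → Fin p → ℤ} {f : Fin N0 → K} {P : Place ℂ K} {b : Fin N0} :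
    b ∈ van g f δ P ↔ (P.ord (f b) : ℚ) = - ∑ i, (g b i : ℚ) * δ i P := by
  classical
  unfold van tig
  rw [Finset.mem_filter]
  simp

/-- **Divisors without base points at `P`.** -/
theorem freeAt_van {N0 : ℕ} {g : Fin N0 → Fin p → ℤ} {f : Fin N0 → K}
    (hgen : (∀ b, f b ≠ 0 ∧ ZSec N δ (g b) (f b)) ∧
      ∀ (μ : Fin p → ℤ) (η : K), η ≠ 0 → ZSec N δ μ η → ∀ P : Place ℂ K, Mnl g f P μ η)
    {P : Place ℂ K} (hP : Divisorial N P) {μ : Fin p → ℤ} :
    FreeAt N δ μ P ↔ ∃ e : Fin N0 → ℕ, μ = ∑ b ∈ van g f δ P, e b • g b := by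
  classical
  constructor
  · rintro ⟨η, hη0, hη, hle⟩
    obtain ⟨e, he1, he2⟩ := hgen.2 μ η hη0 hη P
    have hge : ∀ b, 0 ≤ (P.ord (f b) : ℚ) + ∑ i, (g b i : ℚ) * δ i P := by
      intro b
      have := ((hgen.1 b).2 P hP).resolve_left (hgen.1 b).1
      linarith
    have h1 : ∑ b, (e b : ℚ) * ∑ i, (g b i : ℚ) * δ i P = ∑ i, (μ i : ℚ) * δ i P := by
      simp only [Finset.mul_sum]
      rw [Finset.sum_comm]
      refine Finset.sum_congr rfl fun i _ => ?_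
      rw [← he1 i]
      push_cast
      rw [Finset.sum_mul]
      exact Finset.sum_congr rfl fun b _ => by ring
    have h2 : ∑ b, (e b : ℚ) * (P.ord (f b) + ∑ i, (g b i : ℚ) * δ i P) ≤ 0 := by
      have h3 : ((∑ b, (e b : ℤ) * P.ord (f b) : ℤ) : ℚ) ≤ (P.ord η : ℚ) := by exact_mod_cast he2
      have h4 : ∑ b, (e b : ℚ) * (P.ord (f b) + ∑ i, (g b i : ℚ) * δ i P) =
          ((∑ b, (e b : ℤ) * P.ord (f b) : ℤ) : ℚ) + ∑ i, (μ i : ℚ) * δ i P := by
        rw [← h1]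
        push_cast
        rw [← Finset.sum_add_distrib]
        exact Finset.sum_congr rfl fun b _ => by ring
      rw [h4]
      linarith
    have h3 : ∀ b ∈ Finset.univ, 0 ≤ (e b : ℚ) * (P.ord (f b) + ∑ i, (g b i : ℚ) * δ i P) :=
      fun b _ => mul_nonneg (by positivity) (hge b)
    have h4 : ∀ b ∈ Finset.univ, (e b : ℚ) * (P.ord (f b) + ∑ i, (g b i : ℚ) * δ i P) = 0 :=
      (Finset.sum_eq_zero_iff_of_nonneg h3).1 (le_antisymm h2 (Finset.sum_nonneg h3))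
    refine ⟨e, ?_⟩
    funext i
    rw [← he1 i, Finset.sum_apply]
    symm
    refine Finset.sum_subset_zero_on_sdiff (Finset.subset_univ _) (fun b hb => ?_) fun b _ => ?_
    · have h5 := h4 b (Finset.mem_univ b)
      rcases mul_eq_zero.1 h5 with h6 | h6
      · have h7 : e b = 0 := by exact_mod_cast h6
        rw [h7]
        simp
      · exfalso
        exact (Finset.mem_sdiff.1 hb).2 (mem_van.2 (by linarith))
    · rw [Pi.smul_apply, nsmul_eq_mul]
  · rintro ⟨e, rfl⟩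
    refine FreeAt.sum _ fun b hb => FreeAt.nsmul ⟨f b, (hgen.1 b).1, (hgen.1 b).2, ?_⟩ _
    exact mem_van.1 hb

/-- the sets of generators which do not vanish at the prime divisors in `𝒬` -/
noncomputable def vans {N0 : ℕ} (g : Fin N0 → Fin p → ℤ) (f : Fin N0 → K)
    (δ : Fin p → Place ℂ K → ℚ) (𝒬 : Set (Place ℂ K)) : Finset (Finset (Fin N0)) := by
  classical
  exact Finset.univ.filter fun B => ∃ P ∈ 𝒬, van g f δ P = B

theorem mem_vans {N0 : ℕ} {g : Fin N0 → Fin p → ℤ} {f : Fin N0 → K} {𝒬 : Set (Place ℂ K)}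
    {B : Finset (Fin N0)} : B ∈ vans g f δ 𝒬 ↔ ∃ P ∈ 𝒬, van g f δ P = B := by
  classical
  unfold vans
  rw [Finset.mem_filter]
  simp

/-- **The generators of the cones of divisors without base points.** -/
theorem exists_gens {N0 : ℕ} {g : Fin N0 → Fin p → ℤ} {f : Fin N0 → K}
    (hgen : (∀ b, f b ≠ 0 ∧ ZSec N δ (g b) (f b)) ∧
      ∀ (μ : Fin p → ℤ) (η : K), η ≠ 0 → ZSec N δ μ η → ∀ P : Place ℂ K, Mnl g f P μ η)
    {𝒬 : Set (Place ℂ K)} (h𝒬 : ∀ P ∈ 𝒬, Divisorial N P) (hne : 𝒬.Nonempty) :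
    ∃ U : Finset (Fin p → ℤ), (∀ μ ∈ U, ∀ P ∈ 𝒬, FreeAt N δ μ P) ∧
      (∀ μ, (∀ P ∈ 𝒬, FreeAt N δ μ P) → ∃ t : (Fin p → ℤ) → ℝ, (∀ a, 0 ≤ t a) ∧
        rc μ = ∑ a ∈ U, t a • rc a) ∧
      ∀ x, (∀ B ∈ vans g f δ 𝒬, x ∈ gcone g B) ↔ ∃ t : (Fin p → ℤ) → ℝ, (∀ a, 0 ≤ t a) ∧
        x = ∑ a ∈ U, t a • rc a := by
  classical
  obtain ⟨P0, hP0⟩ := hne
  obtain ⟨U, hU, hx⟩ := gcone_inter g (vans g f δ 𝒬) ⟨van g f δ P0, mem_vans.2 ⟨P0, hP0, rfl⟩⟩
  refine ⟨U, fun μ hμ P hP => (freeAt_van hgen (h𝒬 P hP)).2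
    (hU μ hμ _ (mem_vans.2 ⟨P, hP, rfl⟩)), fun μ hμ => (hx _).1 fun B hB => ?_, hx⟩
  obtain ⟨P, hP, rfl⟩ := mem_vans.1 hB
  obtain ⟨e, he⟩ := (freeAt_van hgen (h𝒬 P hP)).1 (hμ P hP)
  refine ⟨fun b => e b, fun b => Nat.cast_nonneg _, fun i => ?_⟩
  have h1 : μ i = ∑ b ∈ van g f δ P, (e b : ℤ) * g b i := by
    conv_lhs => rw [he]
    rw [Finset.sum_apply]
    exact Finset.sum_congr rfl fun b _ => by rw [Pi.smul_apply, nsmul_eq_mul]
  unfold rc
  rw [h1]
  push_cast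
  rfl

end

end Run7.h530.FI
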