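import Pool.Agent.Run7.h530.FI.MDefs
import Pool.Agent.Run7.h530.FI.Free
import Pool.Agent.Run7.h530.FI.Desc

/-!
There are only finitely many small modifications if the multigraded ring of sections is finitely
generated.
-/

set_option autoImplicit false
set_option linter.overlappingInstances false
set_option linter.unusedSectionVars false

open FF Pool.Agent.W602.GT Pool.Agent.Q57.FT Pool.Agent.Q57.CX Pool.Agent.Q57.HK
open Pool.Agent.Y167 (cone)

namespace Run7.h530.FI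

variable {p N : ℕ} {K : Type} [Field K] [Algebra ℂ K] {δ δ' δ'' : Fin p → Place ℂ K → ℚ}
  {𝒬 : Set (Place ℂ K)}

/-- the sections are the same -/
theorem IsSmallModification.section_iff (h𝒬 : ∀ P ∈ 𝒬, Divisorial N P)
    (hsec : ∀ (μ : Fin p → ℤ) (f : K),
      (∀ P ∈ 𝒬, f = 0 ∨ - ∑ i, (μ i : ℚ) * δ i P ≤ P.ord f) → IsSection N δ μ f)
    (h : IsSmallModification N 𝒬 δ δ') (μ : Fin p → ℤ) (f : K) :
    IsSection N δ' μ f ↔ IsSection N δ μ f := by
  have hs : ∀ P ∈ 𝒬, ∑ i, (μ i : ℚ) * δ' i P = ∑ i, (μ i : ℚ) * δ i P := fun P hP =>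
    Finset.sum_congr rfl fun i _ => by rw [h.strict i P hP]
  constructor
  · intro hf
    refine hsec μ f fun P hP => ?_
    rw [← hs P hP]
    exact hf P (h𝒬 P hP)
  · intro hf
    refine h.primes μ f fun P hP => ?_
    rw [hs P hP]
    exact hf P (h𝒬 P hP)

/-- the coefficients of a divisor without base points at `P` -/
theorem FreeAt.eq_of_sections {μ : Fin p → ℤ} {P : Place ℂ K} (hP : Divisorial N P)
    (hs : ∀ f, IsSection N δ' μ f ↔ IsSection N δ'' μ f) (h' : FreeAt N δ' μ P)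
    (h'' : FreeAt N δ'' μ P) : ∑ i, (μ i : ℚ) * δ' i P = ∑ i, (μ i : ℚ) * δ'' i P := by
  obtain ⟨f, hf0, hf, hf1⟩ := h'
  obtain ⟨g, hg0, hg, hg1⟩ := h''
  have h1 := (((hs f).1 hf) P hP).resolve_left hf0
  have h2 := (((hs g).2 hg) P hP).resolve_left hg0
  rw [hf1] at h1
  rw [hg1] at h2
  linarith

/-- a small modification is determined by the sets of generators which do not vanish -/
theorem IsSmallModification.eq_of_vans {N0 : ℕ} {g : Fin N0 → Fin p → ℤ} {f : Fin N0 → K}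
    (hgen : (∀ b, f b ≠ 0 ∧ ZSec N δ (g b) (f b)) ∧
      ∀ (μ : Fin p → ℤ) (η : K), η ≠ 0 → ZSec N δ μ η → ∀ P : Place ℂ K, Mnl g f P μ η)
    (h𝒬 : ∀ P ∈ 𝒬, Divisorial N P)
    (hsec : ∀ (μ : Fin p → ℤ) (f : K),
      (∀ P ∈ 𝒬, f = 0 ∨ - ∑ i, (μ i : ℚ) * δ i P ≤ P.ord f) → IsSection N δ μ f)
    (h' : IsSmallModification N 𝒬 δ δ') (h'' : IsSmallModification N 𝒬 δ δ'')
    (hv : vans g f δ' {P | Divisorial N P} = vans g f δ'' {P | Divisorial N P}) :
    ∀ i P, Divisorial N P → δ' i P = δ'' i P := by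
  classical
  have hg : ∀ {δ' : Fin p → Place ℂ K → ℚ}, IsSmallModification N 𝒬 δ δ' →
      (∀ b, f b ≠ 0 ∧ ZSec N δ' (g b) (f b)) ∧
      ∀ (μ : Fin p → ℤ) (η : K), η ≠ 0 → ZSec N δ' μ η → ∀ P : Place ℂ K, Mnl g f P μ η :=
    fun {δ'} h' => ⟨fun b => ⟨(hgen.1 b).1, (h'.section_iff h𝒬 hsec _ _).2 (hgen.1 b).2⟩,
      fun μ η hη0 hη => hgen.2 μ η hη0 ((h'.section_iff h𝒬 hsec _ _).1 hη)⟩
  -- the same divisors are base point free
  have hfree : ∀ μ, IsFree N δ' μ → IsFree N δ'' μ := by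
    intro μ hμ P hP
    have h1 : van g f δ'' P ∈ vans g f δ'' {P | Divisorial N P} := mem_vans.2 ⟨P, hP, rfl⟩
    rw [← hv] at h1
    obtain ⟨Q, hQ, hQP⟩ := mem_vans.1 h1
    rw [freeAt_van (hg h'') hP, ← hQP]
    exact (freeAt_van (hg h') hQ).1 (hμ Q hQ)
  have hs : ∀ μ f, IsSection N δ' μ f ↔ IsSection N δ'' μ f := fun μ f =>
    (h'.section_iff h𝒬 hsec μ f).trans (h''.section_iff h𝒬 hsec μ f).symm
  obtain ⟨μ0, hamp⟩ := h'.ample
  intro i P hP
  obtain ⟨k, j, hk, -, h0⟩ := hamp 0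
  rw [smul_zero, add_zero] at h0
  obtain ⟨k1, j1, hk1, hj1, h1⟩ := hamp (Pi.single i 1)
  have e0 := FreeAt.eq_of_sections hP (hs _) (h0 P hP) (hfree _ h0 P hP)
  have e1 := FreeAt.eq_of_sections hP (hs _) (h1 P hP) (hfree _ h1 P hP)
  have hA : ∑ i, (μ0 i : ℚ) * δ' i P = ∑ i, (μ0 i : ℚ) * δ'' i P := by
    have hk0 : (k : ℚ) ≠ 0 := by
      have : (0 : ℚ) < k := by exact_mod_cast hk
      exact this.ne'
    apply mul_left_cancel₀ hk0
    rw [Finset.mul_sum, Finset.mul_sum]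
    convert e0 using 2 <;> · simp only [Pi.smul_apply, nsmul_eq_mul]; push_cast; ring
  have hexp : ∀ ε : Fin p → Place ℂ K → ℚ,
      ∑ l, (((k1 • μ0 + j1 • (Pi.single i 1 : Fin p → ℤ)) l : ℤ) : ℚ) * ε l P =
        k1 * ∑ l, (μ0 l : ℚ) * ε l P + j1 * ε i P := by
    intro ε
    have h2 : ∀ l, (((k1 • μ0 + j1 • (Pi.single i 1 : Fin p → ℤ)) l : ℤ) : ℚ) * ε l P =
        k1 * ((μ0 l : ℚ) * ε l P) + j1 * (((Pi.single i 1 : Fin p → ℤ) l : ℤ) * ε l P) := by
      intro l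
      rw [Pi.add_apply, Pi.smul_apply, Pi.smul_apply, nsmul_eq_mul, nsmul_eq_mul]
      push_cast
      ring
    rw [Finset.sum_congr rfl fun l _ => h2 l, Finset.sum_add_distrib, ← Finset.mul_sum,
      ← Finset.mul_sum]
    congr 2
    rw [Finset.sum_eq_single i]
    · rw [Pi.single_eq_same]
      simp
    · intro l _ hl
      rw [Pi.single_eq_of_ne hl]
      simp
    · intro h
      exact absurd (Finset.mem_univ i) h
  rw [hexp, hexp, hA] at e1
  have hj0 : (j1 : ℚ) ≠ 0 := by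
    have : (0 : ℚ) < j1 := by exact_mod_cast hj1
    exact this.ne'
  exact mul_left_cancel₀ hj0 (add_left_cancel e1)

/-- the nef cone depends only on the coefficients at the prime divisors -/
theorem nefCone_congr (h : ∀ i P, Divisorial N P → δ' i P = δ'' i P) :
    nefCone N δ' = nefCone N δ'' := by
  have hs : ∀ (μ : Fin p → ℤ) (P : Place ℂ K), Divisorial N P →
      ∑ i, (μ i : ℚ) * δ' i P = ∑ i, (μ i : ℚ) * δ'' i P := fun μ P hP =>
    Finset.sum_congr rfl fun i _ => by rw [h i P hP]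
  have hsec : ∀ (μ : Fin p → ℤ) (f : K), IsSection N δ' μ f ↔ IsSection N δ'' μ f := by
    intro μ f
    unfold IsSection
    refine forall_congr' fun P => ?_
    constructor
    · intro h1 hP
      rw [← hs μ P hP]
      exact h1 hP
    · intro h1 hP
      rw [hs μ P hP]
      exact h1 hP
  have hfree : ∀ (μ : Fin p → ℤ) (P : Place ℂ K), Divisorial N P →
      (FreeAt N δ' μ P ↔ FreeAt N δ'' μ P) := by
    intro μ P hP
    unfold FreeAt
    rw [hs μ P hP]
    exact exists_congr fun f => and_congr_right fun _ => and_congr_left' (hsec μ f)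
  have hset : {z : Fin p → ℝ | ∃ μ, (∀ P ∈ {P : Place ℂ K | Divisorial N P}, FreeAt N δ' μ P) ∧
      z = rc μ} = {z : Fin p → ℝ | ∃ μ, (∀ P ∈ {P : Place ℂ K | Divisorial N P},
        FreeAt N δ'' μ P) ∧ z = rc μ} := by
    ext z
    exact exists_congr fun μ => and_congr_left' (forall_congr' fun P =>
      forall_congr' fun hP => hfree μ P hP)
  unfold nefCone freeCone
  rw [hset]

/-- **There are only finitely many small modifications.** -/
theorem finite_models (hfg : (coxRing N δ).FG) (h𝒬 : ∀ P ∈ 𝒬, Divisorial N P)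
    (hsec : ∀ (μ : Fin p → ℤ) (f : K),
      (∀ P ∈ 𝒬, f = 0 ∨ - ∑ i, (μ i : ℚ) * δ i P ≤ P.ord f) → IsSection N δ μ f) :
    (∃ 𝒟 : Finset (Fin p → Place ℂ K → ℚ), (∀ ε ∈ 𝒟, IsSmallModification N 𝒬 δ ε) ∧
      ∀ δ', IsSmallModification N 𝒬 δ δ' → ∃ ε ∈ 𝒟, ∀ i P, Divisorial N P → δ' i P = ε i P) ∧
    {C | ∃ δ', IsSmallModification N 𝒬 δ δ' ∧ C = nefCone N δ'}.Finite := by
  classical
  obtain ⟨N0, g, f, hgen⟩ := gens_of_fg hfg
  have h1 : ∃ 𝒟 : Finset (Fin p → Place ℂ K → ℚ), (∀ ε ∈ 𝒟, IsSmallModification N 𝒬 δ ε) ∧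
      ∀ δ', IsSmallModification N 𝒬 δ δ' → ∃ ε ∈ 𝒟, ∀ i P, Divisorial N P →
        δ' i P = ε i P := by
    -- one modification for each set of sets of generators
    have hch : ∀ F : {F : Finset (Finset (Fin N0)) // ∃ ε, IsSmallModification N 𝒬 δ ε ∧
        vans g f ε {P | Divisorial N P} = F}, ∃ ε, IsSmallModification N 𝒬 δ ε ∧
        vans g f ε {P | Divisorial N P} = F.1 := fun F => F.2
    choose c hc hcF using hch
    refine ⟨Finset.univ.image c, fun ε hε => ?_, fun δ' h' => ?_⟩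
    · obtain ⟨F, -, rfl⟩ := Finset.mem_image.1 hε
      exact hc F
    · let F : {F : Finset (Finset (Fin N0)) // ∃ ε, IsSmallModification N 𝒬 δ ε ∧
        vans g f ε {P | Divisorial N P} = F} :=
          ⟨vans g f δ' {P | Divisorial N P}, δ', h', rfl⟩
      exact ⟨c F, Finset.mem_image_of_mem c (Finset.mem_univ F),
        IsSmallModification.eq_of_vans hgen h𝒬 hsec h' (hc F) (hcF F).symm⟩
  refine ⟨h1, ?_⟩
  obtain ⟨𝒟, -, h𝒟⟩ := h1
  refine (𝒟.finite_toSet.image fun ε => nefCone N ε).subset ?_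
  rintro C ⟨δ', h', rfl⟩
  obtain ⟨ε, hε, hε'⟩ := h𝒟 δ' h'
  exact ⟨ε, hε, (nefCone_congr hε').symm⟩

end Run7.h530.FI
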