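import Pool.Agent.Run7.h530.FI.Conj

/-!
The cone conjecture for the nef cone and for the movable cone.
-/

set_option autoImplicit false
set_option linter.overlappingInstances false
set_option linter.unusedSectionVars false

open FF Pool.Agent.W602.GT Pool.Agent.Q57.FT Pool.Agent.Q57.CX Pool.Agent.Q57.HK
open Pool.Agent.Y167 (cone cone_sum cone_smul cone_add mem_cone_self cone_le cone_ind cone_mono
  zero_mem_cone)

namespace Run7.h530.FI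

variable {p N : ℕ} {K : Type} [Field K] [Algebra ℂ K] {δ : Fin p → Place ℂ K → ℚ}
  {𝒬 : Set (Place ℂ K)}

theorem permutes_all (φ : K ≃ₐ[ℂ] K) : Permutes φ {P : Place ℂ K | Divisorial N P} :=
  fun _ _ h => divisorial_pmap h

/-- there is nothing to prove in dimension zero -/
theorem conj_zero (h0 : p = 0) {𝒬 : Set (Place ℂ K)} {𝒮 : Subgroup (K ≃ₐ[ℂ] K)} :
    (∃ U : Finset (Fin p → ℝ), (∀ x ∈ U, ∃ μ : Fin p → ℤ, (∀ P ∈ 𝒬, FreeAt N δ μ P) ∧ x = rc μ) ∧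
      freeCone N δ 𝒬 = cone U) ∧ freeCone N δ 𝒬 ⊆ effCone N δ ∧
    HasFundDomain {T | ∃ φ ∈ 𝒮, IsPullBack δ 𝒬 φ T} (freeCone N δ 𝒬 ∩ effCone N δ) := by
  subst h0
  have hsub : ∀ x y : Fin 0 → ℝ, x = y := fun x y => funext fun i => i.elim0
  have huniv : ∀ {A : Set (Fin 0 → ℝ)}, (0 : Fin 0 → ℝ) ∈ A → A = Set.univ := by
    intro A hA
    refine Set.eq_univ_of_forall fun x => ?_
    rw [hsub x 0]
    exact hA
  have hcone : cone (∅ : Finset (Fin 0 → ℝ)) = Set.univ := huniv (zero_mem_cone _)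
  have h1 : freeCone N δ 𝒬 = Set.univ :=
    huniv (subset_closure ⟨∅, by simp, zero_mem_cone _⟩)
  have h2 : effCone N δ = Set.univ := huniv ⟨∅, by simp, zero_mem_cone _⟩
  refine ⟨⟨∅, fun x hx => absurd hx (Finset.notMem_empty x), by rw [h1, hcone]⟩,
    by rw [h2]; exact Set.subset_univ _, ∅, fun s hs => absurd hs (Finset.notMem_empty s), ?_,
    fun T _ hT => absurd (LinearEquiv.ext fun x => hsub _ _) hT⟩
  rw [h1, h2, Set.univ_inter]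
  refine (Set.eq_univ_of_forall fun x => ?_).symm
  simp only [Set.mem_iUnion]
  exact ⟨1, ⟨1, 𝒮.one_mem, pull_one⟩, x, by rw [hcone]; trivial, rfl⟩

/-- **The nef cone conjecture.** -/
theorem conj_nef (hfg : (coxRing N δ).FG)
    (hind : ∀ μ : Fin p → ℤ, IsEff N δ μ → IsEff N δ (-μ) → μ = 0)
    (hamp : ∃ μ0 : Fin p → ℤ, ∀ ν : Fin p → ℤ, ∃ k : ℕ, 1 ≤ k ∧
      ∀ P : Place ℂ K, Divisorial N P → FreeAt N δ (k • μ0 + ν) P)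
    {𝒮 : Subgroup (K ≃ₐ[ℂ] K)} (hT : ∀ φ ∈ 𝒮, ∃ T, IsPullBack δ {P | Divisorial N P} φ T) {M : ℕ}
    (hM : 1 ≤ M) (hint : ∀ φ ∈ 𝒮, ∀ T, IsPullBack δ {P | Divisorial N P} φ T → ∀ i j, ∃ a : ℤ,
      (M : ℝ) * T (Pi.single i 1) j = a) :
    (∃ U : Finset (Fin p → ℝ), (∀ x ∈ U, ∃ μ : Fin p → ℤ,
        (∀ P, Divisorial N P → FreeAt N δ μ P) ∧ x = rc μ) ∧ nefCone N δ = cone U) ∧
    nefCone N δ ⊆ effCone N δ ∧
    HasFundDomain {T | ∃ φ ∈ 𝒮, IsPullBack δ {P | Divisorial N P} φ T}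
      (nefCone N δ ∩ effCone N δ) := by
  by_cases hne : {P : Place ℂ K | Divisorial N P}.Nonempty
  · exact conj ⟨hfg, fun _ h => h, hne, fun μ f h P hP => h P hP, hind, hamp⟩
      (fun φ _ => permutes_all φ) hT hM hint
  · have h0 : p = 0 := by
      by_contra h0
      obtain ⟨i⟩ : Nonempty (Fin p) := ⟨⟨0, Nat.pos_of_ne_zero h0⟩⟩
      have h1 : ∀ μ : Fin p → ℤ, IsEff N δ μ := fun μ =>
        ⟨1, one_ne_zero, fun P hP => absurd ⟨P, hP⟩ hne⟩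
      have h2 := congrFun (hind (fun _ => 1) (h1 _) (h1 _)) i
      exact one_ne_zero h2
    exact conj_zero h0

/-- **The movable cone conjecture.** -/
theorem conj_mov (hfg : (coxRing N δ).FG)
    (hind : ∀ μ : Fin p → ℤ, IsEff N δ μ → IsEff N δ (-μ) → μ = 0)
    (hamp : ∃ μ0 : Fin p → ℤ, ∀ ν : Fin p → ℤ, ∃ k : ℕ, 1 ≤ k ∧
      ∀ P : Place ℂ K, Divisorial N P → FreeAt N δ (k • μ0 + ν) P)
    (h𝒬 : ∀ P ∈ 𝒬, Divisorial N P)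
    (hsec : ∀ (μ : Fin p → ℤ) (f : K),
      (∀ P ∈ 𝒬, f = 0 ∨ - ∑ i, (μ i : ℚ) * δ i P ≤ P.ord f) → IsSection N δ μ f)
    {𝒮 : Subgroup (K ≃ₐ[ℂ] K)} (h𝒮 : ∀ φ ∈ 𝒮, Permutes φ 𝒬)
    (hT : ∀ φ ∈ 𝒮, ∃ T, IsPullBack δ 𝒬 φ T) {M : ℕ}
    (hM : 1 ≤ M) (hint : ∀ φ ∈ 𝒮, ∀ T, IsPullBack δ 𝒬 φ T → ∀ i j, ∃ a : ℤ,
      (M : ℝ) * T (Pi.single i 1) j = a) :
    (∃ U : Finset (Fin p → ℝ), (∀ x ∈ U, ∃ μ : Fin p → ℤ,
        (∀ P ∈ 𝒬, FreeAt N δ μ P) ∧ x = rc μ) ∧ freeCone N δ 𝒬 = cone U) ∧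
    freeCone N δ 𝒬 ⊆ effCone N δ ∧
    HasFundDomain {T | ∃ φ ∈ 𝒮, IsPullBack δ 𝒬 φ T} (freeCone N δ 𝒬 ∩ effCone N δ) := by
  by_cases hne : 𝒬.Nonempty
  · obtain ⟨μ0, hamp⟩ := hamp
    exact conj ⟨hfg, h𝒬, hne, hsec, hind, μ0, fun ν => by
      obtain ⟨k, hk, h⟩ := hamp ν
      exact ⟨k, hk, fun P hP => h P (h𝒬 P hP)⟩⟩ h𝒮 hT hM hint
  · have h0 : p = 0 := by
      by_contra h0
      obtain ⟨i⟩ : Nonempty (Fin p) := ⟨⟨0, Nat.pos_of_ne_zero h0⟩⟩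
      have h1 : ∀ μ : Fin p → ℤ, IsEff N δ μ := fun μ =>
        ⟨1, one_ne_zero, hsec μ 1 fun P hP => absurd ⟨P, hP⟩ hne⟩
      have h2 := congrFun (hind (fun _ => 1) (h1 _) (h1 _)) i
      exact one_ne_zero h2
    exact conj_zero h0

end Run7.h530.FI
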