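import Pool.Agent.Run7.h530.FI.Main

/-!
Faces and rational hulls of rational polyhedral cones.
-/

set_option autoImplicit false

open Pool.Agent.Y167 (cone cone_sum cone_smul cone_add mem_cone_self cone_le cone_ind cone_mono
  zero_mem_cone)

namespace Run7.h530.FI

variable {p : ℕ}

/-- The convex cone generated by the rational (equivalently, by the integral) vectors in `C`. -/
def ratHull (C : Set (Fin p → ℝ)) : Set (Fin p → ℝ) :=
  coneOf {z | z ∈ C ∧ ∃ μ : Fin p → ℤ, z = rc μ}

/-- `F` is a face of the convex cone `C`. -/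
structure IsFace (F C : Set (Fin p → ℝ)) : Prop where
  sub : F ⊆ C
  zero : (0 : Fin p → ℝ) ∈ F
  add : ∀ x ∈ F, ∀ y ∈ F, x + y ∈ F
  smul : ∀ x ∈ F, ∀ t : ℝ, 0 ≤ t → t • x ∈ F
  ext : ∀ x ∈ C, ∀ y ∈ C, x + y ∈ F → x ∈ F

theorem ratHull_cone {U : Finset (Fin p → ℝ)} (hU : ∀ x ∈ U, ∃ μ : Fin p → ℤ, x = rc μ) :
    ratHull (cone U) = cone U := by
  apply Set.Subset.antisymm
  · rintro x ⟨S, hS, hx⟩
    exact cone_le (fun a ha => (hS ha).1) hx
  · intro x hx
    exact ⟨U, fun a ha => ⟨mem_cone_self ha, hU a ha⟩, hx⟩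

/-- **A cone with finitely many generators has finitely many faces.** -/
theorem finite_faces (U : Finset (Fin p → ℝ)) : {F | IsFace F (cone U)}.Finite := by
  classical
  refine ((U.powerset.finite_toSet).image fun T => cone T).subset ?_
  intro F hF
  refine ⟨U.filter (· ∈ F), Finset.mem_coe.2 (Finset.mem_powerset.2 (Finset.filter_subset _ _)), ?_⟩
  apply Set.Subset.antisymm
  · intro x hx
    refine cone_ind (p := fun x => x ∈ F) hF.zero (fun x y h1 h2 => hF.add x h1 y h2)
      (fun t x ht h1 => hF.smul x h1 t ht) (fun a ha => (Finset.mem_filter.1 ha).2) hx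
  · intro x hx
    obtain ⟨t, ht, hxt⟩ := hF.sub hx
    have h1 : ∀ a ∈ U, t a ≠ 0 → a ∈ F := by
      intro a ha hta
      have h2 : t a • a ∈ F := by
        refine hF.ext _ (cone_smul (mem_cone_self ha) (ht a)) (∑ b ∈ U.erase a, t b • b)
          (cone_sum _ _ fun b hb => cone_smul (mem_cone_self (Finset.mem_of_mem_erase hb))
            (ht b)) ?_
        rw [Finset.add_sum_erase U (fun b => t b • b) ha, ← hxt]
        exact hx
      have h3 := hF.smul _ h2 (t a)⁻¹ (inv_nonneg.2 (ht a))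
      rwa [smul_smul, inv_mul_cancel₀ hta, one_smul] at h3
    refine ⟨t, ht, ?_⟩
    rw [hxt]
    refine (Finset.sum_subset (Finset.filter_subset _ _) fun a ha hna => ?_).symm
    have h4 : t a = 0 := by
      by_contra h5
      exact hna (Finset.mem_filter.2 ⟨ha, h1 a ha h5⟩)
    rw [h4, zero_smul]

end Run7.h530.FI
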