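import Pool.Agent.Run7.h530.FI.CDefs

/-!
Definitions: ample and nef combinations of the divisors `D 1, ..., D p` on a normal projective variety.
-/

set_option autoImplicit false

open FF Pool.Agent.W602.GT

namespace Run7.h530.FI

section

variable {K : Type} [Field K] [Algebra ℂ K] {p : ℕ}

/-- The divisor `∑ i, μ i * D i` is base point free: for every prime divisor `P` over `X` some section
does not vanish at the centre of `P`. -/
def IsFree (N : ℕ) (δ : Fin p → Place ℂ K → ℚ) (μ : Fin p → ℤ) : Prop :=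
  ∀ P : Place ℂ K, Divisorial N P → FreeAt N δ μ P

/-- The divisor `A = ∑ i, μ0 i * D i` is ample (with respect to the combinations of the `D i`): for
every combination `E` some `k * A + E`, `k ≥ 1`, is base point free. -/
def IsAmple (N : ℕ) (δ : Fin p → Place ℂ K → ℚ) (μ0 : Fin p → ℤ) : Prop :=
  ∀ ν : Fin p → ℤ, ∃ k : ℕ, 1 ≤ k ∧ IsFree N δ (k • μ0 + ν)

/-- The divisor `L = ∑ i, μ i * D i` is nef, `A = ∑ i, μ0 i * D i` being ample: for every `j ≥ 1` some
multiple of `j * L + A` is base point free. -/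
def IsNef (N : ℕ) (δ : Fin p → Place ℂ K → ℚ) (μ0 μ : Fin p → ℤ) : Prop :=
  ∀ j : ℕ, 1 ≤ j → ∃ k : ℕ, 1 ≤ k ∧ IsFree N δ (k • (j • μ + μ0))

end

end Run7.h530.FI
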