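import Pool.Agent.Run7.h530.FI.Main
import Pool.Agent.Run7.h530.FI.NDefs

/-!
Nef divisors are semiample, with a uniform multiple, if the multigraded ring of sections is finitely
generated.
-/

set_option autoImplicit false
set_option linter.overlappingInstances false
set_option linter.unusedSectionVars false

open FF Pool.Agent.W602.GT Pool.Agent.Q57.FT Pool.Agent.Q57.CX Pool.Agent.Q57.HK
open Pool.Agent.Y167 (cone cone_sum cone_smul cone_add mem_cone_self cone_le cone_ind cone_mono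
  zero_mem_cone)

namespace Run7.h530.FI

variable {p N : ℕ} {K : Type} [Field K] [Algebra ℂ K] {δ : Fin p → Place ℂ K → ℚ}

/-- integral vectors in the real cone of integral vectors -/
theorem rat_mem (U : Finset (Fin p → ℤ)) {ρ : Fin p → ℤ} {t : (Fin p → ℤ) → ℝ}
    (ht : ∀ a, 0 ≤ t a) (h : rc ρ = ∑ a ∈ U, t a • rc a) :
    ∃ k : ℕ, 1 ≤ k ∧ ∃ e : (Fin p → ℤ) → ℕ, k • ρ = ∑ a ∈ U, e a • a := by
  classical
  obtain ⟨e, he, he0⟩ := int_relation (ι := Option U) (κ := Fin p)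
    (fun i a => a.elim (- ρ i) fun a => a.1 i) (t := fun a => a.elim 1 fun a => t a.1) (by
      intro a
      cases a with
      | none => exact zero_le_one
      | some a => exact ht _) (by
      intro i
      rw [Fintype.sum_option]
      have h1 := congrFun h i
      rw [Finset.sum_apply, ← Finset.sum_coe_sort U] at h1
      have h2 : ∑ a : U, t a.1 * ((a.1 i : ℤ) : ℝ) = ρ i := by
        refine Eq.trans (Finset.sum_congr rfl fun a _ => ?_) h1.symm
        rfl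
      change (1 : ℝ) * ((- ρ i : ℤ) : ℝ) + ∑ a : U, t a.1 * ((a.1 i : ℤ) : ℝ) = 0
      rw [h2]
      push_cast
      ring) (i0 := none) one_pos
  refine ⟨e none, he0, fun a => if h : a ∈ U then e (some ⟨a, h⟩) else 0, ?_⟩
  funext i
  have h1 := he i
  rw [Fintype.sum_option] at h1
  change (e none : ℤ) * (- ρ i) + ∑ a : U, (e (some a) : ℤ) * a.1 i = 0 at h1
  rw [Pi.smul_apply, nsmul_eq_mul, Finset.sum_apply, ← Finset.sum_coe_sort U]
  have h2 : ∑ a : U, ((if h : a.1 ∈ U then e (some ⟨a.1, h⟩) else 0) • a.1) i =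
      ∑ a : U, (e (some a) : ℤ) * a.1 i := by
    refine Finset.sum_congr rfl fun a _ => ?_
    rw [dif_pos a.2, Pi.smul_apply, nsmul_eq_mul]
  rw [h2]
  linarith

theorem prod_dvd_pos {ι : Type} (s : Finset ι) (k : ι → ℕ) (hk : ∀ i ∈ s, 1 ≤ k i) :
    1 ≤ ∏ i ∈ s, k i := Finset.one_le_prod' hk

/-- **Nef divisors are semiample.** -/
theorem nef_free (hfg : (coxRing N δ).FG)
    (hind : ∀ μ : Fin p → ℤ, IsEff N δ μ → IsEff N δ (-μ) → μ = 0) {μ0 : Fin p → ℤ}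
    (hamp : IsAmple N δ μ0) :
    (∃ k : ℕ, 1 ≤ k ∧ ∀ μ, IsNef N δ μ0 μ → IsFree N δ (k • μ)) ∧
    ∃ S : Finset (Fin p → ℝ), (∀ w ∈ S, ∃ μ : Fin p → ℤ, IsFree N δ μ ∧ w = rc μ) ∧
      nefCone N δ = cone S := by
  classical
  by_cases hne : {P : Place ℂ K | Divisorial N P}.Nonempty
  swap
  · have h0 : p = 0 := by
      by_contra h0
      obtain ⟨i⟩ : Nonempty (Fin p) := ⟨⟨0, Nat.pos_of_ne_zero h0⟩⟩
      have h1 : ∀ μ : Fin p → ℤ, IsEff N δ μ := fun μ =>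
        ⟨1, one_ne_zero, fun P hP => absurd ⟨P, hP⟩ hne⟩
      have h2 := congrFun (hind (fun _ => 1) (h1 _) (h1 _)) i
      exact one_ne_zero h2
    exact ⟨⟨1, le_refl _, fun μ _ P hP => absurd ⟨P, hP⟩ hne⟩,
      (conj_zero h0 (𝒬 := {P : Place ℂ K | Divisorial N P}) (𝒮 := ⊤)).1⟩
  obtain ⟨N0, g, f, hgen⟩ := gens_of_fg hfg
  obtain ⟨U, V, ξ, hVU, hU, hC, -, hmem, -, -, hy0, -, -⟩ :=
    cone_eq hgen (𝒬 := {P : Place ℂ K | Divisorial N P}) (fun _ h => h) hne hind (μ0 := μ0)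
      fun ν => by
        obtain ⟨k, hk, h⟩ := hamp ν
        exact ⟨k, hk, fun P hP => h P hP⟩
  have hV : V = U.image rc := by
    ext a
    rw [hVU, Finset.mem_image]
  have hcl : IsClosed (cone V) := by
    rw [← hC]
    exact isClosed_closure
  -- nef classes are in the cone
  have hnef : ∀ μ, IsNef N δ μ0 μ → rc μ ∈ cone V := by
    intro μ hμ
    have h1 : ∀ n : ℕ, rc μ + (1 / ((n : ℝ) + 1)) • rc μ0 ∈ cone V := by
      intro n
      obtain ⟨k, hk, h⟩ := hμ (n + 1) (Nat.le_add_left 1 n)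
      have h2 := hmem _ fun P hP => h P hP
      rw [rc_nsmul, rc_add, rc_nsmul] at h2
      have hk0 : (0 : ℝ) < k := by exact_mod_cast hk
      have hn0 : (0 : ℝ) < (n : ℝ) + 1 := by positivity
      have h3 : rc μ + (1 / ((n : ℝ) + 1)) • rc μ0 = (((n : ℝ) + 1)⁻¹ * (k : ℝ)⁻¹) •
          ((k : ℝ) • (((n + 1 : ℕ) : ℝ) • rc μ + rc μ0)) := by
        rw [smul_smul, mul_assoc, inv_mul_cancel₀ hk0.ne', mul_one, smul_add, smul_smul]
        push_cast
        rw [inv_mul_cancel₀ hn0.ne', one_smul, one_div]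
      rw [h3]
      exact cone_smul h2 (by positivity)
    refine hcl.mem_of_tendsto (b := Filter.atTop) ?_ (Filter.Eventually.of_forall h1)
    have h2 : Filter.Tendsto (fun n : ℕ => rc μ + (1 / ((n : ℝ) + 1)) • rc μ0) Filter.atTop
        (nhds (rc μ + (0 : ℝ) • rc μ0)) :=
      tendsto_const_nhds.add (tendsto_one_div_add_atTop_nhds_zero_nat.smul_const _)
    rwa [zero_smul, add_zero] at h2
  -- integral vectors in the cone have a multiple without base points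
  have hfree : ∀ (ρ : Fin p → ℤ), rc ρ ∈ cone V → ∃ k : ℕ, 1 ≤ k ∧ IsFree N δ (k • ρ) := by
    intro ρ hρ
    rw [hV, mem_cone_rc] at hρ
    obtain ⟨t, ht, h⟩ := hρ
    obtain ⟨k, hk, e, he⟩ := rat_mem U ht h
    refine ⟨k, hk, fun P hP => ?_⟩
    rw [he]
    exact FreeAt.sum _ fun a ha => (hU a ha P hP).nsmul _
  choose! k hk hkf using hfree
  -- the bounded vectors
  obtain ⟨B, hB⟩ : ∃ B : ℤ, B = ∑ a ∈ U, ∑ i, |a i| := ⟨_, rfl⟩
  obtain ⟨R, hR⟩ : ∃ R : Finset (Fin p → ℤ), R =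
      (Fintype.piFinset fun _ : Fin p => Finset.Icc (-B) B).filter fun ρ => rc ρ ∈ cone V :=
    ⟨_, rfl⟩
  have hRk : ∀ ρ ∈ R, 1 ≤ k ρ := by
    intro ρ hρ
    rw [hR] at hρ
    exact hk ρ (Finset.mem_filter.1 hρ).2
  refine ⟨⟨∏ ρ ∈ R, k ρ, prod_dvd_pos R k hRk, fun μ hμ P hP => ?_⟩, V, fun w hw => ?_, hC⟩
  · have h1 := hnef μ hμ
    rw [hV, mem_cone_rc] at h1
    obtain ⟨t, ht, h2⟩ := h1
    obtain ⟨ρ, hρ⟩ : ∃ ρ : Fin p → ℤ, ρ = μ - ∑ a ∈ U, ⌊t a⌋₊ • a := ⟨_, rfl⟩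
    have hρ1 : rc ρ = ∑ a ∈ U, (t a - ⌊t a⌋₊) • rc a := by
      have h3 : rc μ = rc ρ + ∑ a ∈ U, (⌊t a⌋₊ : ℝ) • rc a := by
        have h4 : μ = ρ + ∑ a ∈ U, ⌊t a⌋₊ • a := by rw [hρ, sub_add_cancel]
        conv_lhs => rw [h4]
        rw [rc_add]
        congr 1
        funext i
        rw [Finset.sum_apply]
        unfold rc
        rw [Finset.sum_apply, Int.cast_sum]
        refine Finset.sum_congr rfl fun a _ => ?_
        simp
      rw [h2] at h3
      have h5 : rc ρ = ∑ a ∈ U, t a • rc a - ∑ a ∈ U, (⌊t a⌋₊ : ℝ) • rc a := by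
        rw [h3, add_sub_cancel_right]
      rw [h5, ← Finset.sum_sub_distrib]
      exact Finset.sum_congr rfl fun a _ => (sub_smul _ _ _).symm
    have hfr : ∀ a, 0 ≤ t a - ⌊t a⌋₊ ∧ t a - ⌊t a⌋₊ ≤ 1 := by
      intro a
      have h3 := Nat.floor_le (ht a)
      have h4 := Nat.lt_floor_add_one (t a)
      constructor <;> linarith
    have hρR : ρ ∈ R := by
      rw [hR, Finset.mem_filter, Fintype.mem_piFinset]
      refine ⟨fun i => ?_, ?_⟩
      · have h3 : |(ρ i : ℝ)| ≤ (B : ℝ) := by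
          have h4 := congrFun hρ1 i
          have h5 : (ρ i : ℝ) = ∑ a ∈ U, (t a - ⌊t a⌋₊) * (a i : ℝ) := by
            rw [Finset.sum_apply] at h4
            exact h4
          rw [h5, hB]
          push_cast
          refine (Finset.abs_sum_le_sum_abs _ _).trans (Finset.sum_le_sum fun a _ => ?_)
          rw [abs_mul, abs_of_nonneg (hfr a).1]
          have h6 : |(a i : ℝ)| ≤ ∑ i, |(a i : ℝ)| :=
            Finset.single_le_sum (f := fun i => |(a i : ℝ)|) (fun i _ => abs_nonneg _)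
              (Finset.mem_univ i)
          calc (t a - ⌊t a⌋₊) * |(a i : ℝ)| ≤ 1 * |(a i : ℝ)| :=
                mul_le_mul_of_nonneg_right (hfr a).2 (abs_nonneg _)
            _ ≤ ∑ i, |(a i : ℝ)| := by rw [one_mul]; exact h6
        have h7 : |ρ i| ≤ B := by exact_mod_cast h3
        rw [Finset.mem_Icc]
        exact abs_le.1 h7
      · rw [hV, mem_cone_rc]
        exact ⟨fun a => t a - ⌊t a⌋₊, fun a => (hfr a).1, hρ1⟩
    have hρV : rc ρ ∈ cone V := by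
      rw [hR] at hρR
      exact (Finset.mem_filter.1 hρR).2
    have h3 : μ = ρ + ∑ a ∈ U, ⌊t a⌋₊ • a := by rw [hρ, sub_add_cancel]
    obtain ⟨c, hc⟩ := Finset.dvd_prod_of_mem k hρR
    have h4 : FreeAt N δ ((∏ ρ ∈ R, k ρ) • ρ) P := by
      rw [hc, mul_comm, mul_smul]
      exact (hkf ρ hρV P hP).nsmul c
    have h5 : FreeAt N δ ((∏ ρ ∈ R, k ρ) • ∑ a ∈ U, ⌊t a⌋₊ • a) P :=
      (FreeAt.sum _ fun a ha => (hU a ha P hP).nsmul _).nsmul _
    have h6 : (∏ ρ ∈ R, k ρ) • μ =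
        (∏ ρ ∈ R, k ρ) • ρ + (∏ ρ ∈ R, k ρ) • ∑ a ∈ U, ⌊t a⌋₊ • a := by
      conv_lhs => rw [h3]
      rw [smul_add]
    rw [h6]
    exact h4.add h5
  · obtain ⟨μ, hμ, rfl⟩ := (hVU w).1 hw
    exact ⟨μ, fun P hP => hU μ hμ P hP, rfl⟩

end Run7.h530.FI
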