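import Pool.Agent.Run7.h530.FI.Nef

/-!
Divisors which are pulled back from the target of the fibration defined by a semiample divisor.
-/

set_option autoImplicit false
set_option linter.overlappingInstances false
set_option linter.unusedSectionVars false

open FF Pool.Agent.W602.GT Pool.Agent.Q57.FT Pool.Agent.Q57.CX Pool.Agent.Q57.HK
open Pool.Agent.Y167 (cone)

namespace Run7.h530.FI

variable {p N : ℕ} {K : Type} [Field K] [Algebra ℂ K] {δ : Fin p → Place ℂ K → ℚ}

/-- `f` is a section of `∑ i, μ i * D i` which does not vanish at the centre of `P`. -/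
def IsSectionAt (N : ℕ) (δ : Fin p → Place ℂ K → ℚ) (μ : Fin p → ℤ) (P : Place ℂ K) (f : K) : Prop :=
  f ≠ 0 ∧ IsSection N δ μ f ∧ (P.ord f : ℚ) = - ∑ i, (μ i : ℚ) * δ i P

/-- Let `L = ∑ i, μ i * D i` be base point free and `g : X → B` the fibration defined by `L`: `B` is
`Proj` of the ring of sections of the multiples of `L`. The divisor `E = ∑ i, κ i * D i` is base point
free and the pull back of a Cartier divisor on `B`: for every prime divisor `P` over `X` there are
sections `s` of `L` and `e` of `E` which do not vanish at the centre of `P`, such that `e' / e = t / s`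
with a section `t` of `L` for all sections `e'` of `E`. So the quotients `e' / e` are regular functions
on the affine open set `s ≠ 0` of `B`, and `e` generates `E` on its preimage. -/
def IsFreePullBack (N : ℕ) (δ : Fin p → Place ℂ K → ℚ) (μ κ : Fin p → ℤ) : Prop :=
  IsFree N δ κ ∧ ∀ P : Place ℂ K, Divisorial N P → ∃ e s : K, IsSectionAt N δ κ P e ∧
    IsSectionAt N δ μ P s ∧ ∀ e' : K, IsSection N δ κ e' → ∃ t : K, IsSection N δ μ t ∧ e' / e = t / s

/-- **Fibrations defined by nef divisors.** -/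
theorem nef_fibration (hfg : (coxRing N δ).FG)
    (hind : ∀ μ : Fin p → ℤ, IsEff N δ μ → IsEff N δ (-μ) → μ = 0) {μ0 : Fin p → ℤ}
    (hamp : IsAmple N δ μ0) : ∃ k : ℕ, 1 ≤ k ∧ ∀ (μ κ : Fin p → ℤ) (j : ℕ), 1 ≤ j →
      IsNef N δ μ0 κ → IsNef N δ μ0 (j • μ - κ) →
        IsFree N δ ((k * j) • μ) ∧ IsFreePullBack N δ ((k * j) • μ) (k • κ) := by
  obtain ⟨⟨k, hk, hfree⟩, -⟩ := nef_free hfg hind hamp
  refine ⟨k, hk, fun μ κ j _ hκ hμκ => ?_⟩
  have h1 := hfree κ hκ
  have h2 := hfree _ hμκ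
  have h3 : (k * j) • μ = k • κ + k • (j • μ - κ) := by
    rw [← smul_add, add_sub_cancel, smul_smul]
  have h4 : IsFree N δ ((k * j) • μ) := by
    rw [h3]
    exact fun P hP => (h1 P hP).add (h2 P hP)
  refine ⟨h4, h1, fun P hP => ?_⟩
  obtain ⟨e, he0, he, he1⟩ := h1 P hP
  obtain ⟨m, hm0, hm, hm1⟩ := h2 P hP
  have hval : ∑ i, (((k • κ + k • (j • μ - κ)) i : ℤ) : ℚ) * δ i P =
      ∑ i, (((k • κ) i : ℤ) : ℚ) * δ i P + ∑ i, (((k • (j • μ - κ)) i : ℤ) : ℚ) * δ i P := by
    rw [← Finset.sum_add_distrib]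
    refine Finset.sum_congr rfl fun i _ => ?_
    rw [Pi.add_apply, Int.cast_add, add_mul]
  refine ⟨e, e * m, ⟨he0, he, he1⟩, ⟨mul_ne_zero he0 hm0, ?_, ?_⟩, fun e' he' => ⟨e' * m, ?_, ?_⟩⟩
  · rw [h3]
    exact zsec_mul he hm
  · rw [h3, hval, P.ord_mul he0 hm0]
    push_cast
    rw [he1, hm1]
    ring
  · rw [h3]
    exact zsec_mul he' hm
  · rw [mul_div_mul_right _ _ hm0]

end Run7.h530.FI
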