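import Pool.Agent.Run7.h530.FI.Conv
import Pool.Agent.Run7.h334.CQ.Geo

/-!
Fundamental domains on full-dimensional strictly convex rational polyhedral cones.
-/

set_option autoImplicit false
set_option linter.unusedSectionVars false

namespace Run7.h530.FI

open Pool.Agent.Y167

section

variable {p : ℕ}

theorem pi_sum (d : Fin p → ℝ) : d = ∑ i, d i • (Pi.single i 1 : Fin p → ℝ) := by
  classical
  funext j
  rw [Finset.sum_apply, Finset.sum_eq_single j]
  · rw [Pi.smul_apply, Pi.single_eq_same, smul_eq_mul, mul_one]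
  · intro i _ hij
    rw [Pi.smul_apply, Pi.single_eq_of_ne hij.symm, smul_zero]
  · intro h
    exact absurd (Finset.mem_univ j) h

theorem near {V : Finset (Fin p → ℝ)} {y0 : Fin p → ℝ} (hy : y0 ∈ cone V)
    (h : ∀ i, ∃ k : ℕ, (k : ℝ) • y0 + Pi.single i 1 ∈ cone V)
    (h' : ∀ i, ∃ k : ℕ, (k : ℝ) • y0 - Pi.single i 1 ∈ cone V) :
    ∃ ε : ℝ, 0 < ε ∧ ∀ d : Fin p → ℝ, (∀ i, |d i| ≤ ε) → y0 + d ∈ cone V := by
  classical
  choose kp hkp using h
  choose km hkm using h'
  obtain ⟨K, hK⟩ : ∃ K : ℝ, K = ∑ i, ((kp i : ℝ) + km i) + 1 := ⟨_, rfl⟩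
  have hK0 : 0 < K := by
    rw [hK]
    have : 0 ≤ ∑ i, ((kp i : ℝ) + km i) := Finset.sum_nonneg fun i _ => by positivity
    linarith
  refine ⟨K⁻¹, inv_pos.2 hK0, fun d hd => ?_⟩
  obtain ⟨k, hk⟩ : ∃ k : Fin p → ℝ, k = fun i => if 0 ≤ d i then (kp i : ℝ) else km i := ⟨_, rfl⟩
  have hk0 : ∀ i, 0 ≤ k i ∧ k i ≤ (kp i : ℝ) + km i := by
    intro i
    rw [hk]
    beta_reduce
    split_ifs
    · exact ⟨by positivity, le_add_of_nonneg_right (by positivity)⟩
    · exact ⟨by positivity, le_add_of_nonneg_left (by positivity)⟩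
  have h1 : ∀ i, (|d i| * k i) • y0 + d i • (Pi.single i 1 : Fin p → ℝ) ∈ cone V := by
    intro i
    by_cases h0 : 0 ≤ d i
    · have h2 : (|d i| * k i) • y0 + d i • (Pi.single i 1 : Fin p → ℝ) =
          d i • ((kp i : ℝ) • y0 + Pi.single i 1) := by
        rw [hk]
        beta_reduce
        rw [if_pos h0, abs_of_nonneg h0, smul_add, smul_smul]
      rw [h2]
      exact cone_smul (hkp i) h0
    · have h2 : (|d i| * k i) • y0 + d i • (Pi.single i 1 : Fin p → ℝ) =
          (- d i) • ((km i : ℝ) • y0 - Pi.single i 1) := by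
        rw [hk]
        beta_reduce
        rw [if_neg h0, abs_of_neg (not_le.1 h0), smul_sub, smul_smul, neg_smul (d i), sub_neg_eq_add]
      rw [h2]
      exact cone_smul (hkm i) (by linarith)
  have h2 : y0 + d = (1 - ∑ i, |d i| * k i) • y0 +
      ∑ i, ((|d i| * k i) • y0 + d i • (Pi.single i 1 : Fin p → ℝ)) := by
    rw [Finset.sum_add_distrib, ← Finset.sum_smul, ← pi_sum d, sub_smul, one_smul]
    abel
  rw [h2]
  refine cone_add (cone_smul hy ?_) (cone_sum _ _ fun i _ => h1 i)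
  have h3 : ∑ i, |d i| * k i ≤ ∑ i, K⁻¹ * ((kp i : ℝ) + km i) := by
    refine Finset.sum_le_sum fun i _ => ?_
    exact mul_le_mul (hd i) (hk0 i).2 (hk0 i).1 (inv_pos.2 hK0).le
  rw [← Finset.mul_sum] at h3
  have h4 : K⁻¹ * ∑ i, ((kp i : ℝ) + km i) ≤ 1 := by
    have h5 : ∑ i, ((kp i : ℝ) + km i) ≤ K := by rw [hK]; linarith
    calc K⁻¹ * ∑ i, ((kp i : ℝ) + km i) ≤ K⁻¹ * K :=
          mul_le_mul_of_nonneg_left h5 (inv_pos.2 hK0).le
      _ = 1 := inv_mul_cancel₀ hK0.ne'
  linarith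

theorem cone_ne (V : Finset (Fin p → ℝ)) [DecidablePred fun a : Fin p → ℝ => a ≠ 0]
    {x : Fin p → ℝ} (hx : x ∈ cone V) : x ∈ cone (V.filter fun a => a ≠ 0) := by
  obtain ⟨c, hc, rfl⟩ := hx
  refine ⟨c, hc, ?_⟩
  rw [Finset.sum_filter]
  refine Finset.sum_congr rfl fun a _ => ?_
  split_ifs with h
  · rfl
  · rw [not_not.1 h, smul_zero]

theorem closed_cone {V : Finset (Fin p → ℝ)} (ξ : (Fin p → ℝ) →ₗ[ℝ] ℝ)
    (hξ : ∀ a ∈ V, a ≠ 0 → 0 < ξ a) {y0 : Fin p → ℝ}
    (hnear : ∃ ε : ℝ, 0 < ε ∧ ∀ d : Fin p → ℝ, (∀ i, |d i| ≤ ε) → y0 + d ∈ cone V) :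
    IsClosed (cone V) := by
  classical
  obtain ⟨ε, hε, hd⟩ := hnear
  have hint : y0 ∈ interior (cone V) := by
    rw [mem_interior_iff_mem_nhds]
    refine Filter.mem_of_superset (Metric.ball_mem_nhds y0 hε) fun x hx => ?_
    have h1 : x = y0 + (x - y0) := by abel
    rw [h1]
    refine hd _ fun i => ?_
    have h2 : ‖(x - y0) i‖ ≤ ‖x - y0‖ := norm_le_pi_norm _ i
    rw [Real.norm_eq_abs] at h2
    rw [Metric.mem_ball, dist_eq_norm] at hx
    linarith
  have hconv : Convex ℝ (cone V) := fun x hx y hy a b ha hb _ =>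
    cone_add (cone_smul hx ha) (cone_smul hy hb)
  refine isClosed_of_closure_subset fun x hx => ?_
  have h1 : ∀ n : ℕ, x + (1 / ((n : ℝ) + 1)) • (y0 - x) ∈ cone (V.filter fun a => a ≠ 0) := by
    intro n
    have hn : (0 : ℝ) < (n : ℝ) + 1 := by positivity
    refine cone_ne V (interior_subset (hconv.add_smul_sub_mem_interior' hx hint ⟨by positivity, ?_⟩))
    rw [div_le_one hn]
    linarith [(Nat.cast_nonneg n : (0 : ℝ) ≤ n)]
  have h2 := cone_closed ξ (fun a ha => hξ a (Finset.mem_filter.1 ha).1 (Finset.mem_filter.1 ha).2)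
    tendsto_one_div_add_atTop_nhds_zero_nat h1
  exact cone_mono (Finset.filter_subset _ _) h2

/-- a lattice which is stable under the group -/
def latt (𝒢 : Subgroup ((Fin p → ℝ) ≃ₗ[ℝ] (Fin p → ℝ))) (M : ℕ) : AddSubgroup (Fin p → ℝ) where
  carrier := {x | ∀ T ∈ 𝒢, (M : ℝ) • T x ∈ intL (Fin p)}
  zero_mem' := fun T _ => by rw [map_zero, smul_zero]; exact (intL _).zero_mem
  add_mem' := fun {x y} hx hy T hT => by
    rw [map_add, smul_add]
    exact (intL _).add_mem (hx T hT) (hy T hT)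
  neg_mem' := fun {x} hx T hT => by
    rw [map_neg, smul_neg]
    exact (intL _).neg_mem (hx T hT)

theorem sum_intL {ι : Type} (s : Finset ι) (f : ι → Fin p → ℝ) (h : ∀ i ∈ s, f i ∈ intL (Fin p)) :
    ∑ i ∈ s, f i ∈ intL (Fin p) := (intL _).sum_mem h

/-- **Fundamental domains.** -/
theorem fund_dat {V : Finset (Fin p → ℝ)} (ξ : (Fin p → ℝ) →ₗ[ℝ] ℝ)
    (hξ : ∀ a ∈ V, a ≠ 0 → 0 < ξ a) (hξZ : ∀ x ∈ intL (Fin p), ∃ n : ℤ, ξ x = n)
    (hV : ∀ a ∈ V, a ∈ intL (Fin p)) {y0 : Fin p → ℝ} (hy0Z : y0 ∈ intL (Fin p))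
    (hy0 : y0 ∈ cone V) (h : ∀ i, ∃ k : ℕ, (k : ℝ) • y0 + Pi.single i 1 ∈ cone V)
    (h' : ∀ i, ∃ k : ℕ, (k : ℝ) • y0 - Pi.single i 1 ∈ cone V)
    (𝒢 : Subgroup ((Fin p → ℝ) ≃ₗ[ℝ] (Fin p → ℝ))) {M : ℕ} (hM : 1 ≤ M)
    (hint : ∀ T ∈ 𝒢, ∀ i, (M : ℝ) • T (Pi.single i 1) ∈ intL (Fin p))
    (hpres : ∀ T ∈ 𝒢, ∀ x ∈ cone V, T x ∈ cone V) :
    HasFundDomain (𝒢 : Set ((Fin p → ℝ) ≃ₗ[ℝ] (Fin p → ℝ))) (cone V) := by
  classical
  obtain ⟨ε, hε, hnear⟩ := near hy0 h h'
  have hM0 : (0 : ℝ) < M := by exact_mod_cast hM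
  have hM1 : (1 : ℝ) ≤ M := by exact_mod_cast hM
  -- the lattice
  have hintL : ∀ x ∈ intL (Fin p), x ∈ latt 𝒢 M := by
    intro x hx T hT
    rw [pi_sum x, map_sum, Finset.smul_sum]
    refine sum_intL _ _ fun i _ => ?_
    obtain ⟨a, ha⟩ := hx i
    rw [map_smul, smul_comm, ha, Int.cast_smul_eq_zsmul]
    exact (intL _).zsmul_mem (hint T hT i) a
  have hLint : ∀ x ∈ latt 𝒢 M, (M : ℝ) • x ∈ intL (Fin p) := fun x hx => hx 1 𝒢.one_mem
  have hLst : ∀ T ∈ 𝒢, ∀ x ∈ latt 𝒢 M, T x ∈ latt 𝒢 M :=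
    fun T hT x hx T' hT' => hx (T' * T) (𝒢.mul_mem hT' hT)
  -- the generators
  obtain ⟨V0, hV0⟩ : ∃ V0 : Finset (Fin p → ℝ), V0 = V.filter fun a => a ≠ 0 := ⟨_, rfl⟩
  have hV0p : ∀ a ∈ V0, 1 ≤ ξ a := by
    intro a ha
    rw [hV0] at ha
    have h1 := hξ a (Finset.mem_filter.1 ha).1 (Finset.mem_filter.1 ha).2
    obtain ⟨n, hn⟩ := hξZ a (hV a (Finset.mem_filter.1 ha).1)
    rw [hn] at h1 ⊢
    have h2 : 0 < n := by exact_mod_cast h1
    exact_mod_cast h2
  have hrep : ∀ x ∈ cone V, ∃ c : (Fin p → ℝ) → ℝ, (∀ a, 0 ≤ c a) ∧ x = ∑ a ∈ V0, c a • a := by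
    intro x hx
    rw [hV0]
    exact cone_ne V hx
  have hxi : ∀ (c : (Fin p → ℝ) → ℝ), (∀ a, 0 ≤ c a) → ∑ a ∈ V0, c a ≤
      ξ (∑ a ∈ V0, c a • a) := by
    intro c hc
    rw [map_sum]
    refine Finset.sum_le_sum fun a ha => ?_
    rw [map_smul, smul_eq_mul]
    exact le_mul_of_one_le_right (hc a) (hV0p a ha)
  have hxi0 : ∀ x ∈ cone V, 0 ≤ ξ x := by
    intro x hx
    obtain ⟨c, hc, rfl⟩ := hrep x hx
    exact (Finset.sum_nonneg fun a _ => hc a).trans (hxi c hc)
  choose kp hkp using h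
  have D : CData (latt 𝒢 M) (cone V) ((M : ℝ) • ξ) y0
      (insert y0 (Finset.univ.image fun i => (kp i : ℝ) • y0 + Pi.single i 1)) :=
    { add := fun x hx y hy => cone_add hx hy
      smul := fun t ht x hx => cone_smul hx ht
      xi_int := fun x hx => by
        obtain ⟨n, hn⟩ := hξZ _ (hLint x hx)
        refine ⟨n, ?_⟩
        rw [LinearMap.smul_apply, smul_eq_mul, ← hn, map_smul, smul_eq_mul]
      xi_pos := fun x hx hx0 => by
        obtain ⟨c, hc, rfl⟩ := hrep x hx
        have h1 : ∃ a ∈ V0, 0 < c a := by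
          by_contra hcon
          push Not at hcon
          apply hx0
          refine Finset.sum_eq_zero fun a ha => ?_
          rw [le_antisymm (hcon a ha) (hc a), zero_smul]
        obtain ⟨a, ha, hca⟩ := h1
        have h2 : c a ≤ ∑ a ∈ V0, c a :=
          Finset.single_le_sum (fun b _ => hc b) ha
        have h3 := hxi c hc
        rw [LinearMap.smul_apply, smul_eq_mul]
        exact mul_pos hM0 (by linarith)
      fin := fun C => by
        obtain ⟨B, hB⟩ : ∃ B : ℝ, B = ∑ i, ∑ a ∈ V0, |a i| := ⟨_, rfl⟩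
        obtain ⟨R, hR⟩ : ∃ R : ℤ, R = ⌈(M : ℝ) * (|C| * B)⌉ := ⟨_, rfl⟩
        refine ((Fintype.piFinset fun _ : Fin p => Finset.Icc (-R) R).finite_toSet.image
          fun z i => (M : ℝ)⁻¹ * (z i : ℝ)).subset ?_
        rintro x ⟨hxL, hxV, hxC⟩
        choose z hz using hLint x hxL
        refine ⟨z, ?_, ?_⟩
        · rw [Finset.mem_coe, Fintype.mem_piFinset]
          intro i
          obtain ⟨c, hc, hxc⟩ := hrep x hxV
          have h1 : ∑ a ∈ V0, c a ≤ |C| := by
            have h2 := hxi c hc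
            rw [← hxc] at h2
            have h3 := hxi0 x hxV
            rw [LinearMap.smul_apply, smul_eq_mul] at hxC
            have h4 : ξ x ≤ M * ξ x := le_mul_of_one_le_left h3 hM1
            exact (h2.trans h4).trans (hxC.trans (le_abs_self C))
          have h2 : |x i| ≤ |C| * B := by
            rw [hxc, Finset.sum_apply]
            refine (Finset.abs_sum_le_sum_abs _ _).trans ?_
            have h3 : ∀ a ∈ V0, |(c a • a) i| ≤ |C| * |a i| := by
              intro a ha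
              rw [Pi.smul_apply, smul_eq_mul, abs_mul, abs_of_nonneg (hc a)]
              refine mul_le_mul_of_nonneg_right ?_ (abs_nonneg _)
              exact (Finset.single_le_sum (fun b _ => hc b) ha).trans h1
            refine (Finset.sum_le_sum h3).trans ?_
            rw [← Finset.mul_sum, hB]
            refine mul_le_mul_of_nonneg_left ?_ (abs_nonneg _)
            exact Finset.single_le_sum (f := fun i => ∑ a ∈ V0, |a i|)
              (fun i _ => Finset.sum_nonneg fun a _ => abs_nonneg _) (Finset.mem_univ i)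
          have h3 : |(z i : ℝ)| ≤ M * (|C| * B) := by
            rw [← hz i, Pi.smul_apply, smul_eq_mul, abs_mul, abs_of_pos hM0]
            exact mul_le_mul_of_nonneg_left h2 hM0.le
          have h4 : |(z i : ℝ)| ≤ (R : ℝ) := h3.trans (by rw [hR]; exact Int.le_ceil _)
          have h5 : |z i| ≤ R := by exact_mod_cast h4
          rw [Finset.mem_Icc]
          exact abs_le.1 h5
        · funext i
          change (M : ℝ)⁻¹ * (z i : ℝ) = x i
          rw [← hz i, Pi.smul_apply, smul_eq_mul, inv_mul_cancel_left₀ hM0.ne']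
      y_L := hintL _ hy0Z
      y_N := hy0
      y_int := fun x => by
        obtain ⟨C, hC⟩ : ∃ C : ℝ, C = ∑ i, |x i| / ε + 1 := ⟨_, rfl⟩
        have hC0 : 0 < C := by
          rw [hC]
          have : 0 ≤ ∑ i, |x i| / ε := Finset.sum_nonneg fun i _ => by positivity
          linarith
        refine ⟨C, hC0, ?_⟩
        have h1 : C • y0 - x = C • (y0 + fun i => - (x i / C)) := by
          funext i
          simp only [Pi.sub_apply, Pi.smul_apply, Pi.add_apply, smul_eq_mul]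
          field_simp
          ring
        rw [h1]
        refine cone_smul (hnear _ fun i => ?_) hC0.le
        rw [abs_neg, abs_div, abs_of_pos hC0, div_le_iff₀ hC0]
        have h2 : |x i| / ε ≤ C := by
          have h3 : |x i| / ε ≤ ∑ i, |x i| / ε :=
            Finset.single_le_sum (f := fun i => |x i| / ε) (fun i _ => by positivity)
              (Finset.mem_univ i)
          rw [hC]
          linarith
        rw [div_le_iff₀ hε] at h2
        linarith
      dom := fun η => by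
        refine ⟨∑ a ∈ V0, |η a|, fun x hx => ?_⟩
        obtain ⟨c, hc, hxc⟩ := hrep x hx
        have h1 : |η x| ≤ (∑ a ∈ V0, |η a|) * ξ x := by
          rw [hxc, map_sum, map_sum, Finset.mul_sum]
          refine (Finset.abs_sum_le_sum_abs _ _).trans (Finset.sum_le_sum fun a ha => ?_)
          rw [map_smul, map_smul, smul_eq_mul, smul_eq_mul, abs_mul, abs_of_nonneg (hc a)]
          have h2 : |η a| ≤ ∑ a ∈ V0, |η a| :=
            Finset.single_le_sum (f := fun a => |η a|) (fun b _ => abs_nonneg _) ha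
          have h3 : c a * |η a| ≤ c a * ∑ a ∈ V0, |η a| := mul_le_mul_of_nonneg_left h2 (hc a)
          have h4 : c a * ∑ a ∈ V0, |η a| ≤ (c a * ∑ a ∈ V0, |η a|) * ξ a :=
            le_mul_of_one_le_right (mul_nonneg (hc a)
              (Finset.sum_nonneg fun b _ => abs_nonneg _)) (hV0p a ha)
          have h5 : (c a * ∑ a ∈ V0, |η a|) * ξ a = (∑ a ∈ V0, |η a|) * (c a * ξ a) := by ring
          linarith
        refine h1.trans (mul_le_mul_of_nonneg_left ?_ (Finset.sum_nonneg fun b _ => abs_nonneg _))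
        rw [LinearMap.smul_apply, smul_eq_mul]
        exact le_mul_of_one_le_left (hxi0 x hx) hM1
      sep := fun x hx => by
        obtain ⟨i, hi⟩ : ∃ i, x i ≠ 0 := by
          by_contra hcon
          push Not at hcon
          exact hx (funext hcon)
        refine ⟨(M : ℝ) • LinearMap.proj i, fun y hy => ?_, ?_⟩
        · obtain ⟨n, hn⟩ := hLint y hy i
          exact ⟨n, by rw [LinearMap.smul_apply, LinearMap.proj_apply]; exact hn⟩
        · rw [LinearMap.smul_apply, LinearMap.proj_apply, smul_eq_mul]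
          exact mul_ne_zero hM0.ne' hi
      Y_mem := by
        intro y hy
        rcases Finset.mem_insert.1 hy with rfl | hy
        · exact ⟨hintL _ hy0Z, hy0⟩
        · obtain ⟨i, -, rfl⟩ := Finset.mem_image.1 hy
          refine ⟨hintL _ ((intL _).add_mem ?_ ?_), hkp i⟩
          · rw [Nat.cast_smul_eq_nsmul]
            exact (intL _).nsmul_mem hy0Z _
          · intro j
            rcases eq_or_ne j i with h1 | h1
            · exact ⟨1, by rw [h1, Pi.single_eq_same]; push_cast; rfl⟩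
            · exact ⟨0, by rw [Pi.single_eq_of_ne h1]; push_cast; rfl⟩
      Y_span := by
        intro φ hφ
        have h0 := hφ y0 (Finset.mem_insert_self _ _)
        apply LinearMap.ext
        intro x
        rw [pi_sum x, map_sum, LinearMap.zero_apply]
        refine Finset.sum_eq_zero fun i _ => ?_
        have h1 := hφ _ (Finset.mem_insert_of_mem (Finset.mem_image_of_mem _ (Finset.mem_univ i)))
        rw [map_add, map_smul, h0, smul_zero, zero_add] at h1
        rw [map_smul, h1, smul_zero] }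
  have huniv : cone V ∩ Set.univ = cone V := Set.inter_univ _
  have hfd : Run7.h334.CQ.FD (latt 𝒢 M) (cone V ∩ Set.univ)
      (𝒢 : Set ((Fin p → ℝ) ≃ₗ[ℝ] (Fin p → ℝ))) := by
    refine Run7.h334.CQ.fund_of_cov (C := cone V) (E := Set.univ) (ξ := (M : ℝ) • ξ) (y₀ := y0)
      (by rw [huniv]; exact D) 𝒢 hLst ?_ (F := V) ?_ ?_ ?_
    · intro T hT x hx
      exact ⟨hpres T hT x hx.1, trivial⟩
    · intro a ha
      exact ⟨hintL a (hV a ha), mem_cone_self ha, trivial⟩
    · rintro x ⟨t, ht, hx⟩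
      refine ⟨1, 𝒢.one_mem, ?_⟩
      have h1 : x = (x - t • y0) + t • y0 := by abel
      change x ∈ cone V
      rw [h1]
      exact cone_add hx.1 (cone_smul hy0 ht.le)
    · intro x hx
      exact ⟨V, fun a ha => ⟨hintL a (hV a ha), mem_cone_self ha, trivial⟩, hx.1⟩
  rw [huniv] at hfd
  obtain ⟨S, hSL, hS1, hS2⟩ := hfd
  -- integral generators
  have hSc : cone (S.image fun a => (M : ℝ) • a) = cone S := by
    ext x
    constructor
    · refine cone_le fun a ha => ?_
      obtain ⟨b, hb, rfl⟩ := Finset.mem_image.1 ha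
      exact cone_smul (mem_cone_self hb) hM0.le
    · refine cone_le fun a ha => ?_
      have h1 : a = (M : ℝ)⁻¹ • ((M : ℝ) • a) := by
        rw [smul_smul, inv_mul_cancel₀ hM0.ne', one_smul]
      rw [h1]
      exact cone_smul (mem_cone_self (Finset.mem_image_of_mem _ ha)) (inv_pos.2 hM0).le
  refine ⟨S.image fun a => (M : ℝ) • a, fun s hs => ?_, ?_, ?_⟩
  · obtain ⟨a, ha, rfl⟩ := Finset.mem_image.1 hs
    exact hLint a (hSL a ha)
  · rw [hSc, hS1]
    ext x
    simp only [Set.mem_iUnion]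
    constructor
    · rintro ⟨T, hT, y, hy, rfl⟩
      exact ⟨T, hT, y, hy, rfl⟩
    · rintro ⟨T, hT, y, hy, rfl⟩
      exact ⟨T, hT, y, hy, rfl⟩
  · intro T hT hT1
    rw [hSc, Set.eq_empty_iff_forall_notMem]
    rintro x ⟨hx1, hx2⟩
    have h1 := hS2 T hT hT1
    rw [Set.eq_empty_iff_forall_notMem] at h1
    refine h1 x ⟨hx1, ?_⟩
    have h2 : T '' interior (cone S) = interior (T '' cone S) :=
      T.toContinuousLinearEquiv.toHomeomorph.image_interior (cone S)
    rw [← h2]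
    exact hx2

end

end Run7.h530.FI
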