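import Pool.Agent.Run7.h530.FI.Free
import Pool.Agent.Run7.h530.FI.Fund
import Pool.Agent.Run7.h530.FI.Desc

/-!
The cone conjecture for divisors whose multigraded ring of sections is finitely generated.
-/

set_option autoImplicit false
set_option linter.overlappingInstances false
set_option linter.unusedSectionVars false

open FF Pool.Agent.W602.GT Pool.Agent.Q57.FT Pool.Agent.Q57.CX Pool.Agent.Q57.HK
open Pool.Agent.Y167 (cone cone_sum cone_smul cone_add mem_cone_self cone_le cone_ind cone_mono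
  zero_mem_cone)

namespace Run7.h530.FI

section place

variable {p N : ℕ} {K : Type} [Field K] [Algebra ℂ K] {δ : Fin p → Place ℂ K → ℚ}

/-- the image of a place under an automorphism -/
def pmap (φ : K ≃ₐ[ℂ] K) (Q : Place ℂ K) : Place ℂ K where
  ord g := Q.ord (φ g)
  ord_zero := by rw [map_zero, Q.ord_zero]
  ord_mul := fun {f g} hf hg => by
    rw [map_mul, Q.ord_mul (by rwa [Ne, map_eq_zero]) (by rwa [Ne, map_eq_zero])]
  ord_add := fun {f g} hf hg hfg => by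
    rw [map_add]
    exact Q.ord_add (by rwa [Ne, map_eq_zero]) (by rwa [Ne, map_eq_zero]) (by
      rw [← map_add, Ne, map_eq_zero]
      exact hfg)
  ord_const := fun {c} hc => by
    rw [φ.commutes]
    exact Q.ord_const hc
  surj := by
    obtain ⟨t, ht, ht1⟩ := Q.surj
    exact ⟨φ.symm t, by rwa [Ne, map_eq_zero], by rwa [φ.apply_symm_apply]⟩

theorem pmap_ord (φ : K ≃ₐ[ℂ] K) (Q : Place ℂ K) (g : K) : (pmap φ Q).ord g = Q.ord (φ g) := rfl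

theorem divisorial_pmap {φ : K ≃ₐ[ℂ] K} {P Q : Place ℂ K} (h : ∀ g, P.ord g = Q.ord (φ g)) :
    Divisorial N P ↔ Divisorial N Q := by
  constructor
  · rintro ⟨u, hu⟩
    refine ⟨fun i => φ (u i), fun F hF => ?_⟩
    have h1 : MvPolynomial.aeval (fun i => φ (u i)) F = φ (MvPolynomial.aeval u F) :=
      (DFunLike.congr_fun (MvPolynomial.comp_aeval (f := u) (φ : K →ₐ[ℂ] K)) F).symm
    rw [h1]
    obtain ⟨h2, h3⟩ := hu F hF
    exact ⟨by rwa [Ne, map_eq_zero], by rw [← h, h3]⟩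
  · rintro ⟨u, hu⟩
    refine ⟨fun i => φ.symm (u i), fun F hF => ?_⟩
    have h1 : MvPolynomial.aeval (fun i => φ.symm (u i)) F = φ.symm (MvPolynomial.aeval u F) :=
      (DFunLike.congr_fun (MvPolynomial.comp_aeval (f := u) (φ.symm : K →ₐ[ℂ] K)) F).symm
    rw [h1]
    obtain ⟨h2, h3⟩ := hu F hF
    exact ⟨by rwa [Ne, map_eq_zero], by rw [h, φ.apply_symm_apply, h3]⟩

end place

section pull

variable {p N : ℕ} {K : Type} [Field K] [Algebra ℂ K] {δ : Fin p → Place ℂ K → ℚ}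
  {𝒬 : Set (Place ℂ K)}

theorem rc_intL (μ : Fin p → ℤ) : rc μ ∈ intL (Fin p) := fun i => ⟨μ i, rfl⟩

theorem rc_sum (μ : Fin p → ℤ) : rc μ = ∑ i, (μ i : ℝ) • (Pi.single i 1 : Fin p → ℝ) := pi_sum _

/-- **The cones are rational polyhedral.** -/
theorem cone_eq {N0 : ℕ} {g : Fin N0 → Fin p → ℤ} {f : Fin N0 → K}
    (hgen : (∀ b, f b ≠ 0 ∧ ZSec N δ (g b) (f b)) ∧
      ∀ (μ : Fin p → ℤ) (η : K), η ≠ 0 → ZSec N δ μ η → ∀ P : Place ℂ K, Mnl g f P μ η)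
    (h𝒬 : ∀ P ∈ 𝒬, Divisorial N P) (hne : 𝒬.Nonempty)
    (hind : ∀ μ : Fin p → ℤ, IsEff N δ μ → IsEff N δ (-μ) → μ = 0) {μ0 : Fin p → ℤ}
    (hamp : ∀ ν : Fin p → ℤ, ∃ k : ℕ, 1 ≤ k ∧ ∀ P ∈ 𝒬, FreeAt N δ (k • μ0 + ν) P) :
    ∃ (U : Finset (Fin p → ℤ)) (V : Finset (Fin p → ℝ)) (ξ : (Fin p → ℝ) →ₗ[ℝ] ℝ),
      (∀ a, a ∈ V ↔ ∃ μ ∈ U, rc μ = a) ∧
      (∀ μ ∈ U, ∀ P ∈ 𝒬, FreeAt N δ μ P) ∧ freeCone N δ 𝒬 = cone V ∧
      (cone V = {x | ∀ B ∈ vans g f δ 𝒬, x ∈ gcone g B}) ∧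
      (∀ μ, (∀ P ∈ 𝒬, FreeAt N δ μ P) → rc μ ∈ cone V) ∧
      (∀ a ∈ V, a ≠ 0 → 0 < ξ a) ∧ (∀ x ∈ intL (Fin p), ∃ n : ℤ, ξ x = n) ∧
      rc μ0 ∈ cone V ∧ (∀ i, ∃ k : ℕ, (k : ℝ) • rc μ0 + Pi.single i 1 ∈ cone V) ∧
      (∀ i, ∃ k : ℕ, (k : ℝ) • rc μ0 - Pi.single i 1 ∈ cone V) := by
  classical
  obtain ⟨U, hU, hUg, hUx⟩ := exists_gens hgen h𝒬 hne
  obtain ⟨P0, hP0⟩ := hne
  have hmem : ∀ μ, (∀ P ∈ 𝒬, FreeAt N δ μ P) → rc μ ∈ cone (U.image rc) :=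
    fun μ hμ => mem_cone_rc.2 (hUg μ hμ)
  -- the positive form
  obtain ⟨ξ, hξ⟩ : ∃ ξ : Fin p → ℤ, ∀ a ∈ U.filter (fun a => a ≠ 0), 0 < ∑ i, ξ i * a i := by
    rcases gordan (U.filter fun a => a ≠ 0) with h | ⟨e, he, a1, ha1, he1⟩
    · exact h
    exfalso
    have hefU : ∀ a ∈ U, IsEff N δ a := fun a ha => (hU a ha P0 hP0).eff
    have h1 : IsEff N δ (e a1 • a1) := (hefU a1 (Finset.mem_filter.1 ha1).1).nsmul _
    have h2 : IsEff N δ (∑ a ∈ (U.filter fun a => a ≠ 0).erase a1, e a • a) :=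
      IsEff.sum _ fun a ha => (hefU a (Finset.mem_filter.1 (Finset.mem_of_mem_erase ha)).1).nsmul _
    have h3 : - (e a1 • a1) = ∑ a ∈ (U.filter fun a => a ≠ 0).erase a1, e a • a := by
      have h4 : ∑ a ∈ U.filter (fun a => a ≠ 0), e a • a = 0 := by
        funext i
        rw [Finset.sum_apply, Pi.zero_apply, ← he i]
        exact Finset.sum_congr rfl fun a _ => by rw [Pi.smul_apply, nsmul_eq_mul]
      rw [← Finset.add_sum_erase _ _ ha1] at h4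
      exact neg_eq_of_add_eq_zero_right h4
    rw [← h3] at h2
    have h5 := hind _ h1 h2
    rcases smul_eq_zero.1 h5 with h6 | h6
    · omega
    · exact (Finset.mem_filter.1 ha1).2 h6
  let ξ' : (Fin p → ℝ) →ₗ[ℝ] ℝ := ∑ i, (ξ i : ℝ) • LinearMap.proj i
  have hξ' : ∀ x, ξ' x = ∑ i, (ξ i : ℝ) * x i := by
    intro x
    simp only [ξ', LinearMap.sum_apply, LinearMap.smul_apply, LinearMap.proj_apply, smul_eq_mul]
  have hpos : ∀ a ∈ U.image rc, a ≠ 0 → 0 < ξ' a := by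
    intro a ha ha0
    obtain ⟨μ, hμ, rfl⟩ := Finset.mem_image.1 ha
    have h1 : μ ≠ 0 := by
      rintro rfl
      exact ha0 (by funext i; simp [rc])
    have h2 := hξ μ (Finset.mem_filter.2 ⟨hμ, h1⟩)
    rw [hξ']
    have h3 : ∑ i, (ξ i : ℝ) * rc μ i = ((∑ i, ξ i * μ i : ℤ) : ℝ) := by
      push_cast
      rfl
    rw [h3]
    exact_mod_cast h2
  have hξint : ∀ x ∈ intL (Fin p), ∃ n : ℤ, ξ' x = n := by
    intro x hx
    choose a ha using hx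
    refine ⟨∑ i, ξ i * a i, ?_⟩
    rw [hξ']
    push_cast
    exact Finset.sum_congr rfl fun i _ => by rw [ha]
  have hy0 : rc μ0 ∈ cone (U.image rc) := by
    obtain ⟨k, hk, h⟩ := hamp 0
    have h1 := hmem _ h
    rw [add_zero, rc_nsmul] at h1
    have hk0 : (0 : ℝ) < k := by exact_mod_cast hk
    have h2 : rc μ0 = (k : ℝ)⁻¹ • ((k : ℝ) • rc μ0) := by
      rw [smul_smul, inv_mul_cancel₀ hk0.ne', one_smul]
    rw [h2]
    exact cone_smul h1 (inv_pos.2 hk0).le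
  have hsing : ∀ i : Fin p, rc (Pi.single i 1) = (Pi.single i 1 : Fin p → ℝ) := by
    intro i
    funext j
    unfold rc
    rcases eq_or_ne j i with h | h
    · rw [h, Pi.single_eq_same, Pi.single_eq_same]
      push_cast
      rfl
    · rw [Pi.single_eq_of_ne h, Pi.single_eq_of_ne h]
      push_cast
      rfl
  have hp : ∀ i, ∃ k : ℕ, (k : ℝ) • rc μ0 + Pi.single i 1 ∈ cone (U.image rc) := by
    intro i
    obtain ⟨k, -, h⟩ := hamp (Pi.single i 1)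
    have h1 := hmem _ h
    rw [rc_add, rc_nsmul, hsing] at h1
    exact ⟨k, h1⟩
  have hm : ∀ i, ∃ k : ℕ, (k : ℝ) • rc μ0 - Pi.single i 1 ∈ cone (U.image rc) := by
    intro i
    obtain ⟨k, -, h⟩ := hamp (- Pi.single i 1)
    have h1 := hmem _ h
    rw [rc_add, rc_nsmul, rc_neg, hsing, ← sub_eq_add_neg] at h1
    exact ⟨k, h1⟩
  refine ⟨U, U.image rc, ξ', fun a => Finset.mem_image, hU, ?_, ?_, hmem, hpos, hξint, hy0, hp,
    hm⟩
  · apply Set.Subset.antisymm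
    · refine closure_minimal ?_ (closed_cone ξ' hpos (near hy0 hp hm))
      rintro x ⟨S, hS, hx⟩
      refine cone_le (fun a ha => ?_) hx
      obtain ⟨μ, hμ, rfl⟩ := hS ha
      exact hmem μ hμ
    · refine Set.Subset.trans (fun x hx => ?_) subset_closure
      refine ⟨U.image rc, fun a ha => ?_, hx⟩
      obtain ⟨μ, hμ, rfl⟩ := Finset.mem_image.1 (Finset.mem_coe.1 ha)
      exact ⟨μ, hU μ hμ, rfl⟩
  · ext x
    rw [mem_cone_rc]
    exact (hUx x).symm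

/-- what is assumed about the divisors -/
structure Hyp (N : ℕ) (δ : Fin p → Place ℂ K → ℚ) (𝒬 : Set (Place ℂ K)) : Prop where
  fg : (coxRing N δ).FG
  div : ∀ P ∈ 𝒬, Divisorial N P
  ne : 𝒬.Nonempty
  sec : ∀ (μ : Fin p → ℤ) (f : K),
    (∀ P ∈ 𝒬, f = 0 ∨ - ∑ i, (μ i : ℚ) * δ i P ≤ P.ord f) → IsSection N δ μ f
  ind : ∀ μ : Fin p → ℤ, IsEff N δ μ → IsEff N δ (-μ) → μ = 0
  amp : ∃ μ0 : Fin p → ℤ, ∀ ν : Fin p → ℤ, ∃ k : ℕ, 1 ≤ k ∧ ∀ P ∈ 𝒬, FreeAt N δ (k • μ0 + ν) P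

theorem lin_ext {T T' : (Fin p → ℝ) ≃ₗ[ℝ] (Fin p → ℝ)}
    (h : ∀ i, T (Pi.single i 1) = T' (Pi.single i 1)) : T = T' := by
  apply LinearEquiv.ext
  intro x
  rw [pi_sum x, map_sum, map_sum]
  exact Finset.sum_congr rfl fun i _ => by rw [map_smul, map_smul, h]

/-- the pull back is determined by the map -/
theorem pull_unique (H : Hyp N δ 𝒬) {φ : K ≃ₐ[ℂ] K} {T T' : (Fin p → ℝ) ≃ₗ[ℝ] (Fin p → ℝ)}
    (h : IsPullBack δ 𝒬 φ T) (h' : IsPullBack δ 𝒬 φ T') : T = T' := by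
  obtain ⟨k, hk, b, s, hs, hb, hP⟩ := h
  obtain ⟨k', hk', b', s', hs', hb', hP'⟩ := h'
  apply lin_ext
  intro i
  have hk0 : (0 : ℝ) < k := by exact_mod_cast hk
  have hk0' : (0 : ℝ) < k' := by exact_mod_cast hk'
  have hval : ∀ Q ∈ 𝒬, ∑ j, (((fun j => (k' : ℤ) * b i j - k * b' i j) j : ℤ) : ℚ) * δ j Q =
      - ((Q.ord (s i ^ k' * (s' i ^ k)⁻¹) : ℤ) : ℚ) := by
    intro Q hQ
    have h1 := hP i (pmap φ Q) Q hQ fun g => rfl
    have h2 := hP' i (pmap φ Q) Q hQ fun g => rfl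
    have h3 : ∑ j, (((fun j => (k' : ℤ) * b i j - k * b' i j) j : ℤ) : ℚ) * δ j Q =
        k' * ∑ j, (b i j : ℚ) * δ j Q - k * ∑ j, (b' i j : ℚ) * δ j Q := by
      rw [Finset.mul_sum, Finset.mul_sum, ← Finset.sum_sub_distrib]
      refine Finset.sum_congr rfl fun j _ => ?_
      push_cast
      ring
    rw [h3, Q.ord_mul (pow_ne_zero _ (hs i)) (inv_ne_zero (pow_ne_zero _ (hs' i))), Q.ord_inv,
      Q.ord_pow, Q.ord_pow]
    push_cast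
    linear_combination (k : ℚ) * h2 - (k' : ℚ) * h1
  have hne : s i ^ k' * (s' i ^ k)⁻¹ ≠ 0 :=
    mul_ne_zero (pow_ne_zero _ (hs i)) (inv_ne_zero (pow_ne_zero _ (hs' i)))
  have h1 := H.ind (fun j => (k' : ℤ) * b i j - k * b' i j)
    ⟨s i ^ k' * (s' i ^ k)⁻¹, hne, H.sec _ _ fun Q hQ => Or.inr (by
      rw [hval Q hQ, neg_neg])⟩
    ⟨(s i ^ k' * (s' i ^ k)⁻¹)⁻¹, inv_ne_zero hne, H.sec _ _ fun Q hQ => Or.inr (by
      rw [Q.ord_inv]
      have h2 := hval Q hQ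
      have h3 : ∑ j, (((-(fun j => (k' : ℤ) * b i j - k * b' i j)) j : ℤ) : ℚ) * δ j Q =
          - ∑ j, (((fun j => (k' : ℤ) * b i j - k * b' i j) j : ℤ) : ℚ) * δ j Q := by
        rw [← Finset.sum_neg_distrib]
        refine Finset.sum_congr rfl fun j _ => ?_
        rw [Pi.neg_apply]
        push_cast
        ring
      rw [h3, h2]
      push_cast
      linarith)⟩
  funext j
  have h2 := congrFun h1 j
  have h3 := congrFun (hb i) j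
  have h4 := congrFun (hb' i) j
  rw [Pi.smul_apply, smul_eq_mul] at h3 h4
  have h5 : (k' : ℝ) * b i j = k * b' i j := by
    have h6 : (k' : ℤ) * b i j - k * b' i j = 0 := h2
    exact_mod_cast sub_eq_zero.1 h6
  have h7 : (k' : ℝ) * k * T (Pi.single i 1) j = k' * k * T' (Pi.single i 1) j := by
    calc (k' : ℝ) * k * T (Pi.single i 1) j = k' * (k * T (Pi.single i 1) j) := by ring
      _ = k' * b i j := by rw [h3]; rfl
      _ = k * b' i j := h5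
      _ = k * (k' * T' (Pi.single i 1) j) := by rw [h4]; rfl
      _ = k' * k * T' (Pi.single i 1) j := by ring
  exact mul_left_cancel₀ (mul_pos hk0' hk0).ne' h7

theorem pull_one : IsPullBack δ 𝒬 1 1 := by
  classical
  refine ⟨1, le_refl _, fun i => Pi.single i 1, fun _ => 1, fun _ => one_ne_zero, fun i => ?_,
    fun i P Q _ h => ?_⟩
  · rw [Nat.cast_one, one_smul]
    change (Pi.single i 1 : Fin p → ℝ) = _
    funext j
    unfold rc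
    beta_reduce
    rcases eq_or_ne j i with h | h
    · rw [h, Pi.single_eq_same, Pi.single_eq_same]
      push_cast
      rfl
    · rw [Pi.single_eq_of_ne h, Pi.single_eq_of_ne h]
      push_cast
      rfl
  · have hPQ : P = Q := Place.ext (funext fun g => h g)
    beta_reduce
    rw [hPQ, Q.ord_one, Finset.sum_eq_single i]
    · rw [Pi.single_eq_same]
      simp
    · intro j _ hj
      rw [Pi.single_eq_of_ne hj]
      simp
    · intro h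
      exact absurd (Finset.mem_univ i) h

theorem pull_mul {φ ψ : K ≃ₐ[ℂ] K} {T S : (Fin p → ℝ) ≃ₗ[ℝ] (Fin p → ℝ)}
    (hφ : Permutes φ 𝒬) (h : IsPullBack δ 𝒬 φ T) (h' : IsPullBack δ 𝒬 ψ S) :
    IsPullBack δ 𝒬 (φ * ψ) (T * S) := by
  obtain ⟨k, hk, b, s, hs, hb, hP⟩ := h
  obtain ⟨k', hk', b', s', hs', hb', hP'⟩ := h'
  refine ⟨k * k', Nat.mul_pos hk hk', fun i l => ∑ j, b' i j * b j l,
    fun i => gz s (b' i) * φ (s' i) ^ k, fun i => mul_ne_zero (gz_ne hs _)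
      (pow_ne_zero _ (by rw [Ne, map_eq_zero]; exact hs' i)), fun i => ?_, fun i P Q hQ hPQ => ?_⟩
  · have h1 : (T * S) (Pi.single i 1) = T (S (Pi.single i 1)) := rfl
    rw [h1, Nat.cast_mul, mul_smul, ← map_smul T (k' : ℝ), hb' i, rc_sum (b' i), map_sum,
      Finset.smul_sum]
    funext l
    rw [Finset.sum_apply]
    unfold rc
    push_cast
    refine Finset.sum_congr rfl fun j _ => ?_
    rw [map_smul, smul_comm, hb j, Pi.smul_apply, smul_eq_mul]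
    rfl
  · have hR : pmap φ Q ∈ 𝒬 := (hφ (pmap φ Q) Q fun g => rfl).2 hQ
    have h1 := hP' i P (pmap φ Q) hR fun g => hPQ g
    have h2 : ∀ j, (k : ℚ) * δ j (pmap φ Q) = ∑ l, (b j l : ℚ) * δ l Q + Q.ord (s j) :=
      fun j => hP j (pmap φ Q) Q hQ fun g => rfl
    rw [pmap_ord] at h1
    rw [Q.ord_mul (gz_ne hs _) (pow_ne_zero _ (by rw [Ne, map_eq_zero]; exact hs' i)), ord_gz hs,
      Q.ord_pow]
    have h3 : ((k * k' : ℕ) : ℚ) * δ i P =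
        ∑ j, (b' i j : ℚ) * (k * δ j (pmap φ Q)) + k * Q.ord (φ (s' i)) := by
      have h4 : ∑ j, (b' i j : ℚ) * (k * δ j (pmap φ Q)) =
          k * ∑ j, (b' i j : ℚ) * δ j (pmap φ Q) := by
        rw [Finset.mul_sum]
        exact Finset.sum_congr rfl fun j _ => by ring
      rw [h4]
      push_cast
      linear_combination (k : ℚ) * h1
    have h5 : ∑ l, ((∑ j, b' i j * b j l : ℤ) : ℚ) * δ l Q =
        ∑ j, (b' i j : ℚ) * ∑ l, (b j l : ℚ) * δ l Q := by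
      simp only [Finset.mul_sum]
      rw [Finset.sum_comm]
      refine Finset.sum_congr rfl fun l _ => ?_
      push_cast
      rw [Finset.sum_mul]
      exact Finset.sum_congr rfl fun j _ => by ring
    rw [h3, h5, Finset.sum_congr rfl fun j _ => by rw [h2 j]]
    push_cast
    have h6 : ∑ j, (b' i j : ℚ) * (∑ l, (b j l : ℚ) * δ l Q + (Q.ord (s j) : ℚ)) =
        ∑ j, (b' i j : ℚ) * ∑ l, (b j l : ℚ) * δ l Q + ∑ j, (b' i j : ℚ) * (Q.ord (s j) : ℚ) := by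
      rw [← Finset.sum_add_distrib]
      exact Finset.sum_congr rfl fun j _ => by ring
    rw [h6]
    ring

/-- pull backs of divisors without base points -/
theorem pull_free (H : Hyp N δ 𝒬) {φ : K ≃ₐ[ℂ] K} {T : (Fin p → ℝ) ≃ₗ[ℝ] (Fin p → ℝ)}
    (hφ : Permutes φ 𝒬) (h : IsPullBack δ 𝒬 φ T) {μ : Fin p → ℤ}
    (hμ : ∀ P ∈ 𝒬, FreeAt N δ μ P) : ∃ k : ℕ, 1 ≤ k ∧ ∃ ν : Fin p → ℤ,
      (k : ℝ) • T (rc μ) = rc ν ∧ ∀ P ∈ 𝒬, FreeAt N δ ν P := by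
  obtain ⟨k, hk, b, s, hs, hb, hP⟩ := h
  have hval : ∀ Q ∈ 𝒬, ∑ l, ((∑ j, μ j * b j l : ℤ) : ℚ) * δ l Q =
      k * ∑ j, (μ j : ℚ) * δ j (pmap φ Q) - ((∑ j, μ j * Q.ord (s j) : ℤ) : ℚ) := by
    intro Q hQ
    have h2 : ∀ j, (k : ℚ) * δ j (pmap φ Q) = ∑ l, (b j l : ℚ) * δ l Q + Q.ord (s j) :=
      fun j => hP j (pmap φ Q) Q hQ fun g => rfl
    have h5 : ∑ l, ((∑ j, μ j * b j l : ℤ) : ℚ) * δ l Q =
        ∑ j, (μ j : ℚ) * ∑ l, (b j l : ℚ) * δ l Q := by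
      simp only [Finset.mul_sum]
      rw [Finset.sum_comm]
      refine Finset.sum_congr rfl fun l _ => ?_
      push_cast
      rw [Finset.sum_mul]
      exact Finset.sum_congr rfl fun j _ => by ring
    rw [h5, Finset.mul_sum]
    push_cast
    rw [← Finset.sum_sub_distrib]
    refine Finset.sum_congr rfl fun j _ => ?_
    linear_combination (- (μ j : ℚ)) * h2 j
  refine ⟨k, hk, fun l => ∑ j, μ j * b j l, ?_, fun Q hQ => ?_⟩
  · rw [rc_sum μ, map_sum, Finset.smul_sum]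
    funext l
    rw [Finset.sum_apply]
    unfold rc
    push_cast
    refine Finset.sum_congr rfl fun j _ => ?_
    rw [map_smul, smul_comm, hb j, Pi.smul_apply, smul_eq_mul]
    rfl
  · have hR : pmap φ Q ∈ 𝒬 := (hφ (pmap φ Q) Q fun g => rfl).2 hQ
    obtain ⟨f, hf0, hf, hf1⟩ := hμ _ hR
    have hφf : φ f ≠ 0 := by rw [Ne, map_eq_zero]; exact hf0
    have hord : ∀ Q' : Place ℂ K, Q'.ord (φ f ^ k * gz s μ) =
        k * Q'.ord (φ f) + ∑ j, μ j * Q'.ord (s j) := by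
      intro Q'
      rw [Q'.ord_mul (pow_ne_zero _ hφf) (gz_ne hs _), Q'.ord_pow, ord_gz hs]
    refine ⟨φ f ^ k * gz s μ, mul_ne_zero (pow_ne_zero _ hφf) (gz_ne hs _),
      H.sec _ _ fun Q' hQ' => Or.inr ?_, ?_⟩
    · have hR' : pmap φ Q' ∈ 𝒬 := (hφ (pmap φ Q') Q' fun g => rfl).2 hQ'
      have h1 := (hf _ (H.div _ hR')).resolve_left hf0
      rw [pmap_ord] at h1
      rw [hval Q' hQ', hord]
      push_cast
      have h2 := mul_le_mul_of_nonneg_left h1 (by positivity : (0 : ℚ) ≤ k)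
      linarith
    · rw [pmap_ord] at hf1
      rw [hval Q hQ, hord]
      push_cast
      rw [hf1]
      ring

/-- **The cone conjecture.** -/
theorem conj (H : Hyp N δ 𝒬) {𝒮 : Subgroup (K ≃ₐ[ℂ] K)} (h𝒮 : ∀ φ ∈ 𝒮, Permutes φ 𝒬)
    (hT : ∀ φ ∈ 𝒮, ∃ T, IsPullBack δ 𝒬 φ T) {M : ℕ} (hM : 1 ≤ M)
    (hint : ∀ φ ∈ 𝒮, ∀ T, IsPullBack δ 𝒬 φ T → ∀ i j, ∃ a : ℤ,
      (M : ℝ) * T (Pi.single i 1) j = a) :
    (∃ U : Finset (Fin p → ℝ), (∀ x ∈ U, ∃ μ : Fin p → ℤ, (∀ P ∈ 𝒬, FreeAt N δ μ P) ∧ x = rc μ) ∧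
      freeCone N δ 𝒬 = cone U) ∧ freeCone N δ 𝒬 ⊆ effCone N δ ∧
    HasFundDomain {T | ∃ φ ∈ 𝒮, IsPullBack δ 𝒬 φ T} (freeCone N δ 𝒬 ∩ effCone N δ) := by
  obtain ⟨N0, g, f, hgen⟩ := gens_of_fg H.fg
  obtain ⟨μ0, hamp⟩ := H.amp
  obtain ⟨U, V, ξ, hVU, hU, hC, -, hmem, hpos, hξ, hy0, hp, hm⟩ :=
    cone_eq hgen H.div H.ne H.ind hamp
  have hsub : freeCone N δ 𝒬 ⊆ effCone N δ := by
    rw [hC]
    intro x hx
    refine ⟨V, fun a ha => ?_, hx⟩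
    obtain ⟨μ, hμ, rfl⟩ := (hVU a).1 (Finset.mem_coe.1 ha)
    obtain ⟨P0, hP0⟩ := H.ne
    exact ⟨μ, (hU μ hμ P0 hP0).eff, rfl⟩
  refine ⟨⟨V, fun x hx => ?_, hC⟩, hsub, ?_⟩
  · obtain ⟨μ, hμ, rfl⟩ := (hVU x).1 hx
    exact ⟨μ, hU μ hμ, rfl⟩
  rw [Set.inter_eq_left.2 hsub, hC]
  let 𝒢 : Subgroup ((Fin p → ℝ) ≃ₗ[ℝ] (Fin p → ℝ)) :=
    { carrier := {T | ∃ φ ∈ 𝒮, IsPullBack δ 𝒬 φ T}
      mul_mem' := by
        rintro T S ⟨φ, hφ, h⟩ ⟨ψ, hψ, h'⟩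
        exact ⟨φ * ψ, 𝒮.mul_mem hφ hψ, pull_mul (h𝒮 φ hφ) h h'⟩
      one_mem' := ⟨1, 𝒮.one_mem, pull_one⟩
      inv_mem' := by
        rintro T ⟨φ, hφ, h⟩
        obtain ⟨T', hT'⟩ := hT φ⁻¹ (𝒮.inv_mem hφ)
        have h1 := pull_mul (h𝒮 φ hφ) h hT'
        rw [mul_inv_cancel] at h1
        have h2 : T * T' = 1 := pull_unique H h1 pull_one
        have h3 : T⁻¹ = T' := inv_eq_of_mul_eq_one_right h2
        exact ⟨φ⁻¹, 𝒮.inv_mem hφ, by rw [h3]; exact hT'⟩ }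
  refine fund_dat ξ hpos hξ (fun a ha => ?_) (rc_intL μ0) hy0 hp hm 𝒢 hM ?_ ?_
  · obtain ⟨μ, -, rfl⟩ := (hVU a).1 ha
    exact rc_intL μ
  · rintro T ⟨φ, hφ, h⟩ i j
    exact hint φ hφ T h i j
  · rintro T ⟨φ, hφ, h⟩ x hx
    refine cone_ind (p := fun x => T x ∈ cone V) (by rw [map_zero]; exact zero_mem_cone V)
      (fun x y h1 h2 => by rw [map_add]; exact cone_add h1 h2)
      (fun t x ht h1 => by rw [map_smul]; exact cone_smul h1 ht) (fun a ha => ?_) hx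
    obtain ⟨μ, hμ, rfl⟩ := (hVU a).1 ha
    obtain ⟨k, hk, ν, hν, hνf⟩ := pull_free H (h𝒮 φ hφ) h (hU μ hμ)
    have hk0 : (0 : ℝ) < k := by exact_mod_cast hk
    have h2 : T (rc μ) = (k : ℝ)⁻¹ • rc ν := by
      rw [← hν, smul_smul, inv_mul_cancel₀ hk0.ne', one_smul]
    rw [h2]
    exact cone_smul (hmem ν hνf) (inv_pos.2 hk0).le

/-- **There are only finitely many cones.** -/
theorem finite_cones (hfg : (coxRing N δ).FG)
    (hind : ∀ μ : Fin p → ℤ, IsEff N δ μ → IsEff N δ (-μ) → μ = 0) {μ0 : Fin p → ℤ}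
    (hamp : ∀ ν : Fin p → ℤ, ∃ k : ℕ, 1 ≤ k ∧ ∀ P, Divisorial N P → FreeAt N δ (k • μ0 + ν) P) :
    {C | ∃ 𝒬 : Set (Place ℂ K), 𝒬.Nonempty ∧ (∀ P ∈ 𝒬, Divisorial N P) ∧
      C = freeCone N δ 𝒬}.Finite := by
  classical
  obtain ⟨N0, g, f, hgen⟩ := gens_of_fg hfg
  refine (Set.finite_range fun F : Finset (Finset (Fin N0)) =>
    {x : Fin p → ℝ | ∀ B ∈ F, x ∈ gcone g B}).subset ?_
  rintro C ⟨𝒬, hne, h𝒬, rfl⟩
  obtain ⟨U, V, ξ, -, -, hC, hC', -⟩ := cone_eq hgen h𝒬 hne hind (μ0 := μ0) fun ν => by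
    obtain ⟨k, hk, h⟩ := hamp ν
    exact ⟨k, hk, fun P hP => h P (h𝒬 P hP)⟩
  exact ⟨vans g f δ 𝒬, by rw [hC, hC']⟩

end pull

end Run7.h530.FI
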