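import Pool.Agent.Run7.h530.FI.ZDefs
import Pool.Agent.Run7.h530.FI.Conj

/-!
Fujita-Zariski decompositions exist if the multigraded ring of sections is finitely generated.
-/

set_option autoImplicit false
set_option linter.overlappingInstances false
set_option linter.unusedSectionVars false

open FF Pool.Agent.W602.GT Pool.Agent.Q57.FT Pool.Agent.Q57.CX Pool.Agent.Q57.HK
open Pool.Agent.Y167 (cone)
open Filter Topology

namespace Run7.h530.FI

/-- limits of nonnegative solutions -/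
theorem limit_sol {p N0 : ℕ} {g : Fin N0 → Fin p → ℤ} {ξ : Fin p → ℤ}
    (hξ : ∀ b, g b ≠ 0 → 0 < ∑ i, ξ i * g b i) (w : Fin N0 → ℝ) (hw : ∀ b, g b = 0 → 0 ≤ w b)
    (x y : Fin p → ℝ) (q d : ℝ)
    (h : ∀ n : ℕ, ∃ t : Fin N0 → ℝ, (∀ b, 0 ≤ t b) ∧
      (∀ i, ∑ b, t b * g b i = x i + y i / ((n : ℝ) + 1)) ∧
      q ≤ d / ((n : ℝ) + 1) - ∑ b, t b * w b) :
    ∃ t : Fin N0 → ℝ, (∀ b, 0 ≤ t b) ∧ (∀ i, ∑ b, t b * g b i = x i) ∧
      q ≤ - ∑ b, t b * w b := by
  classical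
  -- the coordinates with `g b = 0` may be taken to be zero
  have h' : ∀ n : ℕ, ∃ t : Fin N0 → ℝ, (∀ b, 0 ≤ t b) ∧ (∀ b, g b = 0 → t b = 0) ∧
      (∀ i, ∑ b, t b * g b i = x i + y i / ((n : ℝ) + 1)) ∧
      q ≤ d / ((n : ℝ) + 1) - ∑ b, t b * w b := by
    intro n
    obtain ⟨t, ht, ht1, ht2⟩ := h n
    refine ⟨fun b => if g b = 0 then 0 else t b, fun b => ?_, fun b hb => if_pos hb, fun i => ?_,
      ht2.trans (sub_le_sub_left (Finset.sum_le_sum fun b _ => ?_) _)⟩
    · beta_reduce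
      split_ifs
      exacts [le_refl _, ht b]
    · rw [← ht1 i]
      refine Finset.sum_congr rfl fun b _ => ?_
      beta_reduce
      split_ifs with hb
      · rw [hb]
        simp
      · rfl
    · beta_reduce
      split_ifs with hb
      · rw [zero_mul]
        exact mul_nonneg (ht b) (hw b hb)
      · exact le_refl _
  choose t ht ht0 ht1 ht2 using h'
  -- bounds
  obtain ⟨C, hC⟩ : ∃ C : ℝ, C = ∑ i, |(ξ i : ℝ)| * (|x i| + |y i|) := ⟨_, rfl⟩
  have hbd : ∀ n b, t n b ≤ C := by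
    intro n b
    have hC0 : 0 ≤ C := by
      rw [hC]
      exact Finset.sum_nonneg fun i _ => by positivity
    by_cases hb : g b = 0
    · rw [ht0 n b hb]
      exact hC0
    have h1 : ∑ b, t n b * ((∑ i, ξ i * g b i : ℤ) : ℝ) =
        ∑ i, (ξ i : ℝ) * (x i + y i / ((n : ℝ) + 1)) := by
      have h2 : ∀ i, (ξ i : ℝ) * (x i + y i / ((n : ℝ) + 1)) =
          ∑ b, (ξ i : ℝ) * (t n b * g b i) := by
        intro i
        rw [← ht1 n i, Finset.mul_sum]
      rw [Finset.sum_congr rfl fun i _ => h2 i, Finset.sum_comm]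
      refine Finset.sum_congr rfl fun b _ => ?_
      push_cast
      rw [Finset.mul_sum]
      exact Finset.sum_congr rfl fun i _ => by ring
    have h3 : ∑ i, (ξ i : ℝ) * (x i + y i / ((n : ℝ) + 1)) ≤ C := by
      rw [hC]
      refine Finset.sum_le_sum fun i _ => (le_abs_self _).trans ?_
      rw [abs_mul]
      refine mul_le_mul_of_nonneg_left ((abs_add_le _ _).trans (add_le_add_right ?_ _))
        (abs_nonneg _)
      rw [abs_div]
      have h4 : (1 : ℝ) ≤ |(n : ℝ) + 1| := by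
        rw [abs_of_nonneg (by positivity)]
        have : (0 : ℝ) ≤ n := Nat.cast_nonneg n
        linarith
      exact div_le_self (abs_nonneg _) h4
    have h5 : ∀ b ∈ Finset.univ, 0 ≤ t n b * ((∑ i, ξ i * g b i : ℤ) : ℝ) := by
      intro b _
      by_cases hb : g b = 0
      · rw [ht0 n b hb, zero_mul]
      · exact mul_nonneg (ht n b) (by exact_mod_cast (hξ b hb).le)
    have h6 := Finset.single_le_sum h5 (Finset.mem_univ b)
    have h7 : (1 : ℝ) ≤ ((∑ i, ξ i * g b i : ℤ) : ℝ) := by exact_mod_cast (hξ b hb)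
    have h8 : t n b ≤ t n b * ((∑ i, ξ i * g b i : ℤ) : ℝ) := le_mul_of_one_le_right (ht n b) h7
    linarith
  -- a convergent subsequence
  obtain ⟨s, -, φ, hφ, hs⟩ := (isCompact_univ_pi fun _ : Fin N0 => isCompact_Icc (a := (0 : ℝ))
    (b := C)).tendsto_subseq (x := t) fun n b _ => ⟨ht n b, hbd n b⟩
  have hsb : ∀ b, Tendsto (fun n => t (φ n) b) atTop (𝓝 (s b)) := fun b =>
    (tendsto_pi_nhds.1 hs) b
  have hinv : Tendsto (fun n => (1 : ℝ) / ((φ n : ℝ) + 1)) atTop (𝓝 0) :=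
    tendsto_one_div_add_atTop_nhds_zero_nat.comp hφ.tendsto_atTop
  refine ⟨s, fun b => ge_of_tendsto' (hsb b) fun n => ht _ b, fun i => ?_, ?_⟩
  · have h1 : Tendsto (fun n => ∑ b, t (φ n) b * (g b i : ℝ)) atTop
        (𝓝 (∑ b, s b * (g b i : ℝ))) :=
      tendsto_finsetSum _ fun b _ => (hsb b).mul_const _
    have h2 : Tendsto (fun n => x i + y i * (1 / ((φ n : ℝ) + 1))) atTop
        (𝓝 (x i + y i * 0)) := tendsto_const_nhds.add (hinv.const_mul _)
    rw [mul_zero, add_zero] at h2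
    refine tendsto_nhds_unique h1 (h2.congr fun n => ?_)
    rw [ht1 (φ n) i, mul_one_div]
  · have h1 : Tendsto (fun n => d * (1 / ((φ n : ℝ) + 1)) - ∑ b, t (φ n) b * w b) atTop
        (𝓝 (d * 0 - ∑ b, s b * w b)) :=
      (hinv.const_mul _).sub (tendsto_finsetSum _ fun b _ => (hsb b).mul_const _)
    rw [mul_zero, zero_sub] at h1
    refine ge_of_tendsto' h1 fun n => ?_
    rw [mul_one_div]
    exact ht2 (φ n)

section

variable {p N : ℕ} {K : Type} [Field K] [Algebra ℂ K] {δ : Fin p → Place ℂ K → ℚ}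

theorem mobile_le {S : Finset Kˣ} {hS : S.Nonempty} {P : Place ℂ K} {f : Kˣ} (hf : f ∈ S) :
    - P.ord (f : K) ≤ mobile S hS P :=
  Finset.le_sup' (fun f : Kˣ => - P.ord (f : K)) hf

theorem exists_mobile (S : Finset Kˣ) (hS : S.Nonempty) (P : Place ℂ K) :
    ∃ f ∈ S, mobile S hS P = - P.ord (f : K) :=
  Finset.exists_mem_eq_sup' hS fun f : Kˣ => - P.ord (f : K)

/-- the functions in a finite set have poles bounded by an ample divisor, up to the divisor of a
function -/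
theorem poles_bounded {μ0 : Fin p → ℤ}
    (hq : ∀ f : K, ∃ (k : ℕ) (a b : K), b ≠ 0 ∧ IsSection N δ (k • μ0) a ∧
      IsSection N δ (k • μ0) b ∧ f = a / b) (T : Finset Kˣ) :
    ∃ (c : ℕ) (b : K), b ≠ 0 ∧ ∀ P : Place ℂ K, Divisorial N P →
      (0 ≤ (c : ℚ) * ∑ i, (μ0 i : ℚ) * δ i P + P.ord b) ∧
      ∀ f ∈ T, - (P.ord (f : K) : ℚ) ≤ (c : ℚ) * ∑ i, (μ0 i : ℚ) * δ i P + P.ord b := by
  classical
  have hsm : ∀ (k : ℕ) (P : Place ℂ K), ∑ i, (((k • μ0) i : ℤ) : ℚ) * δ i P =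
      (k : ℚ) * ∑ i, (μ0 i : ℚ) * δ i P := by
    intro k P
    rw [Finset.mul_sum]
    refine Finset.sum_congr rfl fun i _ => ?_
    rw [Pi.smul_apply, nsmul_eq_mul]
    push_cast
    ring
  induction T using Finset.induction_on with
  | empty =>
    refine ⟨0, 1, one_ne_zero, fun P _ => ⟨?_, fun f hf => absurd hf (Finset.notMem_empty f)⟩⟩
    rw [P.ord_one]
    simp
  | insert f T hf ih =>
    obtain ⟨c, b, hb, h⟩ := ih
    obtain ⟨k, a', b', hb', ha1, hb1, hf1⟩ := hq (f : K)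
    have ha' : a' ≠ 0 := by
      rintro rfl
      rw [zero_div] at hf1
      exact f.ne_zero hf1
    refine ⟨c + k, b * b', mul_ne_zero hb hb', fun P hP => ?_⟩
    obtain ⟨h1, h2⟩ := h P hP
    have h3 := (ha1 P hP).resolve_left ha'
    have h4 := (hb1 P hP).resolve_left hb'
    rw [hsm] at h3 h4
    have h5 : (P.ord (f : K) : ℚ) = P.ord a' - P.ord b' := by
      rw [hf1, div_eq_mul_inv, P.ord_mul ha' (inv_ne_zero hb'), P.ord_inv]
      push_cast
      ring
    have h6 : (P.ord (b * b') : ℚ) = P.ord b + P.ord b' := by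
      rw [P.ord_mul hb hb']
      push_cast
      ring
    rw [h6]
    push_cast
    refine ⟨by nlinarith, fun f' hf' => ?_⟩
    rcases Finset.mem_insert.1 hf' with rfl | hf'
    · rw [h5]
      nlinarith
    · have := h2 f' hf'
      nlinarith

/-- **Fujita-Zariski decompositions.** -/
theorem fujita_zariski (hfg : (coxRing N δ).FG)
    (hind : ∀ μ : Fin p → ℤ, IsEff N δ μ → IsEff N δ (-μ) → μ = 0) {μ0 : Fin p → ℤ}
    (hamp : IsAmpleDivisor N δ μ0) {μ : Fin p → ℤ} (hμ : IsPsef N δ μ0 μ) :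
    ∃ (k : ℕ) (S : Finset Kˣ) (hS : S.Nonempty), IsFujitaZariski N δ μ k S hS := by
  classical
  by_cases hne : {P : Place ℂ K | Divisorial N P}.Nonempty
  swap
  · exact ⟨1, {1}, Finset.singleton_nonempty 1, le_refl _,
      fun f _ P hP => absurd ⟨P, hP⟩ hne, fun q _ _ P hP => absurd ⟨P, hP⟩ hne⟩
  obtain ⟨P0, hP0⟩ := hne
  obtain ⟨N0, g, f, hgen⟩ := gens_of_fg hfg
  have hf0 : ∀ b, f b ≠ 0 := fun b => (hgen.1 b).1
  -- the positive form
  obtain ⟨ξ, hξ⟩ : ∃ ξ : Fin p → ℤ, ∀ b, g b ≠ 0 → 0 < ∑ i, ξ i * g b i := by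
    have hefU : ∀ a ∈ Finset.univ.image g, IsEff N δ a := by
      intro a ha
      obtain ⟨b, -, rfl⟩ := Finset.mem_image.1 ha
      exact ⟨f b, hgen.1 b⟩
    rcases gordan ((Finset.univ.image g).filter fun a => a ≠ 0) with ⟨ξ, hξ⟩ | ⟨e, he, a1, ha1, he1⟩
    · exact ⟨ξ, fun b hb => hξ _ (Finset.mem_filter.2
        ⟨Finset.mem_image_of_mem g (Finset.mem_univ b), hb⟩)⟩
    exfalso
    have h1 : IsEff N δ (e a1 • a1) := (hefU a1 (Finset.mem_filter.1 ha1).1).nsmul _
    have h2 : IsEff N δ (∑ a ∈ ((Finset.univ.image g).filter fun a => a ≠ 0).erase a1,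
        e a • a) :=
      IsEff.sum _ fun a ha => (hefU a (Finset.mem_filter.1 (Finset.mem_of_mem_erase ha)).1).nsmul _
    have h3 : - (e a1 • a1) = ∑ a ∈ ((Finset.univ.image g).filter fun a => a ≠ 0).erase a1,
        e a • a := by
      have h4 : ∑ a ∈ (Finset.univ.image g).filter (fun a => a ≠ 0), e a • a = 0 := by
        funext i
        rw [Finset.sum_apply, Pi.zero_apply, ← he i]
        exact Finset.sum_congr rfl fun a _ => by rw [Pi.smul_apply, nsmul_eq_mul]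
      rw [← Finset.add_sum_erase _ _ ha1] at h4
      exact neg_eq_of_add_eq_zero_right h4
    rw [← h3] at h2
    have h5 := hind _ h1 h2
    rcases smul_eq_zero.1 h5 with h6 | h6
    · omega
    · exact (Finset.mem_filter.1 ha1).2 h6
  have hw : ∀ P : Place ℂ K, Divisorial N P → ∀ b, g b = 0 → (0 : ℝ) ≤ (P.ord (f b) : ℝ) := by
    intro P hP b hb
    have h1 := ((hgen.1 b).2 P hP).resolve_left (hf0 b)
    rw [hb] at h1
    simp only [Pi.zero_apply, Int.cast_zero, zero_mul, Finset.sum_const_zero, neg_zero] at h1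
    have h2 : (0 : ℤ) ≤ P.ord (f b) := by exact_mod_cast h1
    exact_mod_cast h2
  -- the solutions
  obtain ⟨A, hA, hc⟩ := solutions (ι := Option (Fin N0)) (κ := Fin p)
    (fun i b => b.elim (- μ i) fun b => g b i)
  choose! e he hek using hA
  have hrel : ∀ a ∈ A, ∑ b, e a (some b) • g b = e a none • μ := by
    intro a ha
    funext i
    have h1 := hek a ha i
    rw [Fintype.sum_option] at h1
    change (e a none : ℤ) * (- μ i) + ∑ b, (e a (some b) : ℤ) * g b i = 0 at h1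
    rw [Finset.sum_apply, Pi.smul_apply, nsmul_eq_mul]
    have h2 : ∑ b, (e a (some b) • g b) i = ∑ b, (e a (some b) : ℤ) * g b i :=
      Finset.sum_congr rfl fun b _ => by rw [Pi.smul_apply, nsmul_eq_mul]
    rw [h2]
    linarith
  let G : (Option (Fin N0) → ℝ) → K := fun a => ∏ b, f b ^ e a (some b)
  have hG0 : ∀ a, G a ≠ 0 := fun a => Finset.prod_ne_zero_iff.2 fun b _ => pow_ne_zero _ (hf0 b)
  have hGs : ∀ a ∈ A, IsSection N δ (e a none • μ) (G a) := by
    intro a ha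
    rw [← hrel a ha]
    exact zsec_prod (fun b => (hgen.1 b).2) _
  have hGord : ∀ a (P : Place ℂ K), (P.ord (G a) : ℝ) = ∑ b, (e a (some b) : ℝ) * P.ord (f b) := by
    intro a P
    have h1 : P.ord (G a) = ∑ b, (e a (some b) : ℤ) * P.ord (f b) :=
      Pool.Agent.Q57.GC.ord_prod P hf0 _
    rw [h1]
    push_cast
    rfl
  obtain ⟨V, hV⟩ : ∃ V : Finset (Option (Fin N0) → ℝ), V = A.filter fun a => 1 ≤ e a none :=
    ⟨_, rfl⟩
  -- a solution gives weights of the elements of `V`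
  have key : ∀ t : Fin N0 → ℝ, (∀ b, 0 ≤ t b) → (∀ i, ∑ b, t b * g b i = μ i) →
      ∃ w : (Option (Fin N0) → ℝ) → ℝ, (∀ a, 0 ≤ w a) ∧ ∑ a ∈ V, w a * e a none = 1 ∧
        ∀ P : Place ℂ K, Divisorial N P → - ∑ b, t b * (P.ord (f b) : ℝ) ≤
          ∑ a ∈ V, w a * - (P.ord (G a) : ℝ) := by
    intro t ht ht1
    have h1 : (fun b : Option (Fin N0) => b.elim (1 : ℝ) t) ∈ cone A := by
      refine (hc _).2 ⟨fun b => ?_, fun i => ?_⟩
      · cases b with
        | none => exact zero_le_one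
        | some b => exact ht b
      · rw [Fintype.sum_option]
        change (1 : ℝ) * ((- μ i : ℤ) : ℝ) + ∑ b, t b * (g b i : ℝ) = 0
        rw [ht1]
        push_cast
        ring
    obtain ⟨w, hw0, hwx⟩ := h1
    have h2 : ∀ a ∈ A, a ∉ V → e a none = 0 := by
      intro a ha hav
      by_contra h3
      exact hav (by rw [hV]; exact Finset.mem_filter.2 ⟨ha, Nat.one_le_iff_ne_zero.2 h3⟩)
    have hVA : V ⊆ A := by
      rw [hV]
      exact Finset.filter_subset _ _
    refine ⟨w, hw0, ?_, fun P hP => ?_⟩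
    · have h3 := congrFun hwx none
      rw [Finset.sum_apply] at h3
      have h4 : ∑ a ∈ A, w a * (e a none : ℝ) = 1 := by
        refine Eq.trans (Finset.sum_congr rfl fun a ha => ?_) h3.symm
        rw [Pi.smul_apply, smul_eq_mul, he a ha]
      rw [← h4]
      refine Finset.sum_subset hVA fun a ha hav => ?_
      rw [h2 a ha hav]
      simp
    · have h3 : ∀ b, t b = ∑ a ∈ A, w a * (e a (some b) : ℝ) := by
        intro b
        have h4 := congrFun hwx (some b)
        rw [Finset.sum_apply] at h4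
        refine h4.trans (Finset.sum_congr rfl fun a ha => ?_)
        rw [Pi.smul_apply, smul_eq_mul, he a ha]
      have h4 : - ∑ b, t b * (P.ord (f b) : ℝ) = ∑ a ∈ A, w a * - (P.ord (G a) : ℝ) := by
        simp only [h3, hGord, Finset.sum_mul, Finset.mul_sum, mul_neg, Finset.sum_neg_distrib]
        rw [Finset.sum_comm]
        congr 1
        refine Finset.sum_congr rfl fun a _ => Finset.sum_congr rfl fun b _ => ?_
        ring
      rw [h4, ← Finset.sum_sdiff hVA]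
      have h5 : ∑ a ∈ A \ V, w a * - (P.ord (G a) : ℝ) ≤ 0 := by
        refine Finset.sum_nonpos fun a ha => ?_
        obtain ⟨ha1, ha2⟩ := Finset.mem_sdiff.1 ha
        have h6 := (hGs a ha1 P hP).resolve_left (hG0 a)
        rw [h2 a ha1 ha2, zero_smul] at h6
        simp only [Pi.zero_apply, Int.cast_zero, zero_mul, Finset.sum_const_zero, neg_zero] at h6
        have h7 : (0 : ℤ) ≤ P.ord (G a) := by exact_mod_cast h6
        have h8 : (0 : ℝ) ≤ (P.ord (G a) : ℝ) := by exact_mod_cast h7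
        rw [mul_neg]
        exact neg_nonpos.2 (mul_nonneg (hw0 a) h8)
      linarith
  -- `V` is not empty
  have hVne : V.Nonempty := by
    obtain ⟨t, ht, ht1, -⟩ := limit_sol hξ (fun _ => 0) (fun _ _ => le_refl _)
      (fun i => (μ i : ℝ)) (fun i => (μ0 i : ℝ)) 0 0 (fun n => by
        obtain ⟨k, hk, η, hη0, hη⟩ := hμ (n + 1) (Nat.le_add_left 1 n)
        obtain ⟨e', he1, -⟩ := hgen.2 _ η hη0 hη P0
        have hk0 : (0 : ℝ) < k := by exact_mod_cast hk
        have hn0 : (0 : ℝ) < (n : ℝ) + 1 := by positivity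
        refine ⟨fun b => e' b / (k * ((n : ℝ) + 1)), fun b => by positivity, fun i => ?_, by
          simp⟩
        have h1 : ((∑ b, (e' b : ℤ) * g b i : ℤ) : ℝ) = k * (((n : ℝ) + 1) * μ i + μ0 i) := by
          rw [he1 i, Pi.smul_apply, nsmul_eq_mul, Pi.add_apply, Pi.smul_apply, nsmul_eq_mul]
          push_cast
          ring
        have h2 : ∑ b, (e' b : ℝ) / (k * ((n : ℝ) + 1)) * g b i =
            ((∑ b, (e' b : ℤ) * g b i : ℤ) : ℝ) / (k * ((n : ℝ) + 1)) := by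
          push_cast
          rw [Finset.sum_div]
          exact Finset.sum_congr rfl fun b _ => by ring
        rw [h2, h1]
        field_simp)
    obtain ⟨w, hw0, hw1, -⟩ := key t ht ht1
    by_contra hcon
    rw [Finset.not_nonempty_iff_eq_empty.1 hcon, Finset.sum_empty] at hw1
    exact zero_ne_one hw1
  -- the mobile part
  have hVe : ∀ a ∈ V, 1 ≤ e a none := fun a ha => by
    rw [hV] at ha
    exact (Finset.mem_filter.1 ha).2
  have hVA : ∀ a ∈ V, a ∈ A := fun a ha => by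
    rw [hV] at ha
    exact (Finset.mem_filter.1 ha).1
  obtain ⟨k, hk⟩ : ∃ k : ℕ, k = ∏ a ∈ V, e a none := ⟨_, rfl⟩
  have hk1 : 1 ≤ k := by
    rw [hk]
    exact Finset.one_le_prod' hVe
  have hdvd : ∀ a ∈ V, e a none ∣ k := fun a ha => by
    rw [hk]
    exact Finset.dvd_prod_of_mem _ ha
  let H : (Option (Fin N0) → ℝ) → Kˣ := fun a => Units.mk0 (G a ^ (k / e a none))
    (pow_ne_zero _ (hG0 a))
  have hS : (V.image H).Nonempty := hVne.image H
  refine ⟨k, V.image H, hS, hk1, fun s hs => ?_, fun q hq hqD P hP => ?_⟩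
  · obtain ⟨a, ha, rfl⟩ := Finset.mem_image.1 hs
    have h1 := zsec_pow (hGs a (hVA a ha)) (k / e a none)
    rw [smul_smul, Nat.div_mul_cancel (hdvd a ha)] at h1
    exact h1
  -- nef divisors
  obtain ⟨T, hT, hqT⟩ := hq
  obtain ⟨c, b0, hb0, hc0⟩ := poles_bounded hamp.quot T
  obtain ⟨t, ht, ht1, ht2⟩ := limit_sol hξ (fun b => (P.ord (f b) : ℝ)) (hw P hP)
      (fun i => (μ i : ℝ)) (fun i => c * (μ0 i : ℝ)) (q P) (P.ord b0) (fun n => by
    have hn0 : (0 : ℝ) < (n : ℝ) + 1 := by positivity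
    obtain ⟨k', S', hS', hk', hS'1⟩ := hqT (1 / ((n : ℝ) + 1)) (by positivity)
    obtain ⟨s, hs, hs1⟩ := exists_mobile S' hS' P
    have hk0 : (0 : ℝ) < k' := by exact_mod_cast hk'
    -- the section
    have hsec : IsSection N δ (k' • ((n + 1) • μ + c • μ0)) ((s : K) ^ (n + 1) * b0 ^ k') := by
      intro P' hP'
      right
      have h1 : (mobile S' hS' P' : ℝ) / k' ≤ q P' + 1 / ((n : ℝ) + 1) * mobile T hT P' :=
        (hS'1 P' hP').2
      have h2 := hqD P' hP'
      have h3 : (mobile T hT P' : ℝ) ≤ (c : ℝ) * ∑ i, (μ0 i : ℝ) * (δ i P' : ℝ) + P'.ord b0 := by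
        obtain ⟨τ, hτ, hτ1⟩ := exists_mobile T hT P'
        have h4 := (hc0 P' hP').2 τ hτ
        rw [hτ1]
        exact_mod_cast h4
      have h4 : (-(P'.ord (s : K)) : ℝ) ≤ mobile S' hS' P' := by exact_mod_cast mobile_le hs
      have h5 : (-(P'.ord (s : K)) : ℝ) / k' ≤ ∑ i, (μ i : ℝ) * (δ i P' : ℝ) +
          1 / ((n : ℝ) + 1) * ((c : ℝ) * ∑ i, (μ0 i : ℝ) * (δ i P' : ℝ) + P'.ord b0) := by
        have h6 : (-(P'.ord (s : K)) : ℝ) / k' ≤ (mobile S' hS' P' : ℝ) / k' :=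
          div_le_div_of_nonneg_right h4 hk0.le
        have h7 : 1 / ((n : ℝ) + 1) * (mobile T hT P' : ℝ) ≤ 1 / ((n : ℝ) + 1) *
            ((c : ℝ) * ∑ i, (μ0 i : ℝ) * (δ i P' : ℝ) + P'.ord b0) :=
          mul_le_mul_of_nonneg_left h3 (by positivity)
        linarith
      rw [div_le_iff₀ hk0] at h5
      have h6 : ((n : ℝ) + 1) * (-(P'.ord (s : K)) : ℝ) ≤ ((n : ℝ) + 1) *
          ((∑ i, (μ i : ℝ) * (δ i P' : ℝ) + 1 / ((n : ℝ) + 1) *
            ((c : ℝ) * ∑ i, (μ0 i : ℝ) * (δ i P' : ℝ) + P'.ord b0)) * k') :=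
        mul_le_mul_of_nonneg_left h5 hn0.le
      have h7 : ((n : ℝ) + 1) *
          ((∑ i, (μ i : ℝ) * (δ i P' : ℝ) + 1 / ((n : ℝ) + 1) *
            ((c : ℝ) * ∑ i, (μ0 i : ℝ) * (δ i P' : ℝ) + P'.ord b0)) * k') =
          k' * (((n : ℝ) + 1) * ∑ i, (μ i : ℝ) * (δ i P' : ℝ) +
            ((c : ℝ) * ∑ i, (μ0 i : ℝ) * (δ i P' : ℝ) + P'.ord b0)) := by
        field_simp
      rw [h7] at h6
      have h8 : P'.ord ((s : K) ^ (n + 1) * b0 ^ k') = (n + 1 : ℕ) * P'.ord (s : K) +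
          k' * P'.ord b0 := by
        rw [P'.ord_mul (pow_ne_zero _ s.ne_zero) (pow_ne_zero _ hb0), P'.ord_pow, P'.ord_pow]
      have h9 : ∑ i, (((k' • ((n + 1) • μ + c • μ0)) i : ℤ) : ℚ) * δ i P' =
          k' * (((n : ℚ) + 1) * ∑ i, (μ i : ℚ) * δ i P' + c * ∑ i, (μ0 i : ℚ) * δ i P') := by
        rw [mul_add, Finset.mul_sum, Finset.mul_sum, Finset.mul_sum, Finset.mul_sum,
          ← Finset.sum_add_distrib]
        refine Finset.sum_congr rfl fun i _ => ?_
        rw [Pi.smul_apply, nsmul_eq_mul, Pi.add_apply, Pi.smul_apply, Pi.smul_apply,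
          nsmul_eq_mul, nsmul_eq_mul]
        push_cast
        ring
      rw [h8, h9]
      have h10 : (-(k' * (((n : ℝ) + 1) * ∑ i, (μ i : ℝ) * (δ i P' : ℝ) +
          c * ∑ i, (μ0 i : ℝ) * (δ i P' : ℝ))) : ℝ) ≤
          (((n + 1 : ℕ) * P'.ord (s : K) + k' * P'.ord b0 : ℤ) : ℝ) := by
        push_cast
        linarith
      exact_mod_cast h10
    obtain ⟨e', he1, he2⟩ := hgen.2 _ _
      (mul_ne_zero (pow_ne_zero _ s.ne_zero) (pow_ne_zero _ hb0)) hsec P
    rw [P.ord_mul (pow_ne_zero _ s.ne_zero) (pow_ne_zero _ hb0), P.ord_pow, P.ord_pow] at he2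
    refine ⟨fun b => e' b / (k' * ((n : ℝ) + 1)), fun b => by positivity, fun i => ?_, ?_⟩
    · have h1 : ((∑ b, (e' b : ℤ) * g b i : ℤ) : ℝ) =
          k' * (((n : ℝ) + 1) * μ i + c * μ0 i) := by
        rw [he1 i, Pi.smul_apply, nsmul_eq_mul, Pi.add_apply, Pi.smul_apply, Pi.smul_apply,
          nsmul_eq_mul, nsmul_eq_mul]
        push_cast
        ring
      have h2 : ∑ b, (e' b : ℝ) / (k' * ((n : ℝ) + 1)) * g b i =
          ((∑ b, (e' b : ℤ) * g b i : ℤ) : ℝ) / (k' * ((n : ℝ) + 1)) := by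
        push_cast
        rw [Finset.sum_div]
        exact Finset.sum_congr rfl fun b _ => by ring
      rw [h2, h1]
      field_simp
    · have h1 : ((∑ b, (e' b : ℤ) * P.ord (f b) : ℤ) : ℝ) ≤
          ((n : ℝ) + 1) * P.ord (s : K) + k' * P.ord b0 := by
        exact_mod_cast he2
      have h2 : ∑ b, (e' b : ℝ) / (k' * ((n : ℝ) + 1)) * (P.ord (f b) : ℝ) =
          ((∑ b, (e' b : ℤ) * P.ord (f b) : ℤ) : ℝ) / (k' * ((n : ℝ) + 1)) := by
        push_cast
        rw [Finset.sum_div]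
        exact Finset.sum_congr rfl fun b _ => by ring
      rw [h2]
      have h3 : ((∑ b, (e' b : ℤ) * P.ord (f b) : ℤ) : ℝ) / (k' * ((n : ℝ) + 1)) ≤
          (((n : ℝ) + 1) * P.ord (s : K) + k' * P.ord b0) / (k' * ((n : ℝ) + 1)) :=
        div_le_div_of_nonneg_right h1 (by positivity)
      have h4 : (((n : ℝ) + 1) * P.ord (s : K) + k' * P.ord b0) / (k' * ((n : ℝ) + 1)) =
          (P.ord (s : K) : ℝ) / k' + (P.ord b0 : ℝ) / ((n : ℝ) + 1) := by
        field_simp
      have h5 := (hS'1 P hP).1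
      rw [hs1] at h5
      push_cast at h5
      have h6 : (-(P.ord (s : K) : ℝ)) / k' = -((P.ord (s : K) : ℝ) / k') := neg_div _ _
      rw [h6] at h5
      linarith)
  obtain ⟨w, hw0, hw1, hw2⟩ := key t ht ht1
  refine ht2.trans ((hw2 P hP).trans ?_)
  have hk0 : (0 : ℝ) < k := by exact_mod_cast hk1
  have h1 : ∀ a ∈ V, w a * - (P.ord (G a) : ℝ) ≤
      w a * e a none * ((mobile (V.image H) hS P : ℝ) / k) := by
    intro a ha
    have h2 : (-(P.ord (H a : K)) : ℤ) ≤ mobile (V.image H) hS P :=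
      mobile_le (Finset.mem_image_of_mem H ha)
    have h3 : P.ord (H a : K) = (k / e a none : ℕ) * P.ord (G a) := P.ord_pow _ _
    have h4 : ((k / e a none : ℕ) : ℝ) * e a none = k := by
      exact_mod_cast Nat.div_mul_cancel (hdvd a ha)
    have h5 : (-((k / e a none : ℕ) * P.ord (G a)) : ℝ) ≤ mobile (V.image H) hS P := by
      rw [h3] at h2
      have h7 : ((-(((k / e a none : ℕ) : ℤ) * P.ord (G a)) : ℤ) : ℝ) ≤
          ((mobile (V.image H) hS P : ℤ) : ℝ) := Int.cast_le.2 h2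
      rwa [Int.cast_neg, Int.cast_mul, Int.cast_natCast] at h7
    rw [mul_assoc]
    refine mul_le_mul_of_nonneg_left ?_ (hw0 a)
    rw [← mul_div_assoc, le_div_iff₀ hk0, ← h4]
    have h6 : (0 : ℝ) ≤ e a none := Nat.cast_nonneg _
    nlinarith
  refine (Finset.sum_le_sum h1).trans ?_
  rw [← Finset.sum_mul, hw1, one_mul]

end

end Run7.h530.FI
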