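import Pool.Agent.Run7.h530.FI.Nef
import Pool.Agent.Run7.h530.FI.Zar

/-!
Generalised nonvanishing if the multigraded ring of sections is finitely generated.
-/

set_option autoImplicit false
set_option linter.overlappingInstances false
set_option linter.unusedSectionVars false

open FF Pool.Agent.W602.GT Pool.Agent.Q57.FT Pool.Agent.Q57.CX Pool.Agent.Q57.HK
open Pool.Agent.Y167 (cone cone_sum cone_smul cone_add mem_cone_self cone_le cone_ind cone_mono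
  zero_mem_cone)

namespace Run7.h530.FI

variable {p N : ℕ} {K : Type} [Field K] [Algebra ℂ K] {δ : Fin p → Place ℂ K → ℚ}

theorem coneOf_add {A : Set (Fin p → ℝ)} {x y : Fin p → ℝ} (hx : x ∈ coneOf A)
    (hy : y ∈ coneOf A) : x + y ∈ coneOf A := by
  classical
  obtain ⟨S, hS, hx⟩ := hx
  obtain ⟨T, hT, hy⟩ := hy
  refine ⟨S ∪ T, ?_, cone_add (cone_le (fun a ha => ?_) hx) (cone_le (fun a ha => ?_) hy)⟩
  · rw [Finset.coe_union]
    exact Set.union_subset hS hT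
  · exact mem_cone_self (Finset.mem_union_left T ha)
  · exact mem_cone_self (Finset.mem_union_right S ha)

theorem coneOf_smul {A : Set (Fin p → ℝ)} {x : Fin p → ℝ} (hx : x ∈ coneOf A) {t : ℝ}
    (ht : 0 ≤ t) : t • x ∈ coneOf A := by
  obtain ⟨S, hS, hx⟩ := hx
  exact ⟨S, hS, cone_smul hx ht⟩

theorem mem_effCone {μ : Fin p → ℤ} {k : ℕ} (hk : 1 ≤ k) (h : IsEff N δ (k • μ)) :
    rc μ ∈ effCone N δ := by
  classical
  have hk0 : (0 : ℝ) < k := by exact_mod_cast hk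
  have h1 : rc μ = (k : ℝ)⁻¹ • rc (k • μ) := by
    rw [rc_nsmul, smul_smul, inv_mul_cancel₀ hk0.ne', one_smul]
  rw [h1]
  refine coneOf_smul ?_ (inv_nonneg.2 hk0.le)
  exact ⟨{rc (k • μ)}, by
    intro a ha
    rw [Finset.coe_singleton, Set.mem_singleton_iff] at ha
    exact ⟨k • μ, h, ha⟩, mem_cone_self (Finset.mem_singleton_self _)⟩

/-- **Generalised nonvanishing.** -/
theorem gen_nonvanishing (hfg : (coxRing N δ).FG)
    (hind : ∀ μ : Fin p → ℤ, IsEff N δ μ → IsEff N δ (-μ) → μ = 0) {μ0 : Fin p → ℤ}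
    (hamp : IsAmpleDivisor N δ μ0) :
    (∀ κ : Fin p → ℤ, IsPsef N δ μ0 κ → ∃ k : ℕ, 1 ≤ k ∧ IsEff N δ (k • κ)) ∧
    ∀ κ μ : Fin p → ℤ, IsPsef N δ μ0 κ → IsNef N δ μ0 μ → ∀ t : ℝ, 0 ≤ t →
      rc κ + t • rc μ ∈ effCone N δ := by
  have h1 : ∀ κ : Fin p → ℤ, IsPsef N δ μ0 κ → ∃ k : ℕ, 1 ≤ k ∧ IsEff N δ (k • κ) := by
    intro κ hκ
    obtain ⟨k, S, hS, h⟩ := fujita_zariski hfg hind hamp hκ
    obtain ⟨f, hf⟩ := hS
    exact ⟨k, h.pos, f, f.ne_zero, h.sec f hf⟩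
  refine ⟨h1, fun κ μ hκ hμ t ht => ?_⟩
  obtain ⟨k, hk, hkκ⟩ := h1 κ hκ
  refine coneOf_add (mem_effCone hk hkκ) (coneOf_smul ?_ ht)
  obtain ⟨⟨l, hl, hfree⟩, -⟩ := nef_free hfg hind hamp.ample
  by_cases hne : {P : Place ℂ K | Divisorial N P}.Nonempty
  · obtain ⟨P, hP⟩ := hne
    exact mem_effCone hl (hfree μ hμ P hP).eff
  · exact mem_effCone hl ⟨1, one_ne_zero, fun P hP => absurd ⟨P, hP⟩ hne⟩

end Run7.h530.FI
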