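import Pool.Agent.W602.GT.Defs
import Pool.Agent.Y167.ConeDef

/-!
Definitions: the nef cone, the movable cone and the effective cone in the space of the real
combinations of divisors `D 1, ..., D p` on a normal projective variety `X`, pull backs of the `D i` by
birational self-maps, and rational polyhedral fundamental domains. The `D i` are `ℚ`-Cartier, and
`δ i P` is the coefficient of the pull back of `D i` at the prime divisor `P` over `X` (the places `P`
of the function field `K` of `X` with `Divisorial N P`, `N` being the dimension of `X`).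
-/

set_option autoImplicit false

open FF Pool.Agent.W602.GT
open Pool.Agent.Y167 (cone)

namespace Run7.h530.FI

section

variable {K : Type} [Field K] [Algebra ℂ K] {p : ℕ}

/-- The integral vector `μ` as a real vector. -/
def rc (μ : Fin p → ℤ) : Fin p → ℝ := fun i => (μ i : ℝ)

/-- The convex cone generated by the set `A`. -/
def coneOf (A : Set (Fin p → ℝ)) : Set (Fin p → ℝ) :=
  {x | ∃ S : Finset (Fin p → ℝ), (S : Set (Fin p → ℝ)) ⊆ A ∧ x ∈ cone S}

/-- `f` is a section of `∑ i, μ i * D i`: its order at every prime divisor `P` over `X` is at least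
minus the coefficient of the pull back of this divisor at `P`. -/
def IsSection (N : ℕ) (δ : Fin p → Place ℂ K → ℚ) (μ : Fin p → ℤ) (f : K) : Prop :=
  ∀ P : Place ℂ K, Divisorial N P → f = 0 ∨ - ∑ i, (μ i : ℚ) * δ i P ≤ P.ord f

/-- The divisor `∑ i, μ i * D i` is linearly equivalent to an effective divisor. -/
def IsEff (N : ℕ) (δ : Fin p → Place ℂ K → ℚ) (μ : Fin p → ℤ) : Prop :=
  ∃ f : K, f ≠ 0 ∧ IsSection N δ μ f

/-- The centre of the prime divisor `P` over `X` is not contained in the base locus of
`∑ i, μ i * D i`: some section does not vanish there. -/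
def FreeAt (N : ℕ) (δ : Fin p → Place ℂ K → ℚ) (μ : Fin p → ℤ) (P : Place ℂ K) : Prop :=
  ∃ f : K, f ≠ 0 ∧ IsSection N δ μ f ∧ (P.ord f : ℚ) = - ∑ i, (μ i : ℚ) * δ i P

/-- The cone of the effective combinations of the `D i`. -/
def effCone (N : ℕ) (δ : Fin p → Place ℂ K → ℚ) : Set (Fin p → ℝ) :=
  coneOf {z | ∃ μ, IsEff N δ μ ∧ z = rc μ}

/-- The closed cone generated by the combinations `∑ i, μ i * D i` whose base locus contains no centre
of a prime divisor in `𝒬`. If `𝒬` is the set of all prime divisors over `X` these are the base point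
free combinations and this is the nef cone (if the `D i` generate the divisor classes); if `𝒬` is the
set of the prime divisors on `X` it is the closed movable cone. -/
def freeCone (N : ℕ) (δ : Fin p → Place ℂ K → ℚ) (𝒬 : Set (Place ℂ K)) : Set (Fin p → ℝ) :=
  closure (coneOf {z | ∃ μ, (∀ P ∈ 𝒬, FreeAt N δ μ P) ∧ z = rc μ})

/-- The nef cone, in the space of the real combinations of the `D i`: the closed cone generated by the
base point free combinations `∑ i, μ i * D i`. -/
def nefCone (N : ℕ) (δ : Fin p → Place ℂ K → ℚ) : Set (Fin p → ℝ) :=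
  freeCone N δ {P | Divisorial N P}

/-- The linear map `T` is the pull back of the combinations of the `D i` by the birational self-map `f`
of `X` with `φ = f^*`, up to linear equivalence and multiples: for some `k ≥ 1` the pull back of
`k * D i` is the sum of `∑ j, b i j * D j`, with `k * T (D i) = ∑ j, b i j * D j`, and of the divisor of
the rational function `h i`. If `P` is the image of `Q` then the coefficient at `Q` of the pull back of
`D i` is `δ i P`. This is required for the `Q` in `𝒬`: for all prime divisors over `X` if `f` is an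
automorphism, for the prime divisors on `X` if `f` is a pseudo-automorphism. -/
def IsPullBack (δ : Fin p → Place ℂ K → ℚ) (𝒬 : Set (Place ℂ K)) (φ : K ≃ₐ[ℂ] K)
    (T : (Fin p → ℝ) ≃ₗ[ℝ] (Fin p → ℝ)) : Prop :=
  ∃ k : ℕ, 1 ≤ k ∧ ∃ (b : Fin p → Fin p → ℤ) (h : Fin p → K), (∀ i, h i ≠ 0) ∧
    (∀ i, (k : ℝ) • T (Pi.single i 1) = rc (b i)) ∧
    ∀ (i : Fin p) (P Q : Place ℂ K), Q ∈ 𝒬 → (∀ g, P.ord g = Q.ord (φ g)) →
      (k : ℚ) * δ i P = ∑ j, (b i j : ℚ) * δ j Q + Q.ord (h i)

/-- The birational self-map `f` of `X` with `φ = f^*` permutes the prime divisors in `𝒬`. -/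
def Permutes (φ : K ≃ₐ[ℂ] K) (𝒬 : Set (Place ℂ K)) : Prop :=
  ∀ P Q : Place ℂ K, (∀ g, P.ord g = Q.ord (φ g)) → (P ∈ 𝒬 ↔ Q ∈ 𝒬)

/-- Some rational polyhedral cone, generated by the integral vectors in the finite set `S`, is a
fundamental domain for the action of the set `𝒢` of linear automorphisms on `A`. -/
def HasFundDomain (𝒢 : Set ((Fin p → ℝ) ≃ₗ[ℝ] (Fin p → ℝ))) (A : Set (Fin p → ℝ)) : Prop :=
  ∃ S : Finset (Fin p → ℝ), (∀ s ∈ S, ∀ i, ∃ m : ℤ, s i = m) ∧ A = ⋃ T ∈ 𝒢, T '' cone S ∧
    ∀ T ∈ 𝒢, T ≠ 1 → interior (cone S) ∩ T '' interior (cone S) = ∅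

end

end Run7.h530.FI
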