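import Pool.Agent.Y167.Dom
import Pool.Agent.Run7.h530.FI.CDefs

/-!
Rational polyhedral cones: intersections of cones which are generated by integral vectors, and
positive linear forms.
-/

set_option autoImplicit false
set_option linter.unusedSectionVars false

namespace Run7.h530.FI

open Pool.Agent.Y167

/-- the part of a cone where finitely many integral linear forms are nonnegative -/
theorem cut_int {W : Type} [AddCommGroup W] [Module ℝ W] {L : AddSubgroup W} (S : Finset W)
    (hS : ∀ a ∈ S, a ∈ L) (Φ : Finset (W →ₗ[ℝ] ℝ)) (hΦ : ∀ φ ∈ Φ, ∀ x ∈ L, ∃ n : ℤ, φ x = n) :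
    ∃ S' : Finset W, (∀ a ∈ S', a ∈ L) ∧ ∀ x, x ∈ cone S' ↔ x ∈ cone S ∧ ∀ φ ∈ Φ, 0 ≤ φ x := by
  classical
  induction Φ using Finset.induction_on with
  | empty => exact ⟨S, hS, fun x => by simp⟩
  | insert φ Φ _ ih =>
    obtain ⟨S1, hS1, h1⟩ := ih fun ψ hψ => hΦ ψ (Finset.mem_insert_of_mem hψ)
    obtain ⟨S2, hS2, h2⟩ := cone_cut S1 φ (fun a => a ∈ L) hS1 (by
      intro a ha b hb _ _
      obtain ⟨m, hm⟩ := hΦ φ (Finset.mem_insert_self _ _) a (hS1 a ha)
      obtain ⟨n, hn⟩ := hΦ φ (Finset.mem_insert_self _ _) b (hS1 b hb)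
      rw [hm, hn]
      refine L.sub_mem ?_ ?_
      · rw [Int.cast_smul_eq_zsmul]; exact L.zsmul_mem (hS1 b hb) m
      · rw [Int.cast_smul_eq_zsmul]; exact L.zsmul_mem (hS1 a ha) n)
    refine ⟨S2, hS2, fun x => ?_⟩
    rw [h2, h1, Finset.forall_mem_insert]
    tauto

section

variable {ι : Type} [Fintype ι] [DecidableEq ι]

/-- the integral vectors -/
def intL (ι : Type) : AddSubgroup (ι → ℝ) where
  carrier := {x | ∀ i, ∃ a : ℤ, x i = a}
  zero_mem' := fun _ => ⟨0, by simp⟩
  add_mem' := by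
    intro x y hx hy i
    obtain ⟨a, ha⟩ := hx i
    obtain ⟨b, hb⟩ := hy i
    exact ⟨a + b, by rw [Pi.add_apply, ha, hb]; push_cast; rfl⟩
  neg_mem' := by
    intro x hx i
    obtain ⟨a, ha⟩ := hx i
    exact ⟨-a, by rw [Pi.neg_apply, ha]; push_cast; rfl⟩

theorem mem_orthant (x : ι → ℝ) :
    x ∈ cone (Finset.univ.image fun i : ι => (Pi.single i 1 : ι → ℝ)) ↔ ∀ i, 0 ≤ x i := by
  classical
  constructor
  · intro hx
    refine cone_ind (p := fun x => ∀ i, 0 ≤ x i) (fun i => le_refl _) (fun x y h1 h2 i =>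
      add_nonneg (h1 i) (h2 i)) (fun t x ht h i => mul_nonneg ht (h i)) ?_ hx
    intro a ha
    obtain ⟨i, -, rfl⟩ := Finset.mem_image.1 ha
    intro j
    rcases eq_or_ne j i with h | h
    · rw [h, Pi.single_eq_same]
      exact zero_le_one
    · rw [Pi.single_eq_of_ne h]
  · intro hx
    have h1 : x = ∑ i, x i • (Pi.single i 1 : ι → ℝ) := by
      funext j
      rw [Finset.sum_apply, Finset.sum_eq_single j]
      · rw [Pi.smul_apply, Pi.single_eq_same, smul_eq_mul, mul_one]
      · intro i _ hij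
        rw [Pi.smul_apply, Pi.single_eq_of_ne hij.symm, smul_zero]
      · intro h
        exact absurd (Finset.mem_univ j) h
    rw [h1]
    exact cone_sum _ _ fun i _ => cone_smul (mem_cone_self (Finset.mem_image_of_mem _
      (Finset.mem_univ i))) (hx i)

/-- the nonnegative solutions of linear equations with integral coefficients -/
theorem solutions {κ : Type} [Fintype κ] (v : κ → ι → ℤ) :
    ∃ S : Finset (ι → ℝ), (∀ a ∈ S, ∃ e : ι → ℕ, (∀ i, a i = e i) ∧ ∀ k, ∑ i, (e i : ℤ) * v k i = 0) ∧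
      ∀ x, x ∈ cone S ↔ (∀ i, 0 ≤ x i) ∧ ∀ k, ∑ i, x i * v k i = 0 := by
  classical
  let φ : κ → (ι → ℝ) →ₗ[ℝ] ℝ := fun k => ∑ i, (v k i : ℝ) • LinearMap.proj i
  have hφ : ∀ k x, φ k x = ∑ i, x i * v k i := by
    intro k x
    simp only [φ, LinearMap.sum_apply, LinearMap.smul_apply, LinearMap.proj_apply, smul_eq_mul]
    exact Finset.sum_congr rfl fun i _ => mul_comm _ _
  have hint : ∀ k, ∀ x ∈ intL ι, ∃ n : ℤ, φ k x = n := by
    intro k x hx
    choose a ha using hx
    refine ⟨∑ i, a i * v k i, ?_⟩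
    rw [hφ]
    push_cast
    exact Finset.sum_congr rfl fun i _ => by rw [ha]
  obtain ⟨S, hS, h⟩ := cut_int (L := intL ι)
    (Finset.univ.image fun i : ι => (Pi.single i 1 : ι → ℝ)) (by
      intro a ha
      obtain ⟨i, -, rfl⟩ := Finset.mem_image.1 ha
      intro j
      rcases eq_or_ne j i with h | h
      · exact ⟨1, by rw [h, Pi.single_eq_same]; push_cast; rfl⟩
      · exact ⟨0, by rw [Pi.single_eq_of_ne h]; push_cast; rfl⟩)
    (Finset.univ.image φ ∪ Finset.univ.image fun k => - φ k) (by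
      intro ψ hψ x hx
      rcases Finset.mem_union.1 hψ with h | h
      · obtain ⟨k, -, rfl⟩ := Finset.mem_image.1 h
        exact hint k x hx
      · obtain ⟨k, -, rfl⟩ := Finset.mem_image.1 h
        obtain ⟨n, hn⟩ := hint k x hx
        exact ⟨-n, by rw [LinearMap.neg_apply, hn]; push_cast; rfl⟩)
  have key : ∀ x, x ∈ cone S ↔ (∀ i, 0 ≤ x i) ∧ ∀ k, ∑ i, x i * v k i = 0 := by
    intro x
    rw [h, mem_orthant]
    refine and_congr_right fun _ => ⟨fun h1 k => ?_, fun h1 ψ hψ => ?_⟩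
    · have h2 := h1 (φ k) (Finset.mem_union_left _ (Finset.mem_image_of_mem _ (Finset.mem_univ k)))
      have h3 := h1 (- φ k) (Finset.mem_union_right _
        (Finset.mem_image.2 ⟨k, Finset.mem_univ k, rfl⟩))
      rw [LinearMap.neg_apply, hφ] at h3
      rw [hφ] at h2
      linarith
    · rcases Finset.mem_union.1 hψ with h2 | h2
      · obtain ⟨k, -, rfl⟩ := Finset.mem_image.1 h2
        rw [hφ, h1 k]
      · obtain ⟨k, -, rfl⟩ := Finset.mem_image.1 h2
        rw [LinearMap.neg_apply, hφ, h1 k, neg_zero]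
  refine ⟨S, fun a ha => ?_, key⟩
  obtain ⟨h1, h2⟩ := (key a).1 (mem_cone_self ha)
  choose b hb using hS a ha
  have hb0 : ∀ i, 0 ≤ b i := by
    intro i
    have h3 := h1 i
    rw [hb i] at h3
    exact_mod_cast h3
  refine ⟨fun i => (b i).toNat, fun i => ?_, fun k => ?_⟩
  · rw [hb i]
    exact_mod_cast (Int.toNat_of_nonneg (hb0 i)).symm
  · have h3 := h2 k
    have h4 : ((∑ i, b i * v k i : ℤ) : ℝ) = 0 := by
      rw [← h3]
      push_cast
      exact Finset.sum_congr rfl fun i _ => by rw [hb i]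
    have h5 : ∑ i, b i * v k i = 0 := by exact_mod_cast h4
    rw [← h5]
    exact Finset.sum_congr rfl fun i _ => by rw [Int.toNat_of_nonneg (hb0 i)]

/-- a real nonnegative relation gives an integral one -/
theorem int_relation {κ : Type} [Fintype κ] (v : κ → ι → ℤ) {t : ι → ℝ} (ht : ∀ i, 0 ≤ t i)
    (h : ∀ k, ∑ i, t i * v k i = 0) {i0 : ι} (hi0 : 0 < t i0) :
    ∃ e : ι → ℕ, (∀ k, ∑ i, (e i : ℤ) * v k i = 0) ∧ 0 < e i0 := by
  classical
  obtain ⟨S, hS, hc⟩ := solutions v
  obtain ⟨c, hc0, hct⟩ := (hc t).2 ⟨ht, h⟩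
  by_contra hcon
  push Not at hcon
  have h1 : t i0 = 0 := by
    rw [hct, Finset.sum_apply]
    refine Finset.sum_eq_zero fun a ha => ?_
    obtain ⟨e, he, hek⟩ := hS a ha
    have h2 := hcon e hek
    rw [Pi.smul_apply, he i0, Nat.le_zero.1 h2]
    simp
  linarith

end

section

variable {p : ℕ}

theorem rc_inj : Function.Injective (rc (p := p)) := by
  intro μ ν h
  funext i
  have := congrFun h i
  unfold rc at this
  exact_mod_cast this

theorem mem_cone_rc {U : Finset (Fin p → ℤ)} {x : Fin p → ℝ} [DecidableEq (Fin p → ℝ)] :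
    x ∈ cone (U.image rc) ↔ ∃ t : (Fin p → ℤ) → ℝ, (∀ a, 0 ≤ t a) ∧
      x = ∑ a ∈ U, t a • rc a := by
  classical
  constructor
  · rintro ⟨c, hc, hx⟩
    refine ⟨fun a => c (rc a), fun a => hc _, ?_⟩
    rw [hx, Finset.sum_image fun a _ b _ h => rc_inj h]
  · rintro ⟨t, ht, rfl⟩
    exact cone_sum _ _ fun a ha => cone_smul (mem_cone_self (Finset.mem_image_of_mem rc ha)) (ht a)

/-- **Gordan's theorem**: there is an integral linear form which is positive on the vectors in `U`, or
there is a nonnegative integral relation. -/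
theorem gordan (U : Finset (Fin p → ℤ)) :
    (∃ ξ : Fin p → ℤ, ∀ a ∈ U, 0 < ∑ i, ξ i * a i) ∨
      ∃ e : (Fin p → ℤ) → ℕ, (∀ i, ∑ a ∈ U, (e a : ℤ) * a i = 0) ∧ ∃ a ∈ U, 0 < e a := by
  classical
  by_cases h0 : (0 : Fin p → ℝ) ∈ convexHull ℝ ((U.image rc : Finset (Fin p → ℝ)) :
      Set (Fin p → ℝ))
  · right
    rw [Finset.mem_convexHull'] at h0
    obtain ⟨w, hw, hw1, hw0⟩ := h0
    rw [Finset.sum_image fun a _ b _ h => rc_inj h] at hw1 hw0
    have hpos : ∃ a ∈ U, 0 < w (rc a) := by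
      by_contra hcon
      push Not at hcon
      have : ∑ a ∈ U, w (rc a) ≤ 0 := Finset.sum_nonpos hcon
      linarith
    obtain ⟨a0, ha0, hwa0⟩ := hpos
    obtain ⟨e, he, he0⟩ := int_relation (ι := U) (κ := Fin p) (fun k a => a.1 k)
      (t := fun a => w (rc a.1)) (fun a => hw _ (Finset.mem_image_of_mem rc a.2)) (by
        intro k
        have h1 := congrFun hw0 k
        rw [Finset.sum_apply, Pi.zero_apply] at h1
        rw [← h1, ← Finset.sum_coe_sort U]
        exact Finset.sum_congr rfl fun a _ => rfl) (i0 := ⟨a0, ha0⟩) hwa0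
    refine ⟨fun a => if h : a ∈ U then e ⟨a, h⟩ else 0, fun i => ?_, a0, ha0, ?_⟩
    · rw [← Finset.sum_coe_sort U]
      rw [← he i]
      refine Finset.sum_congr rfl fun a _ => ?_
      beta_reduce
      rw [dif_pos a.2]
    · beta_reduce
      rw [dif_pos ha0]
      exact he0
  · left
    have hcomp : IsCompact (convexHull ℝ ((U.image rc : Finset (Fin p → ℝ)) :
        Set (Fin p → ℝ))) := (Finset.finite_toSet _).isCompact_convexHull ℝ
    obtain ⟨f, u, hu0, hu⟩ := geometric_hahn_banach_point_closed (convex_convexHull ℝ _)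
      hcomp.isClosed h0
    have hfpos : ∀ a ∈ U, 0 < f (rc a) := by
      intro a ha
      have h1 := hu (rc a) (subset_convexHull ℝ _ (by
        rw [Finset.coe_image]
        exact Set.mem_image_of_mem rc ha))
      rw [map_zero] at hu0
      linarith
    -- a rational linear form
    let V : Set (Fin p → ℝ) := {x | ∀ a ∈ U, 0 < ∑ i, x i * rc a i}
    have hVo : IsOpen V := by
      have h1 : V = ⋂ a ∈ U, {x : Fin p → ℝ | 0 < ∑ i, x i * rc a i} := by
        ext x
        simp only [V, Set.mem_ofPred_eq, Set.mem_iInter]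
      rw [h1]
      refine isOpen_biInter_finset fun a _ => isOpen_lt continuous_const ?_
      fun_prop
    have hVn : V.Nonempty := by
      refine ⟨fun i => f (Pi.single i 1), fun a ha => ?_⟩
      have h1 := hfpos a ha
      have h2 : rc a = ∑ i, rc a i • (Pi.single i 1 : Fin p → ℝ) := by
        funext j
        rw [Finset.sum_apply, Finset.sum_eq_single j]
        · rw [Pi.smul_apply, Pi.single_eq_same, smul_eq_mul, mul_one]
        · intro i _ hij
          rw [Pi.smul_apply, Pi.single_eq_of_ne hij.symm, smul_zero]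
        · intro h
          exact absurd (Finset.mem_univ j) h
      rw [h2, map_sum] at h1
      refine lt_of_lt_of_eq h1 (Finset.sum_congr rfl fun i _ => ?_)
      rw [map_smul, smul_eq_mul, mul_comm]
    obtain ⟨q, hq⟩ := (DenseRange.piMap (f := fun _ : Fin p => ((↑) : ℚ → ℝ))
      fun _ => Rat.denseRange_cast).exists_mem_open hVo hVn
    -- clear the denominators
    refine ⟨fun i => (∏ j, ((q j).den : ℤ)) * (q i).num / (q i).den, fun a ha => ?_⟩
    have hdiv : ∀ i, (((∏ j, ((q j).den : ℤ)) * (q i).num / (q i).den : ℤ) : ℚ) =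
        (∏ j, ((q j).den : ℚ)) * q i := by
      intro i
      have h1 : ((q i).den : ℤ) ∣ (∏ j, ((q j).den : ℤ)) * (q i).num :=
        Dvd.dvd.mul_right (Finset.dvd_prod_of_mem _ (Finset.mem_univ i)) _
      rw [Int.cast_div h1 (by exact_mod_cast (q i).den_ne_zero)]
      push_cast
      rw [mul_div_assoc, Rat.num_div_den]
    have h1 : (0 : ℚ) < ∑ i, (∏ j, ((q j).den : ℚ)) * q i * a i := by
      have h2 : (0 : ℝ) < ∑ i, (q i : ℝ) * rc a i := hq a ha
      have h3 : (0 : ℚ) < ∑ i, q i * a i := by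
        have : ((∑ i, q i * a i : ℚ) : ℝ) = ∑ i, (q i : ℝ) * rc a i := by
          push_cast
          rfl
        rw [← this] at h2
        exact_mod_cast h2
      have h4 : ∑ i, (∏ j, ((q j).den : ℚ)) * q i * a i =
          (∏ j, ((q j).den : ℚ)) * ∑ i, q i * a i := by
        rw [Finset.mul_sum]
        exact Finset.sum_congr rfl fun i _ => by ring
      rw [h4]
      refine mul_pos (Finset.prod_pos fun j _ => ?_) h3
      exact_mod_cast (q j).pos
    have h5 : ((∑ i, ((∏ j, ((q j).den : ℤ)) * (q i).num / (q i).den) * a i : ℤ) : ℚ) =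
        ∑ i, (∏ j, ((q j).den : ℚ)) * q i * a i := by
      rw [Int.cast_sum]
      refine Finset.sum_congr rfl fun i _ => ?_
      rw [Int.cast_mul, hdiv]
    rw [← h5] at h1
    exact_mod_cast h1

end

end Run7.h530.FI
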