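import Pool.Agent.Run7.h530.FI.NDefs

/-!
Definitions: small modifications (marked SQMs) of a normal projective variety.
-/

set_option autoImplicit false

open FF Pool.Agent.W602.GT

namespace Run7.h530.FI

section

variable {K : Type} [Field K] [Algebra ℂ K] {p : ℕ}

/-- Let `X` be a normal projective variety with the function field `K`, `𝒬` the set of the prime
divisors on `X`, and `δ i P` the coefficient of the pull back of the `ℚ`-Cartier divisor `D i` on `X` at
the prime divisor `P` over `X`. Let `X'` be a small modification of `X` (a projective variety with a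
birational map `X ⇢ X'` which is an isomorphism in codimension one) on which the strict
transforms `D' i` of the `D i` are `ℚ`-Cartier, and let `δ' i P` be the coefficient of the pull back of
`D' i` at the prime divisor `P` over `X'` (or, which is the same, over `X`). Then the prime divisors on
`X'` are the elements of `𝒬`; `D i` and `D' i` have the same coefficients there (`strict`); effectivity
of the `ℚ`-Cartier divisors on `X'` is seen on `X'` (`primes`); and some combination of the `D' i` is
ample, if the `D' i` generate the divisor classes of `X'` tensor `ℚ`: for the ample combination `A` and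
all combinations `E` some `k * A + j * E` with `k, j ≥ 1` is base point free (`ample`). -/
structure IsSmallModification (N : ℕ) (𝒬 : Set (Place ℂ K)) (δ δ' : Fin p → Place ℂ K → ℚ) :
    Prop where
  strict : ∀ i, ∀ P ∈ 𝒬, δ' i P = δ i P
  primes : ∀ (μ : Fin p → ℤ) (f : K),
    (∀ P ∈ 𝒬, f = 0 ∨ - ∑ i, (μ i : ℚ) * δ' i P ≤ P.ord f) → IsSection N δ' μ f
  ample : ∃ μ0 : Fin p → ℤ, ∀ ν : Fin p → ℤ, ∃ k j : ℕ, 1 ≤ k ∧ 1 ≤ j ∧
    IsFree N δ' (k • μ0 + j • ν)

end

end Run7.h530.FI
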