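import Pool.Agent.Run7.h530.FI.NDefs

/-!
Definitions: the Fujita-Zariski decomposition of a combination of the divisors `D 1, ..., D p` on a
normal projective variety.
-/

set_option autoImplicit false

open FF Pool.Agent.W602.GT

namespace Run7.h530.FI

section

variable {K : Type} [Field K] [Algebra ℂ K] {p : ℕ}

/-- Let `S` be a finite set of nonzero functions. On all models `W` on which the ideal generated by `S`
is invertible (for instance after the blowing up of this ideal) the divisor `- min {ord f | f ∈ S}` is
Cartier and base point free, and this is the coefficient of its pull back at the prime divisor `P` over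
`W`. Every base point free divisor on a projective model is of this kind. -/
noncomputable def mobile (S : Finset Kˣ) (hS : S.Nonempty) (P : Place ℂ K) : ℤ :=
  S.sup' hS fun f => - P.ord (f : K)

/-- The `ℝ`-Cartier divisor `L` on some projective model `W`, with the coefficients `q P` of its pull
backs at the prime divisors `P` over `W`, is nef: for some effective divisor `A` and all `ε > 0` there is
a semiample `ℚ`-divisor between `L` and `L + ε * A` (on some model; if `W` is smooth and `A` is an ample
divisor whose support contains the one of `L` then there is even an ample one on `W`). -/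
def IsNefDivisor (N : ℕ) (q : Place ℂ K → ℝ) : Prop :=
  ∃ (T : Finset Kˣ) (hT : T.Nonempty), ∀ ε : ℝ, 0 < ε →
    ∃ (k : ℕ) (S : Finset Kˣ) (hS : S.Nonempty), 1 ≤ k ∧ ∀ P : Place ℂ K, Divisorial N P →
      q P ≤ (mobile S hS P : ℝ) / k ∧ (mobile S hS P : ℝ) / k ≤ q P + ε * mobile T hT P

/-- The divisor `∑ i, μ i * D i` is pseudo-effective, `A = ∑ i, μ0 i * D i` being ample: for every
`j ≥ 1` some multiple of `j * D + A` is linearly equivalent to an effective divisor. -/
def IsPsef (N : ℕ) (δ : Fin p → Place ℂ K → ℚ) (μ0 μ : Fin p → ℤ) : Prop :=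
  ∀ j : ℕ, 1 ≤ j → ∃ k : ℕ, 1 ≤ k ∧ IsEff N δ (k • (j • μ + μ0))

/-- `A = ∑ i, μ0 i * D i` is ample: for every combination `E` some `k * A + E`, `k ≥ 1`, is base point
free; and every rational function is a quotient of two sections of a multiple of `A`. -/
structure IsAmpleDivisor (N : ℕ) (δ : Fin p → Place ℂ K → ℚ) (μ0 : Fin p → ℤ) : Prop where
  ample : IsAmple N δ μ0
  quot : ∀ f : K, ∃ (k : ℕ) (a b : K), b ≠ 0 ∧ IsSection N δ (k • μ0) a ∧
    IsSection N δ (k • μ0) b ∧ f = a / b

/-- `1 / k` times the mobile part `P` of the linear system generated by the set `S` of functions is the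
positive part of a Fujita-Zariski decomposition `D = P + N` of `D = ∑ i, μ i * D i`: the elements of `S`
are sections of `k * D`, hence `N ≥ 0`; and `P` contains every nef `ℝ`-Cartier divisor `L ≤ D` on every
model. -/
structure IsFujitaZariski (N : ℕ) (δ : Fin p → Place ℂ K → ℚ) (μ : Fin p → ℤ) (k : ℕ)
    (S : Finset Kˣ) (hS : S.Nonempty) : Prop where
  pos : 1 ≤ k
  sec : ∀ f ∈ S, IsSection N δ (k • μ) (f : K)
  max : ∀ q : Place ℂ K → ℝ, IsNefDivisor N q →
    (∀ P, Divisorial N P → q P ≤ ∑ i, (μ i : ℝ) * (δ i P : ℝ)) →
    ∀ P, Divisorial N P → q P ≤ (mobile S hS P : ℝ) / k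

end

end Run7.h530.FI
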